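import Pool.Agent.Helper462.Iso.Main

/-!
# Supports of modules and minimal pairs
-/

namespace ZIso

universe u

open Zg

section
variable {R : Type u} [Ring R]

/-- `supp(M)`: the points `N` of the Ziegler spectrum such that every pp-pair with
`φ(M) = ψ(M)` also has `φ(N) = ψ(N)` -/
def supp (R : Type u) [Ring R] (M : Type u) [AddCommGroup M] [Module R M] :
    Set (ZieglerSpectrum R) :=
  {x | ∃ N : IndecPureInjective R, zgPoint N = x ∧ ∀ φ ψ : PPFormula R, ψ.Le φ →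
    φ.sol M = ψ.sol M → φ.sol N.carrier = ψ.sol N.carrier}

/-- the pp-pair `φ/ψ` is `M`-minimal: `φ(M) > ψ(M)` and no pp-definable subgroup of `M` lies
strictly between `φ(M)` and `ψ(M)` -/
def IsMinimalFor (M : Type u) [AddCommGroup M] [Module R M] (φ ψ : PPFormula R) : Prop :=
  ψ.Le φ ∧ φ.sol M ≠ ψ.sol M ∧ ∀ θ : PPFormula R, ψ.sol M ⊆ θ.sol M → θ.sol M ⊆ φ.sol M →
    θ.sol M = ψ.sol M ∨ θ.sol M = φ.sol M

/-- a minimal pair in the lattice of all pp formulas in one variable: `ψ < φ` and no pp formula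
lies strictly between -/
def IsMinimalPair (φ ψ : PPFormula R) : Prop :=
  ψ.Le φ ∧ ¬ φ.Le ψ ∧ ∀ θ : PPFormula R, ψ.Le θ → θ.Le φ → θ.Le ψ ∨ φ.Le θ

theorem le_of_supp (k : Type u) [Field k] [Algebra k R] (M : Type u) [AddCommGroup M] [Module R M]
    (hM : supp R M = Set.univ) (θ θ' : PPFormula R) (h : θ.sol M ⊆ θ'.sol M) : θ.Le θ' := by
  by_contra hcon
  obtain ⟨N, hN⟩ := exists_point k θ θ' hcon
  have h1 : zgPoint N ∈ supp R M := by rw [hM]; trivial
  obtain ⟨N', h2, h3⟩ := h1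
  obtain ⟨e⟩ := Cb.zg_exact_aux h2
  have h4 := h3 θ (Cb.conjF θ θ') (fun Q _ _ v hv => ((Cb.mem_conjF _ _ _).1 hv).1)
    (Set.Subset.antisymm (fun v hv => (Cb.mem_conjF _ _ _).2 ⟨hv, h hv⟩)
      (fun v hv => ((Cb.mem_conjF _ _ _).1 hv).1))
  refine hN (Cb.sol_sub_aux e θ θ' ?_)
  intro v hv
  rw [h4] at hv
  exact ((Cb.mem_conjF _ _ _).1 hv).2

theorem IsMinimalPair.isMinimalFor (k : Type u) [Field k] [Algebra k R] {φ ψ : PPFormula R}
    (h : IsMinimalPair φ ψ) (M : Type u) [AddCommGroup M] [Module R M]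
    (hM : supp R M = Set.univ) : IsMinimalFor M φ ψ := by
  obtain ⟨h1, h2, h3⟩ := h
  refine ⟨h1, fun heq => h2 (le_of_supp k M hM _ _ heq.le), ?_⟩
  intro θ h4 h5
  rcases h3 θ (le_of_supp k M hM _ _ h4) (le_of_supp k M hM _ _ h5) with h6 | h6
  · exact Or.inl (Set.Subset.antisymm (h6 M) h4)
  · exact Or.inr (Set.Subset.antisymm h5 (h6 M))

theorem exists_full (R : Type u) [Ring R] :
    ∃ (M : Type u) (_ : AddCommGroup M) (_ : Module R M), supp R M = Set.univ := by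
  classical
  have h := fun θ : PPFormula R => Cb.exists_free_realization θ
  choose C i1 i2 _ c hc using h
  refine ⟨∀ θ, C θ, inferInstance, inferInstance, Set.eq_univ_of_forall ?_⟩
  intro x
  obtain ⟨N, rfl⟩ : ∃ N : IndecPureInjective R, zgPoint N = x := Quotient.exists_rep x
  refine ⟨N, rfl, ?_⟩
  intro φ ψ hle heq
  refine Set.Subset.antisymm ?_ (hle _)
  have h1 : c φ ∈ φ.sol (C φ) := (hc φ (C φ) (c φ)).2 ⟨LinearMap.id, rfl⟩
  have h2 : (Pi.single φ (c φ) : ∀ θ, C θ) ∈ φ.sol (∀ θ, C θ) :=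
    Cb.sol_map_aux (LinearMap.single R C φ) φ (c φ) h1
  rw [heq] at h2
  have h3 := Cb.sol_map_aux (LinearMap.proj φ : (∀ θ, C θ) →ₗ[R] C φ) ψ _ h2
  have h4 : (LinearMap.proj φ : (∀ θ, C θ) →ₗ[R] C φ) (Pi.single φ (c φ)) = c φ := by
    simp
  rw [h4] at h3
  intro v hv
  obtain ⟨f, hf⟩ := (hc φ N.carrier v).1 hv
  rw [← hf]
  exact Cb.sol_map_aux f ψ _ h3

end

end ZIso
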