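import Pool.Agent.Helper462.Iso.Defs

namespace ZIso

universe u

open Zg


section
variable {R : Type u} [Ring R]

theorem exists_pp_of {L I : Type} [Fintype L] [Fintype I] (a : L → I → R) (b : L → R) :
    ∃ θ : PPFormula R, ∀ (N : Type u) [AddCommGroup N] [Module R N] (v : N),
      v ∈ θ.sol N ↔ ∃ z : I → N, ∀ j, ∑ i, a j i • z i = b j • v := by
  classical
  obtain ⟨eL⟩ := Fintype.truncEquivFin L |>.nonempty
  obtain ⟨eI⟩ := Fintype.truncEquivFin I |>.nonempty
  refine ⟨⟨Fintype.card I, Fintype.card L, fun j i => a (eL.symm j) (eI.symm i),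
    fun j => b (eL.symm j)⟩, ?_⟩
  intro N _ _ v
  constructor
  · rintro ⟨z, hz⟩
    refine ⟨fun i => z (eI i), fun j => ?_⟩
    have h := hz (eL j)
    simp only [Equiv.symm_apply_apply] at h
    rw [← h, ← Equiv.sum_comp eI (fun i => a j (eI.symm i) • z i)]
    simp only [Equiv.symm_apply_apply]
  · rintro ⟨z, hz⟩
    refine ⟨fun i => z (eI.symm i), fun j => ?_⟩
    have h := hz (eL.symm j)
    change ∑ i, a (eL.symm j) (eI.symm i) • z (eI.symm i) = b (eL.symm j) • v
    rw [← h]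
    exact Equiv.sum_comp eI.symm (fun i => a (eL.symm j) i • z i)

theorem exists_rel_of {L I : Type} [Fintype L] [Fintype I] (a : L → I → R) (b c : L → R) :
    ∃ θ : Rel R, ∀ (N : Type u) [AddCommGroup N] [Module R N] (x y : N),
      θ.At x y ↔ ∃ z : I → N, ∀ j, ∑ i, a j i • z i = b j • x + c j • y := by
  classical
  obtain ⟨eL⟩ := Fintype.truncEquivFin L |>.nonempty
  obtain ⟨eI⟩ := Fintype.truncEquivFin I |>.nonempty
  refine ⟨⟨Fintype.card I, Fintype.card L, fun j i => a (eL.symm j) (eI.symm i),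
    fun j => b (eL.symm j), fun j => c (eL.symm j)⟩, ?_⟩
  intro N _ _ x y
  constructor
  · rintro ⟨z, hz⟩
    refine ⟨fun i => z (eI i), fun j => ?_⟩
    have h := hz (eL j)
    simp only [Equiv.symm_apply_apply] at h
    rw [← h, ← Equiv.sum_comp eI (fun i => a j (eI.symm i) • z i)]
    simp only [Equiv.symm_apply_apply]
  · rintro ⟨z, hz⟩
    refine ⟨fun i => z (eI.symm i), fun j => ?_⟩
    have h := hz (eL.symm j)
    change ∑ i, a (eL.symm j) (eI.symm i) • z (eI.symm i) =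
      b (eL.symm j) • x + c (eL.symm j) • y
    rw [← h]
    exact Equiv.sum_comp eI.symm (fun i => a (eL.symm j) i • z i)

/-- the sum of two pp formulas -/
theorem exists_sum (θ θ' : PPFormula R) : ∃ κ : PPFormula R,
    ∀ (N : Type u) [AddCommGroup N] [Module R N] (v : N),
      v ∈ κ.sol N ↔ ∃ w ∈ θ.sol N, v - w ∈ θ'.sol N := by
  obtain ⟨κ, hκ⟩ := exists_pp_of (R := R) (L := Fin θ.l ⊕ Fin θ'.l)
    (I := Unit ⊕ (Fin θ.m ⊕ Fin θ'.m))
    (Sum.elim (fun j => Sum.elim (fun _ => -θ.a j) (Sum.elim (θ.B j) (fun _ => 0)))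
      (fun j => Sum.elim (fun _ => θ'.a j) (Sum.elim (fun _ => 0) (θ'.B j))))
    (Sum.elim (fun _ => 0) θ'.a)
  refine ⟨κ, fun N _ _ v => ?_⟩
  rw [hκ]
  constructor
  · rintro ⟨z, hz⟩
    refine ⟨z (Sum.inl ()), ⟨fun i => z (Sum.inr (Sum.inl i)), fun j => ?_⟩,
      ⟨fun i => z (Sum.inr (Sum.inr i)), fun j => ?_⟩⟩
    · have h := hz (Sum.inl j)
      simp only [Fintype.sum_sum_type, Sum.elim_inl, Sum.elim_inr, Finset.univ_unique,
        Finset.sum_singleton, zero_smul, Finset.sum_const_zero, add_zero, neg_smul] at h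
      exact (neg_add_eq_zero.1 h).symm
    · have h := hz (Sum.inr j)
      simp only [Fintype.sum_sum_type, Sum.elim_inl, Sum.elim_inr, Finset.univ_unique,
        Finset.sum_singleton, zero_smul, Finset.sum_const_zero, zero_add] at h
      change ∑ i, θ'.B j i • z (Sum.inr (Sum.inr i)) = θ'.a j • (v - z (Sum.inl ()))
      rw [smul_sub, ← h]
      exact (add_sub_cancel_left _ _).symm
  · rintro ⟨w, ⟨z1, h1⟩, ⟨z2, h2⟩⟩
    refine ⟨Sum.elim (fun _ => w) (Sum.elim z1 z2), ?_⟩
    rintro (j | j)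
    · have h := h1 j
      simp only [Fintype.sum_sum_type, Sum.elim_inl, Sum.elim_inr, Finset.univ_unique,
        Finset.sum_singleton, zero_smul, Finset.sum_const_zero, add_zero, neg_smul]
      rw [h, neg_add_cancel]
    · have h : ∑ i, θ'.B j i • z2 i = θ'.a j • (v - w) := h2 j
      simp only [Fintype.sum_sum_type, Sum.elim_inl, Sum.elim_inr, Finset.univ_unique,
        Finset.sum_singleton, zero_smul, Finset.sum_const_zero, zero_add]
      rw [h, smul_sub, add_sub_cancel]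

/-- projection to the first variable -/
theorem exists_fst (ρ : Rel R) (θ : PPFormula R) : ∃ κ : PPFormula R,
    ∀ (N : Type u) [AddCommGroup N] [Module R N] (v : N),
      v ∈ κ.sol N ↔ ∃ y ∈ θ.sol N, ρ.At v y := by
  obtain ⟨κ, hκ⟩ := exists_pp_of (R := R) (L := Fin θ.l ⊕ Fin ρ.l)
    (I := Unit ⊕ (Fin θ.m ⊕ Fin ρ.m))
    (Sum.elim (fun j => Sum.elim (fun _ => -θ.a j) (Sum.elim (θ.B j) (fun _ => 0)))
      (fun j => Sum.elim (fun _ => -ρ.b j) (Sum.elim (fun _ => 0) (ρ.B j))))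
    (Sum.elim (fun _ => 0) ρ.a)
  refine ⟨κ, fun N _ _ v => ?_⟩
  rw [hκ]
  constructor
  · rintro ⟨z, hz⟩
    refine ⟨z (Sum.inl ()), ⟨fun i => z (Sum.inr (Sum.inl i)), fun j => ?_⟩,
      ⟨fun i => z (Sum.inr (Sum.inr i)), fun j => ?_⟩⟩
    · have h := hz (Sum.inl j)
      simp only [Fintype.sum_sum_type, Sum.elim_inl, Sum.elim_inr, Finset.univ_unique,
        Finset.sum_singleton, zero_smul, Finset.sum_const_zero, add_zero, neg_smul] at h
      exact (neg_add_eq_zero.1 h).symm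
    · have h := hz (Sum.inr j)
      simp only [Fintype.sum_sum_type, Sum.elim_inl, Sum.elim_inr, Finset.univ_unique,
        Finset.sum_singleton, zero_smul, Finset.sum_const_zero, zero_add, neg_smul] at h
      change ∑ i, ρ.B j i • z (Sum.inr (Sum.inr i)) = ρ.a j • v + ρ.b j • z (Sum.inl ())
      rw [← h]
      exact (neg_add_cancel_comm _ _).symm
  · rintro ⟨w, ⟨z1, h1⟩, ⟨z2, h2⟩⟩
    refine ⟨Sum.elim (fun _ => w) (Sum.elim z1 z2), ?_⟩
    rintro (j | j)
    · have h := h1 j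
      simp only [Fintype.sum_sum_type, Sum.elim_inl, Sum.elim_inr, Finset.univ_unique,
        Finset.sum_singleton, zero_smul, Finset.sum_const_zero, add_zero, neg_smul]
      rw [h, neg_add_cancel]
    · have h : ∑ i, ρ.B j i • z2 i = ρ.a j • v + ρ.b j • w := h2 j
      simp only [Fintype.sum_sum_type, Sum.elim_inl, Sum.elim_inr, Finset.univ_unique,
        Finset.sum_singleton, zero_smul, Finset.sum_const_zero, zero_add, neg_smul]
      rw [h]
      abel

/-- conjunction of relations -/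
theorem exists_relconj (ρ ρ' : Rel R) : ∃ σ : Rel R,
    ∀ (N : Type u) [AddCommGroup N] [Module R N] (x y : N),
      σ.At x y ↔ ρ.At x y ∧ ρ'.At x y := by
  obtain ⟨κ, hκ⟩ := exists_rel_of (R := R) (L := Fin ρ.l ⊕ Fin ρ'.l)
    (I := Fin ρ.m ⊕ Fin ρ'.m)
    (Sum.elim (fun j => Sum.elim (ρ.B j) (fun _ => 0))
      (fun j => Sum.elim (fun _ => 0) (ρ'.B j)))
    (Sum.elim ρ.a ρ'.a) (Sum.elim ρ.b ρ'.b)
  refine ⟨κ, fun N _ _ x y => ?_⟩
  rw [hκ]
  constructor
  · rintro ⟨z, hz⟩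
    refine ⟨⟨fun i => z (Sum.inl i), fun j => ?_⟩, ⟨fun i => z (Sum.inr i), fun j => ?_⟩⟩
    · have h := hz (Sum.inl j)
      simp only [Fintype.sum_sum_type, Sum.elim_inl, Sum.elim_inr, zero_smul,
        Finset.sum_const_zero, add_zero] at h
      exact h
    · have h := hz (Sum.inr j)
      simp only [Fintype.sum_sum_type, Sum.elim_inl, Sum.elim_inr, zero_smul,
        Finset.sum_const_zero, zero_add] at h
      exact h
  · rintro ⟨⟨z1, h1⟩, ⟨z2, h2⟩⟩
    refine ⟨Sum.elim z1 z2, ?_⟩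
    rintro (j | j)
    · have h := h1 j
      simp only [Fintype.sum_sum_type, Sum.elim_inl, Sum.elim_inr, zero_smul,
        Finset.sum_const_zero, add_zero]
      exact h
    · have h := h2 j
      simp only [Fintype.sum_sum_type, Sum.elim_inl, Sum.elim_inr, zero_smul,
        Finset.sum_const_zero, zero_add]
      exact h

/-- restriction of the second variable -/
theorem exists_relsnd (ρ : Rel R) (χ : PPFormula R) : ∃ σ : Rel R,
    ∀ (N : Type u) [AddCommGroup N] [Module R N] (x y : N),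
      σ.At x y ↔ ρ.At x y ∧ y ∈ χ.sol N := by
  obtain ⟨σ, hσ⟩ := exists_relconj ρ ⟨χ.m, χ.l, χ.B, fun _ => 0, χ.a⟩
  refine ⟨σ, fun N _ _ x y => ?_⟩
  rw [hσ]
  have e : (⟨χ.m, χ.l, χ.B, fun _ => 0, χ.a⟩ : Rel R).At x y ↔ y ∈ χ.sol N := by
    constructor
    · rintro ⟨z, hz⟩
      refine ⟨z, fun j => ?_⟩
      have h := hz j
      simp only [zero_smul, zero_add] at h
      exact h
    · rintro ⟨z, hz⟩
      refine ⟨z, fun j => ?_⟩
      have h := hz j
      simp only [zero_smul, zero_add]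
      exact h
  rw [e]
end

end ZIso
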