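import Pool.Agent.Helper462.Iso.Defs

namespace ZIso

universe u

open Zg


section
variable {R : Type u} [Ring R]

theorem Rel.At.sub {ρ : Rel R} {N : Type u} [AddCommGroup N] [Module R N] {x y x' y' : N}
    (h : ρ.At x y) (h' : ρ.At x' y') : ρ.At (x - x') (y - y') := by
  obtain ⟨z, hz⟩ := h
  obtain ⟨z', hz'⟩ := h'
  refine ⟨fun i => z i - z' i, fun j => ?_⟩
  have e1 : ∑ i, ρ.B j i • (z i - z' i) = ∑ i, ρ.B j i • z i - ∑ i, ρ.B j i • z' i := by
    rw [← Finset.sum_sub_distrib]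
    exact Finset.sum_congr rfl fun i _ => smul_sub _ _ _
  have e2 := hz j
  have e3 := hz' j
  beta_reduce at e2 e3
  beta_reduce
  rw [e1, e2, e3, smul_sub, smul_sub]
  abel

theorem Rel.At.map {ρ : Rel R} {N N' : Type u} [AddCommGroup N] [Module R N] [AddCommGroup N']
    [Module R N'] (f : N →ₗ[R] N') {x y : N} (h : ρ.At x y) : ρ.At (f x) (f y) := by
  obtain ⟨z, hz⟩ := h
  refine ⟨fun i => f (z i), fun j => ?_⟩
  have e2 := congrArg f (hz j)
  rw [map_sum, map_add, map_smul, map_smul] at e2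
  simp only [map_smul] at e2
  exact e2

theorem exists_swap (ρ : Rel R) : ∃ σ : Rel R,
    ∀ (N : Type u) [AddCommGroup N] [Module R N] (x y : N), σ.At x y ↔ ρ.At y x := by
  refine ⟨⟨ρ.m, ρ.l, ρ.B, ρ.b, ρ.a⟩, fun N _ _ x y => ?_⟩
  have e : (fun j => ρ.b j • x + ρ.a j • y) = (fun j => ρ.a j • y + ρ.b j • x) := by
    funext j
    exact add_comm _ _
  show Solvable ρ.B (fun j => ρ.b j • x + ρ.a j • y) ↔ Solvable ρ.B (fun j => ρ.a j • y + ρ.b j • x)
  rw [e]

/-- a relation defines a formula by putting the first variable to zero -/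
theorem exists_zero_snd (ρ : Rel R) : ∃ κ : PPFormula R,
    ∀ (N : Type u) [AddCommGroup N] [Module R N] (v : N), v ∈ κ.sol N ↔ ρ.At (0 : N) v := by
  refine ⟨⟨ρ.m, ρ.l, ρ.B, ρ.b⟩, fun N _ _ v => ?_⟩
  have e : (fun j => ρ.a j • (0 : N) + ρ.b j • v) = (fun j => ρ.b j • v) := by
    funext j
    rw [smul_zero, zero_add]
  show Solvable ρ.B (fun j => ρ.b j • v) ↔ Solvable ρ.B (fun j => ρ.a j • (0 : N) + ρ.b j • v)
  rw [e]

/-- free realization of a relation -/
theorem exists_free_rel (ρ : Rel R) :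
    ∃ (C : Type u) (_ : AddCommGroup C) (_ : Module R C) (c d : C), ρ.At c d ∧
      ∀ (N : Type u) [AddCommGroup N] [Module R N] (x y : N), ρ.At x y →
        ∃ f : C →ₗ[R] N, f c = x ∧ f d = y := by
  classical
  let K : Submodule R ((Fin ρ.m → R) × R × R) :=
    Submodule.span R (Set.range fun j => ((ρ.B j, -ρ.a j, -ρ.b j) : (Fin ρ.m → R) × R × R))
  refine ⟨((Fin ρ.m → R) × R × R) ⧸ K, inferInstance, inferInstance, K.mkQ (0, 1, 0),
    K.mkQ (0, 0, 1), ?_, ?_⟩
  · refine ⟨fun i => K.mkQ (Pi.single i 1, 0, 0), fun j => ?_⟩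
    have e1 : ∑ i, ρ.B j i • K.mkQ (Pi.single i 1, 0, 0) = K.mkQ (ρ.B j, 0, 0) := by
      simp only [← map_smul]
      rw [← map_sum]
      congr 1
      ext t
      · rw [Prod.fst_sum, Finset.sum_apply]
        simp [Pi.single_apply]
      · rw [Prod.snd_sum, Prod.fst_sum]
        simp
      · rw [Prod.snd_sum, Prod.snd_sum]
        simp
    have e2 : ρ.a j • K.mkQ (0, 1, 0) + ρ.b j • K.mkQ (0, 0, 1) = K.mkQ (0, ρ.a j, ρ.b j) := by
      rw [← map_smul, ← map_smul, ← map_add]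
      congr 1
      ext t <;> simp
    beta_reduce
    rw [e1, e2, ← sub_eq_zero, ← map_sub]
    have e3 : ((ρ.B j, 0, 0) : (Fin ρ.m → R) × R × R) - (0, ρ.a j, ρ.b j) =
        (ρ.B j, -ρ.a j, -ρ.b j) := by
      ext t <;> simp
    rw [e3]
    exact (Submodule.Quotient.mk_eq_zero K).2 (Submodule.subset_span ⟨j, rfl⟩)
  · intro N _ _ x y h
    obtain ⟨z, hz⟩ := h
    let g : ((Fin ρ.m → R) × R × R) →ₗ[R] N :=
      (Fintype.linearCombination R z).coprod
        ((LinearMap.toSpanSingleton R N x).coprod (LinearMap.toSpanSingleton R N y))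
    have hg : ∀ v r s, g (v, r, s) = ∑ i, v i • z i + (r • x + s • y) := by
      intro v r s
      simp [g, LinearMap.coprod_apply, Fintype.linearCombination_apply,
        LinearMap.toSpanSingleton_apply]
    have hK : K ≤ LinearMap.ker g := by
      rw [Submodule.span_le]
      rintro _ ⟨j, rfl⟩
      show g (ρ.B j, -ρ.a j, -ρ.b j) = 0
      have e2 := hz j
      beta_reduce at e2
      rw [hg, e2, neg_smul, neg_smul]
      abel
    refine ⟨K.liftQ g hK, ?_, ?_⟩
    · show K.liftQ g hK (K.mkQ (0, 1, 0)) = x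
      rw [Submodule.mkQ_apply, Submodule.liftQ_apply, hg]
      simp
    · show K.liftQ g hK (K.mkQ (0, 0, 1)) = y
      rw [Submodule.mkQ_apply, Submodule.liftQ_apply, hg]
      simp

/-- if `ρ(0, x)` implies `γ(x)` then `ρ(y, v)` implies that `γ` holds for `v` up to multiples
of `y` -/
theorem exists_param (γ : PPFormula R) (ρ : Rel R)
    (h : ∀ (Q : Type u) [AddCommGroup Q] [Module R Q] (x : Q), ρ.At (0 : Q) x → x ∈ γ.sol Q)
    {N : Type u} [AddCommGroup N] [Module R N] (y v : N) (hyv : ρ.At y v) :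
    ∃ t : Fin γ.l → R, Solvable γ.B (fun j => γ.a j • v - t j • y) := by
  obtain ⟨C, _, _, c, d, hcd, hfree⟩ := exists_free_rel ρ
  obtain ⟨f, hfc, hfd⟩ := hfree N y v hyv
  have h1 : ρ.At ((Submodule.span R {c}).mkQ c) ((Submodule.span R {c}).mkQ d) := hcd.map _
  have h2 : (Submodule.span R {c}).mkQ c = 0 :=
    (Submodule.Quotient.mk_eq_zero _).2 (Submodule.mem_span_singleton_self c)
  rw [h2] at h1
  obtain ⟨w, hw⟩ := h _ _ h1
  choose w' hw' using fun i => Submodule.mkQ_surjective (Submodule.span R {c}) (w i)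
  have h3 : ∀ j, ∃ t : R, t • c = ∑ i, γ.B j i • w' i - γ.a j • d := by
    intro j
    rw [← Submodule.mem_span_singleton, ← Submodule.Quotient.mk_eq_zero,
      ← Submodule.mkQ_apply, map_sub, map_sum, map_smul]
    simp only [map_smul, hw']
    have e2 := hw j
    beta_reduce at e2
    rw [e2, sub_self]
  choose t ht using h3
  refine ⟨fun j => -t j, fun i => f (w' i), fun j => ?_⟩
  have h4 := congrArg f (ht j)
  rw [map_smul, map_sub, map_sum, map_smul, hfc, hfd] at h4
  simp only [map_smul] at h4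
  beta_reduce
  rw [neg_smul, sub_neg_eq_add, h4]
  abel
end

end ZIso
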