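import Pool.Agent.Helper462.Iso.Defs

namespace ZIso

universe u

open Zg


section
variable {R : Type u} [Ring R]

/-- pp relation attached to a finite system of linear equations with finitely supported
coefficients -/
theorem exists_rel {L : Type*} [Finite L] {I : Type*} (a : L → (I →₀ R)) (b b' : L → R) :
    ∃ ρ : Rel R, ∀ (Q : Type u) [AddCommGroup Q] [Module R Q] (v v' : Q),
      ρ.At v v' ↔ ∃ z : I → Q, ∀ j, (a j).sum (fun i r => r • z i) = b j • v + b' j • v' := by
  classical
  have := Fintype.ofFinite L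
  let T : Finset I := Finset.univ.biUnion fun j => (a j).support
  let eL := Fintype.equivFin L
  let eT := Fintype.equivFin T
  refine ⟨⟨Fintype.card T, Fintype.card L, fun j i => a (eL.symm j) (eT.symm i),
    fun j => b (eL.symm j), fun j => b' (eL.symm j)⟩, ?_⟩
  intro Q _ _ v v'
  have key : ∀ (z : I → Q) (j : L),
      (a j).sum (fun i r => r • z i) = ∑ i : Fin (Fintype.card T), a j (eT.symm i) • z (eT.symm i) := by
    intro z j
    rw [Finsupp.sum_of_support_subset (s := T)]
    · rw [← Finset.sum_coe_sort T (fun i => a j i • z i)]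
      exact (Equiv.sum_comp eT.symm (fun i : T => a j i • z i)).symm
    · exact Finset.subset_biUnion_of_mem (fun j => (a j).support) (Finset.mem_univ j)
    · intro i _
      simp
  constructor
  · rintro ⟨z, hz⟩
    refine ⟨fun i => if h : i ∈ T then z (eT ⟨i, h⟩) else 0, fun j => ?_⟩
    rw [key]
    have := hz (eL j)
    simp only [Equiv.symm_apply_apply] at this
    rw [← this]
    refine Finset.sum_congr rfl fun i _ => ?_
    have h2 : (eT.symm i : I) ∈ T := (eT.symm i).2
    simp only [h2, dite_true]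
    simp
  · rintro ⟨z, hz⟩
    refine ⟨fun i => z (eT.symm i), fun j => ?_⟩
    have := hz (eL.symm j)
    rw [key] at this
    exact this

theorem exists_hom_two
    (hcomp : ∀ (P : Type u) [AddCommGroup P] [Module R P], IsPureInjective R P →
      ∀ (I J : Type u) (a : J → (I →₀ R)) (c : J → P),
      (∀ s : Finset J, ∃ z : I → P, ∀ j ∈ s, (a j).sum (fun i r => r • z i) = c j) →
      ∃ z : I → P, ∀ j, (a j).sum (fun i r => r • z i) = c j)
    {N : Type u} [AddCommGroup N] [Module R N]
    (hN : IsPureInjective R N) (θ β : PPFormula R) (a b : N)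
    (h : ∀ ρ : Rel R, ρ.At a b → ∃ x ∈ θ.sol N, ∃ y ∈ β.sol N, ρ.At x (b - y)) :
    ∃ f : N →ₗ[R] N, f a ∈ θ.sol N ∧ ∃ y ∈ β.sol N, f b = b - y := by
  classical
  -- the linear relations of `N`
  let a' : (N × N) ⊕ (R × N) → (N →₀ R) := Sum.elim
    (fun p => Finsupp.single (p.1 + p.2) 1 - Finsupp.single p.1 1 - Finsupp.single p.2 1)
    (fun p => Finsupp.single (p.1 • p.2) 1 - Finsupp.single p.2 p.1)
  let emb : N → (N ⊕ Option (Fin β.m)) ⊕ Fin θ.m := fun n => Sum.inl (Sum.inl n)
  let eqs : (((N × N) ⊕ (R × N)) ⊕ Option (Fin β.l)) ⊕ Fin θ.l →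
      ((N ⊕ Option (Fin β.m)) ⊕ Fin θ.m →₀ R) := Sum.elim (Sum.elim
    (fun j => (a' j).mapDomain emb)
    (fun o => o.elim (Finsupp.single (Sum.inl (Sum.inl b)) 1 +
        Finsupp.single (Sum.inl (Sum.inr none)) 1)
      (fun j => (∑ i, Finsupp.single (Sum.inl (Sum.inr (some i))) (β.B j i))
        - Finsupp.single (Sum.inl (Sum.inr none)) (β.a j))))
    (fun j => (∑ i, Finsupp.single (Sum.inr i) (θ.B j i))
        - Finsupp.single (Sum.inl (Sum.inl a)) (θ.a j))
  let c : (((N × N) ⊕ (R × N)) ⊕ Option (Fin β.l)) ⊕ Fin θ.l → N :=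
    Sum.elim (Sum.elim (fun _ => 0) (fun o => o.elim b (fun _ => 0))) (fun _ => 0)
  have hl : ∀ (j : (N × N) ⊕ (R × N)) (z : (N ⊕ Option (Fin β.m)) ⊕ Fin θ.m → N),
      (eqs (Sum.inl (Sum.inl j))).sum (fun i r => r • z i)
        = (a' j).sum (fun i r => r • z (Sum.inl (Sum.inl i))) := by
    intro j z
    change ((a' j).mapDomain emb).sum (fun i r => r • z i) = _
    rw [Finsupp.sum_mapDomain_index (by simp) (by intros; exact add_smul _ _ _)]
  have hr0 : ∀ (z : (N ⊕ Option (Fin β.m)) ⊕ Fin θ.m → N),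
      (eqs (Sum.inl (Sum.inr none))).sum (fun i r => r • z i)
        = z (Sum.inl (Sum.inl b)) + z (Sum.inl (Sum.inr none)) := by
    intro z
    change Finsupp.linearCombination R z
      (Finsupp.single (Sum.inl (Sum.inl b)) 1 + Finsupp.single (Sum.inl (Sum.inr none)) 1) = _
    simp [map_add, Finsupp.linearCombination_single]
  have hr1 : ∀ (j : Fin β.l) (z : (N ⊕ Option (Fin β.m)) ⊕ Fin θ.m → N),
      (eqs (Sum.inl (Sum.inr (some j)))).sum (fun i r => r • z i)
        = (∑ i, β.B j i • z (Sum.inl (Sum.inr (some i))))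
          - β.a j • z (Sum.inl (Sum.inr none)) := by
    intro j z
    change Finsupp.linearCombination R z
      ((∑ i, Finsupp.single (Sum.inl (Sum.inr (some i))) (β.B j i))
        - Finsupp.single (Sum.inl (Sum.inr none)) (β.a j)) = _
    simp [map_sub, map_sum, Finsupp.linearCombination_single]
  have hr2 : ∀ (j : Fin θ.l) (z : (N ⊕ Option (Fin β.m)) ⊕ Fin θ.m → N),
      (eqs (Sum.inr j)).sum (fun i r => r • z i)
        = (∑ i, θ.B j i • z (Sum.inr i)) - θ.a j • z (Sum.inl (Sum.inl a)) := by
    intro j z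
    change Finsupp.linearCombination R z
      ((∑ i, Finsupp.single (Sum.inr i) (θ.B j i))
        - Finsupp.single (Sum.inl (Sum.inl a)) (θ.a j)) = _
    simp [map_sub, map_sum, Finsupp.linearCombination_single]
  have h1 : ∀ {M : Type u} [AddCommGroup M] [Module R M] (p q : N) (z : N → M),
      (a' (Sum.inl (p, q))).sum (fun i r => r • z i) = z (p + q) - z p - z q := by
    intro M _ _ p q z
    change Finsupp.linearCombination R z
      (Finsupp.single (p + q) 1 - Finsupp.single p 1 - Finsupp.single q 1) = _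
    simp [map_sub, Finsupp.linearCombination_single]
  have h2 : ∀ {M : Type u} [AddCommGroup M] [Module R M] (r : R) (q : N) (z : N → M),
      (a' (Sum.inr (r, q))).sum (fun i r => r • z i) = z (r • q) - r • z q := by
    intro M _ _ r q z
    change Finsupp.linearCombination R z
      (Finsupp.single (r • q) 1 - Finsupp.single q r) = _
    simp [map_sub, Finsupp.linearCombination_single]
  obtain ⟨z, hz⟩ := hcomp N hN _ _ eqs c (by
    intro s
    let s' := s.toLeft.toLeft
    obtain ⟨ρ, hρ⟩ := exists_rel (R := R) (L := Option (Option s')) (I := N)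
      (fun o => o.elim (Finsupp.single a 1) (fun o => o.elim (Finsupp.single b 1) (fun j => a' j)))
      (fun o => o.elim 1 (fun _ => 0))
      (fun o => o.elim 0 (fun o => o.elim 1 (fun _ => 0)))
    have hx : ρ.At a b := by
      rw [hρ]
      refine ⟨id, ?_⟩
      rintro (_ | _ | ⟨j, hj⟩)
      · simp
      · simp
      · rcases j with ⟨p, q⟩ | ⟨r, q⟩
        · simpa using h1 (M := N) p q id
        · simpa using h2 (M := N) r q id
    obtain ⟨x, ⟨u, hu⟩, y, ⟨w, hw⟩, hy⟩ := h ρ hx
    rw [hρ] at hy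
    obtain ⟨z, hz⟩ := hy
    have hza : z a = x := by
      have := hz none
      simpa using this
    have hzb : z b = b - y := by
      have := hz (some none)
      simpa using this
    refine ⟨Sum.elim (Sum.elim z (fun o => o.elim y w)) u, ?_⟩
    rintro ((j | (_ | j)) | j) hj
    · rw [hl]
      have := hz (some (some ⟨j, Finset.mem_toLeft.2 (Finset.mem_toLeft.2 hj)⟩))
      simpa [c] using this
    · rw [hr0]
      simp [hzb, c]
    · rw [hr1]
      have := hw j
      simp [this, c]
    · rw [hr2]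
      have := hu j
      simp [this, c, hza])
  have hz1 : ∀ p q, z (Sum.inl (Sum.inl (p + q)))
      = z (Sum.inl (Sum.inl p)) + z (Sum.inl (Sum.inl q)) := by
    intro p q
    have := hz (Sum.inl (Sum.inl (Sum.inl (p, q))))
    rw [hl, h1 p q (fun n => z (Sum.inl (Sum.inl n)))] at this
    have h0 : c (Sum.inl (Sum.inl (Sum.inl (p, q)))) = 0 := rfl
    rw [h0, sub_sub, sub_eq_zero] at this
    exact this
  have hz2 : ∀ (r : R) q, z (Sum.inl (Sum.inl (r • q))) = r • z (Sum.inl (Sum.inl q)) := by
    intro r q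
    have := hz (Sum.inl (Sum.inl (Sum.inr (r, q))))
    rw [hl, h2 r q (fun n => z (Sum.inl (Sum.inl n)))] at this
    have h0 : c (Sum.inl (Sum.inl (Sum.inr (r, q)))) = 0 := rfl
    rw [h0, sub_eq_zero] at this
    exact this
  refine ⟨⟨⟨fun n => z (Sum.inl (Sum.inl n)), hz1⟩, hz2⟩, ⟨fun i => z (Sum.inr i), fun j => ?_⟩,
    z (Sum.inl (Sum.inr none)), ⟨fun i => z (Sum.inl (Sum.inr (some i))), fun j => ?_⟩, ?_⟩
  · have := hz (Sum.inr j)
    rw [hr2] at this
    have h0 : c (Sum.inr j) = 0 := rfl
    rw [h0, sub_eq_zero] at this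
    exact this
  · have := hz (Sum.inl (Sum.inr (some j)))
    rw [hr1] at this
    have h0 : c (Sum.inl (Sum.inr (some j))) = 0 := rfl
    rw [h0, sub_eq_zero] at this
    exact this
  · have := hz (Sum.inl (Sum.inr none))
    rw [hr0] at this
    have h0 : c (Sum.inl (Sum.inr none)) = b := rfl
    rw [h0] at this
    exact eq_sub_of_add_eq this
end

end ZIso
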