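import Pool.Agent.Helper462.Iso.Defs

namespace ZIso

universe u

open Zg


section
variable {R : Type u} [Ring R]

theorem link_max
    (hhom : ∀ (N : Type u) [AddCommGroup N] [Module R N], IsPureInjective R N →
      ∀ (θ β : PPFormula R) (a b : N),
      (∀ ρ : Rel R, ρ.At a b → ∃ x ∈ θ.sol N, ∃ y ∈ β.sol N, ρ.At x (b - y)) →
      ∃ f : N →ₗ[R] N, f a ∈ θ.sol N ∧ ∃ y ∈ β.sol N, f b = b - y)
    (hstar : ∀ (N Q : Type u) [AddCommGroup N] [Module R N] [AddCommGroup Q] [Module R Q],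
      IsPureInjective R N → IsIndecomposable R N → ∀ x : N, x ≠ 0 → ∀ h : N →ₗ[R] Q,
      (∀ θ : PPFormula R, h x ∈ θ.sol Q → x ∈ θ.sol N) → IsPureEmbedding h)
    {N : Type u} [AddCommGroup N] [Module R N]
    (hN : IsPureInjective R N) (hNi : IsIndecomposable R N)
    (θ β : PPFormula R) (a b : N) (ha : a ∉ θ.sol N) (hb : b ∉ β.sol N)
    (hmax : ∀ x₁ : N, b - x₁ ∈ β.sol N →
      (∀ τ : PPFormula R, b ∈ τ.sol N → x₁ ∈ τ.sol N) →
      ∀ τ : PPFormula R, x₁ ∈ τ.sol N → b ∈ τ.sol N) :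
    ∃ ρ : Rel R, ρ.At a b ∧ ∀ x ∈ θ.sol N, ∀ y ∈ β.sol N, ¬ ρ.At x (b - y) := by
  by_contra hcon
  push Not at hcon
  obtain ⟨f, hfa, y, hy, hfb⟩ := hhom N hN θ β a b hcon
  have hpres : ∀ (τ : PPFormula R) (v : N), v ∈ τ.sol N → f v ∈ τ.sol N := by
    rintro τ v ⟨z, hz⟩
    refine ⟨fun i => f (z i), fun j => ?_⟩
    have h := congrArg f (hz j)
    rw [map_sum, map_smul] at h
    simpa only [map_smul] using h
  have hbf : b - f b ∈ β.sol N := by
    rw [hfb, sub_sub_cancel]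
    exact hy
  have hb0 : b ≠ 0 := by
    rintro rfl
    exact hb ⟨fun _ => 0, fun j => by simp⟩
  have hpure := hstar N N hN hNi b hb0 f (fun τ h => hmax (f b) hbf (fun τ h => hpres τ b h) τ h)
  apply ha
  refine hpure.2 _ _ θ.B (fun j => θ.a j • a) ?_
  have e : (fun j => f (θ.a j • a)) = fun j => θ.a j • f a := by
    funext j
    rw [map_smul]
  rw [e]
  exact hfa

theorem propL_of
    (hhom : ∀ (N : Type u) [AddCommGroup N] [Module R N], IsPureInjective R N →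
      ∀ (θ β : PPFormula R) (a b : N),
      (∀ ρ : Rel R, ρ.At a b → ∃ x ∈ θ.sol N, ∃ y ∈ β.sol N, ρ.At x (b - y)) →
      ∃ f : N →ₗ[R] N, f a ∈ θ.sol N ∧ ∃ y ∈ β.sol N, f b = b - y)
    (hstar : ∀ (N Q : Type u) [AddCommGroup N] [Module R N] [AddCommGroup Q] [Module R Q],
      IsPureInjective R N → IsIndecomposable R N → ∀ x : N, x ≠ 0 → ∀ h : N →ₗ[R] Q,
      (∀ θ : PPFormula R, h x ∈ θ.sol Q → x ∈ θ.sol N) → IsPureEmbedding h)
    {N : Type u} [AddCommGroup N] [Module R N]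
    (hN : IsPureInjective R N) (hNi : IsIndecomposable R N) : PropL R N := by
  intro θ a b ha hb0
  have hβ : ∃ β : PPFormula R, ∀ v : N, v ∈ β.sol N ↔ v = 0 := by
    refine ⟨⟨0, 1, fun _ i => i.elim0, fun _ => 1⟩, fun v => ⟨?_, ?_⟩⟩
    · rintro ⟨z, hz⟩
      have h := hz 0
      simpa using h.symm
    · rintro rfl
      exact ⟨fun _ => 0, fun j => by simp⟩
  obtain ⟨β, hβ⟩ := hβ
  obtain ⟨ρ, h1, h2⟩ := link_max hhom hstar hN hNi θ β a b ha (fun h => hb0 ((hβ b).1 h)) (by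
    intro x₁ hx₁ _ τ hτ
    have h := (hβ _).1 hx₁
    rw [sub_eq_zero] at h
    rw [h]
    exact hτ)
  refine ⟨ρ, h1, fun x hx hρ => h2 x hx 0 ((hβ 0).2 rfl) ?_⟩
  rw [sub_zero]
  exact hρ
end

end ZIso
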