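import Pool.Agent.Helper462.Cb.ExistClosed
import Pool.Agent.Helper462.Cb.ZK
import Pool.Agent.Helper462.Cb.ZU
import Pool.Agent.Helper462.Cb.ZC
import Pool.Agent.Helper462.Cb.PF
import Pool.Agent.Helper462.Iso.J1
import Pool.Agent.Helper462.Iso.J1b
import Pool.Agent.Helper462.Iso.J2
import Pool.Agent.Helper462.Iso.J8

/-!
# The basic sets form a basis of the Ziegler topology
-/

namespace ZIso

universe u

open Zg

section
variable {R : Type u} [Ring R]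

theorem exists_diff {φ ψ : PPFormula R} (hle : ψ.Le φ) {N : Type u} [AddCommGroup N] [Module R N]
    (h : φ.sol N ≠ ψ.sol N) : ∃ v ∈ φ.sol N, v ∉ ψ.sol N := by
  by_contra hcon
  push Not at hcon
  exact h (Set.Subset.antisymm hcon (hle N))

/-- the intersection of two basic sets around a point contains a basic set around the point -/
theorem basic_inter (k : Type u) [Field k] [Algebra k R] (N : IndecPureInjective R)
    (φ₁ ψ₁ φ₂ ψ₂ : PPFormula R)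
    (h1 : ψ₁.Le φ₁) (h2 : ψ₂.Le φ₂) (hN1 : zgPoint N ∈ basicSet φ₁ ψ₁)
    (hN2 : zgPoint N ∈ basicSet φ₂ ψ₂) :
    ∃ φ ψ : PPFormula R, ψ.Le φ ∧ zgPoint N ∈ basicSet φ ψ ∧
      basicSet φ ψ ⊆ basicSet φ₁ ψ₁ ∩ basicSet φ₂ ψ₂ := by
  have hcomp := Cb.compact_of_pureInjective (R := R) k
  rw [Cb.mem_basicSet_aux] at hN1 hN2
  obtain ⟨a, ha1, ha2⟩ := exists_diff h1 hN1
  obtain ⟨b', hb1', hb2'⟩ := exists_diff h2 hN2
  obtain ⟨b, hbb, hbmax⟩ := Cb.exists_maximal_type hcomp N.pureInjective ψ₂ b'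
  have hb1 : b ∈ φ₂.sol N.carrier := by
    have := Cb.sol_sub φ₂ hb1' (h2 _ hbb)
    simpa using this
  have hb2 : b ∉ ψ₂.sol N.carrier := by
    intro h
    have := Cb.sol_add ψ₂ hbb h
    exact hb2' (by simpa using this)
  obtain ⟨ρ, hρ, hρ'⟩ := link_max (fun N _ _ hN θ β a b h => exists_hom_two hcomp hN θ β a b h)
    (fun N Q _ _ _ _ hN hNi x hx h hh => Cb.star hN hNi x hx h hh)
    N.pureInjective N.indecomposable ψ₁ ψ₂ a b ha2 hb2 hbmax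
  obtain ⟨σ, hσ⟩ := exists_swap ρ
  obtain ⟨κ, hκ⟩ := exists_fst σ φ₁
  obtain ⟨τ, hτ⟩ := exists_fst σ ψ₁
  obtain ⟨π, hπ⟩ := exists_sum ψ₂ τ
  refine ⟨Cb.conjF κ φ₂, Cb.conjF (Cb.conjF κ φ₂) π, ?_, ?_, ?_⟩
  · intro M _ _ v hv
    exact ((Cb.mem_conjF _ _ _).1 hv).1
  · rw [Cb.mem_basicSet_aux]
    intro heq
    have hb : b ∈ (Cb.conjF κ φ₂).sol N.carrier :=
      (Cb.mem_conjF _ _ _).2 ⟨(hκ _ b).2 ⟨a, ha1, (hσ _ b a).2 hρ⟩, hb1⟩
    rw [heq, Cb.mem_conjF, hπ] at hb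
    obtain ⟨w, hw, hw2⟩ := hb.2
    rw [hτ] at hw2
    obtain ⟨x, hx, hx2⟩ := hw2
    exact hρ' x hx w hw ((hσ _ _ _).1 hx2)
  · rintro _ ⟨N', rfl, hN'⟩
    obtain ⟨y, hy1, hy2⟩ := exists_diff (φ := Cb.conjF κ φ₂) (ψ := Cb.conjF (Cb.conjF κ φ₂) π)
      (fun M _ _ v hv => ((Cb.mem_conjF _ _ _).1 hv).1) hN'
    have hy3 : y ∉ π.sol N'.carrier := fun h => hy2 ((Cb.mem_conjF _ _ _).2 ⟨hy1, h⟩)
    rw [Cb.mem_conjF, hκ] at hy1
    obtain ⟨⟨x, hx, hxy⟩, hyφ⟩ := hy1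
    constructor
    · rw [Cb.mem_basicSet_aux]
      intro heq
      apply hy3
      rw [hπ]
      refine ⟨0, Cb.sol_zero ψ₂, ?_⟩
      rw [sub_zero, hτ]
      exact ⟨x, by rw [← heq]; exact hx, hxy⟩
    · rw [Cb.mem_basicSet_aux]
      intro heq
      apply hy3
      rw [hπ]
      refine ⟨y, by rw [← heq]; exact hyφ, ?_⟩
      rw [sub_self]
      exact Cb.sol_zero τ

/-- an isolated point is isolated by a single basic set -/
theorem exists_pair_of_isOpen (k : Type u) [Field k] [Algebra k R] (N : IndecPureInjective R)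
    (hN : IsOpen ({zgPoint N} : Set (ZieglerSpectrum R))) :
    ∃ φ ψ : PPFormula R, ψ.Le φ ∧ basicSet φ ψ = {zgPoint N} := by
  obtain ⟨U, ⟨f, ⟨hf, hfS⟩, rfl⟩, hNU, hU⟩ :=
    (TopologicalSpace.isTopologicalBasis_of_subbasis
      (α := ZieglerSpectrum R) rfl).exists_subset_of_mem_open (Set.mem_singleton (zgPoint N)) hN
  have key : ∀ f : Set (Set (ZieglerSpectrum R)), f.Finite →
      f ⊆ {S | ∃ φ ψ : PPFormula R, ψ.Le φ ∧ S = basicSet φ ψ} → zgPoint N ∈ ⋂₀ f →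
      ∃ φ ψ : PPFormula R, ψ.Le φ ∧ zgPoint N ∈ basicSet φ ψ ∧ basicSet φ ψ ⊆ ⋂₀ f := by
    intro f hf
    induction f, hf using Set.Finite.induction_on with
    | empty =>
      intro _ _
      refine ⟨⟨0, 0, fun j => j.elim0, fun j => j.elim0⟩, Cb.zetaF R, ?_, ?_, by simp⟩
      · intro M _ _ v _
        exact ⟨fun i => i.elim0, fun j => j.elim0⟩
      · rw [Cb.mem_basicSet_aux]
        intro heq
        have := N.indecomposable.1
        obtain ⟨v, hv⟩ := exists_ne (0 : N.carrier)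
        apply hv
        rw [← Cb.mem_zetaF (R := R) v, ← heq]
        exact ⟨fun i => i.elim0, fun j => j.elim0⟩
    | @insert S f _ _ ih =>
      intro hS hNS
      rw [Set.sInter_insert] at hNS ⊢
      obtain ⟨φ₁, ψ₁, h1, rfl⟩ := hS (Set.mem_insert _ _)
      obtain ⟨φ₂, ψ₂, h2, hN2, hsub⟩ := ih (fun T hT => hS (Set.mem_insert_of_mem _ hT)) hNS.2
      obtain ⟨φ, ψ, h, hN', hsub'⟩ := basic_inter k N φ₁ ψ₁ φ₂ ψ₂ h1 h2 hNS.1 hN2
      exact ⟨φ, ψ, h, hN', fun x hx => ⟨(hsub' hx).1, hsub (hsub' hx).2⟩⟩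
  obtain ⟨φ, ψ, h, hN', hsub⟩ := key f hf hfS hNU
  refine ⟨φ, ψ, h, Set.Subset.antisymm (hsub.trans hU) ?_⟩
  rintro _ rfl
  exact hN'

end

end ZIso
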