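import Pool.Agent.Helper462.Zg.Defs

/-!
# Relations, sums and the three properties used for isolated points of the Ziegler spectrum
-/

namespace ZIso

universe u

open Zg

section IsoDefs

variable (R : Type u) [Ring R]

/-- a pp formula in two free variables `x, y`: `∃ z, ⋀ j, ∑ i, B j i • z i = a j • x + b j • y` -/
structure Rel where
  m : ℕ
  l : ℕ
  B : Fin l → Fin m → R
  a : Fin l → R
  b : Fin l → R

variable {R}

/-- the relation `ρ(x, y)` holds in `N` -/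
def Rel.At (ρ : Rel R) {N : Type u} [AddCommGroup N] [Module R N] (x y : N) : Prop :=
  Solvable ρ.B (fun j => ρ.a j • x + ρ.b j • y)

/-- `φ ≤ α + β` -/
def SumGe (φ α β : PPFormula R) : Prop :=
  ∀ (N : Type u) [AddCommGroup N] [Module R N] (v : N), v ∈ φ.sol N →
    ∃ w ∈ α.sol N, v - w ∈ β.sol N

/-- `θ ∧ χ ≤ α` -/
def MeetLe (θ χ α : PPFormula R) : Prop :=
  ∀ (N : Type u) [AddCommGroup N] [Module R N] (v : N), v ∈ θ.sol N → v ∈ χ.sol N → v ∈ α.sol N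

/-- initial segments of a branch, the last entry first -/
def pre (b : ℕ → Bool) : ℕ → List Bool
  | 0 => []
  | n + 1 => b n :: pre b n

/-- linking of elements of `N` -/
def PropL (R : Type u) [Ring R] (N : Type u) [AddCommGroup N] [Module R N] : Prop :=
  ∀ (θ : PPFormula R) (a b : N), a ∉ θ.sol N → b ≠ 0 →
    ∃ ρ : Rel R, ρ.At a b ∧ ∀ x ∈ θ.sol N, ¬ ρ.At x b

/-- existence of elements of `N` avoiding a set of formulas -/
def PropG {R : Type u} [Ring R] (N : Type u) [AddCommGroup N] [Module R N]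
    (φ ψ : PPFormula R) : Prop :=
  ∀ Φ : Set (PPFormula R), ψ ∈ Φ →
    (∀ χ₁ ∈ Φ, ∀ χ₂ ∈ Φ, ∃ χ₃ ∈ Φ, ∀ (M : Type u) [AddCommGroup M] [Module R M] (v w : M),
      v ∈ χ₁.sol M → w ∈ χ₂.sol M → v + w ∈ χ₃.sol M) →
    ∀ (Q : Type u) [AddCommGroup Q] [Module R Q] (x : Q), x ∈ φ.sol Q → (∀ χ ∈ Φ, x ∉ χ.sol Q) →
      ∃ a : N, (∀ χ ∈ Φ, a ∉ χ.sol N) ∧ (∀ θ : PPFormula R, x ∈ θ.sol Q → a ∈ θ.sol N) ∧
        ∀ θ : PPFormula R, a ∉ θ.sol N → ∃ χ : PPFormula R, a ∈ χ.sol N ∧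
          ∃ α ∈ Φ, MeetLe θ χ α

/-- every nonzero element has a formula outside its type which is relatively largest -/
def PropS (R : Type u) [Ring R] (N : Type u) [AddCommGroup N] [Module R N] : Prop :=
  ∀ a : N, a ≠ 0 → ∃ θ₀ : PPFormula R, a ∉ θ₀.sol N ∧
    ∀ θ : PPFormula R, a ∉ θ.sol N → ∃ χ : PPFormula R, a ∈ χ.sol N ∧ MeetLe θ χ θ₀

end IsoDefs

end ZIso
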