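import Pool.Agent.Helper462.Iso.Defs

/-!
# pp formulas of finite length
-/

namespace ZIso

universe u

open Zg

section FLDefs

variable {R : Type u} [Ring R]

/-- `θ/(θ ∧ ψ)` has length at most one -/
def Simp (θ ψ : PPFormula R) : Prop :=
  ∀ κ : PPFormula R, κ.Le θ → κ.Le ψ ∨ SumGe θ κ ψ

/-- pp formulas of finite length -/
inductive FL : PPFormula R → Prop
  | zero (θ : PPFormula R) (h : ∀ (N : Type u) [AddCommGroup N] [Module R N] (v : N),
      v ∈ θ.sol N → v = 0) : FL θ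
  | step (θ ψ : PPFormula R) (h : FL ψ) (h' : Simp θ ψ) : FL θ

/-- `φ/ψ` is a minimal pair (or trivial) -/
def MinP (φ ψ : PPFormula R) : Prop :=
  ψ.Le φ ∧ ∀ θ : PPFormula R, ψ.Le θ → θ.Le φ → θ.Le ψ ∨ φ.Le θ

end FLDefs

end ZIso
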