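import Pool.Agent.Helper462.Iso.Defs2

namespace ZIso

universe u

open Zg


section
variable {R : Type u} [Ring R]

theorem FL.sum_aux_zero (θ : PPFormula R) (N : Type u) [AddCommGroup N] [Module R N] :
    (0 : N) ∈ θ.sol N :=
  ⟨fun _ => 0, fun j => by simp⟩

theorem FL.sum_aux_add (θ : PPFormula R) (N : Type u) [AddCommGroup N] [Module R N] {v w : N}
    (hv : v ∈ θ.sol N) (hw : w ∈ θ.sol N) : v + w ∈ θ.sol N := by
  obtain ⟨z, hz⟩ := hv
  obtain ⟨z', hz'⟩ := hw
  refine ⟨fun i => z i + z' i, fun j => ?_⟩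
  simp only [smul_add, Finset.sum_add_distrib]
  rw [hz j, hz' j]

theorem FL.sum_aux_neg (θ : PPFormula R) (N : Type u) [AddCommGroup N] [Module R N] {v : N}
    (hv : v ∈ θ.sol N) : -v ∈ θ.sol N := by
  obtain ⟨z, hz⟩ := hv
  refine ⟨fun i => -z i, fun j => ?_⟩
  simp only [smul_neg, Finset.sum_neg_distrib]
  rw [hz j]

theorem FL.sum_aux_sub (θ : PPFormula R) (N : Type u) [AddCommGroup N] [Module R N] {v w : N}
    (hv : v ∈ θ.sol N) (hw : w ∈ θ.sol N) : v - w ∈ θ.sol N := by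
  rw [sub_eq_add_neg]
  exact FL.sum_aux_add θ N hv (FL.sum_aux_neg θ N hw)

theorem FL.sum_aux_congr {θ θ' : PPFormula R} (h : FL θ)
    (he : ∀ (N : Type u) [AddCommGroup N] [Module R N] (v : N), v ∈ θ'.sol N ↔ v ∈ θ.sol N) :
    FL θ' := by
  cases h with
  | zero _ h0 => exact FL.zero θ' (fun N _ _ v hv => h0 N v ((he N v).1 hv))
  | step _ ψ hψ hs =>
    refine FL.step θ' ψ hψ ?_
    intro κ hκ
    have hκ' : κ.Le θ := fun N _ _ v hv => (he N v).1 (hκ N hv)
    rcases hs κ hκ' with hA | hB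
    · exact Or.inl hA
    · exact Or.inr (fun N _ _ v hv => hB N v ((he N v).1 hv))

theorem FL.sum
    (hsum : ∀ θ θ' : PPFormula R, ∃ κ : PPFormula R,
      ∀ (N : Type u) [AddCommGroup N] [Module R N] (v : N),
        v ∈ κ.sol N ↔ ∃ w ∈ θ.sol N, v - w ∈ θ'.sol N)
    (hconj : ∀ θ θ' : PPFormula R, ∃ κ : PPFormula R,
      ∀ (N : Type u) [AddCommGroup N] [Module R N] (v : N),
        v ∈ κ.sol N ↔ v ∈ θ.sol N ∧ v ∈ θ'.sol N)
    {θ₁ θ₂ θ₃ : PPFormula R} (h1 : FL θ₁) (h2 : FL θ₂)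
    (h3 : ∀ (N : Type u) [AddCommGroup N] [Module R N] (v : N),
        v ∈ θ₃.sol N ↔ ∃ w ∈ θ₁.sol N, v - w ∈ θ₂.sol N) : FL θ₃ := by
  induction h2 generalizing θ₃ with
  | zero θ h0 =>
    refine FL.sum_aux_congr h1 ?_
    intro N _ _ v
    rw [h3 N v]
    constructor
    · rintro ⟨w, hw, hvw⟩
      have := h0 N _ hvw
      rw [sub_eq_zero] at this
      rw [this]
      exact hw
    · intro hv
      exact ⟨v, hv, by rw [sub_self]; exact FL.sum_aux_zero θ N⟩
  | step θ ψ hψ h' ih =>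
    obtain ⟨δ, hδ⟩ := hsum θ₁ ψ
    have FLδ : FL δ := ih hδ
    refine FL.step θ₃ δ FLδ ?_
    intro κ hκ
    obtain ⟨σ, hσ⟩ := hsum κ δ
    obtain ⟨κ', hκ'⟩ := hconj θ σ
    have hle : κ'.Le θ := fun N _ _ v hv => ((hκ' N v).1 hv).1
    have hδ1 : ∀ (N : Type u) [AddCommGroup N] [Module R N] (v : N),
        v ∈ θ₁.sol N → v ∈ δ.sol N := fun N _ _ v hv =>
      (hδ N v).2 ⟨v, hv, by rw [sub_self]; exact FL.sum_aux_zero ψ N⟩
    have hδ2 : ∀ (N : Type u) [AddCommGroup N] [Module R N] (v : N),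
        v ∈ ψ.sol N → v ∈ δ.sol N := fun N _ _ v hv =>
      (hδ N v).2 ⟨0, FL.sum_aux_zero θ₁ N, by rw [sub_zero]; exact hv⟩
    rcases h' κ' hle with hA | hB
    · left
      intro N _ _ v hv
      obtain ⟨a, ha, hb⟩ := (h3 N v).1 (hκ N hv)
      have hbσ : v - a ∈ σ.sol N := by
        refine (hσ N _).2 ⟨v, hv, ?_⟩
        have e : v - a - v = -a := by abel
        rw [e]
        exact FL.sum_aux_neg δ N (hδ1 N a ha)
      have hbψ : v - a ∈ ψ.sol N := hA N ((hκ' N _).2 ⟨hb, hbσ⟩)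
      exact (hδ N v).2 ⟨a, ha, hbψ⟩
    · right
      intro N _ _ v hv
      obtain ⟨a, ha, hb⟩ := (h3 N v).1 hv
      obtain ⟨w, hw, hu⟩ := hB N (v - a) hb
      obtain ⟨w1, hw1, hd⟩ := (hσ N w).1 ((hκ' N w).1 hw).2
      refine ⟨w1, hw1, ?_⟩
      have e : v - w1 = a + (w - w1) + (v - a - w) := by abel
      rw [e]
      exact FL.sum_aux_add δ N (FL.sum_aux_add δ N (hδ1 N a ha) hd) (hδ2 N _ hu)

theorem FL.dcc
    (hconj : ∀ θ θ' : PPFormula R, ∃ κ : PPFormula R,
      ∀ (N : Type u) [AddCommGroup N] [Module R N] (v : N),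
        v ∈ κ.sol N ↔ v ∈ θ.sol N ∧ v ∈ θ'.sol N)
    {θ : PPFormula R} (h : FL θ) (κ : ℕ → PPFormula R) (hκ : ∀ n, (κ (n + 1)).Le (κ n))
    (h0 : (κ 0).Le θ) : ∃ m, ∀ n, m ≤ n → (κ m).Le (κ n) := by
  induction h generalizing κ with
  | zero θ hz =>
    refine ⟨0, fun n _ N _ _ v hv => ?_⟩
    rw [hz N v (h0 N hv)]
    exact FL.sum_aux_zero (κ n) N
  | step θ ψ hψ h' ih =>
    have mono : ∀ n k, (κ (n + k)).Le (κ n) := by
      intro n k
      induction k with
      | zero => exact fun N _ _ v hv => hv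
      | succ k ihk => exact fun N _ _ v hv => ihk N (hκ (n + k) N hv)
    by_cases hex : ∃ n0, (κ n0).Le ψ
    · obtain ⟨n0, hn0⟩ := hex
      obtain ⟨m, hm⟩ := ih (fun i => κ (n0 + i)) (fun n => hκ (n0 + n)) hn0
      refine ⟨n0 + m, fun n hn => ?_⟩
      have := hm (n - n0) (by omega)
      have e : n0 + (n - n0) = n := by omega
      simp only [e] at this
      exact this
    · have hS : ∀ n, SumGe θ (κ n) ψ := by
        intro n
        have hle : (κ n).Le θ := fun N _ _ v hv => h0 N (by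
          have := mono 0 n
          rw [Nat.zero_add] at this
          exact this N hv)
        rcases h' (κ n) hle with hA | hB
        · exact absurd ⟨n, hA⟩ hex
        · exact hB
      choose c hc using fun n => hconj (κ n) ψ
      obtain ⟨m, hm⟩ := ih c
        (fun n N _ _ v hv => (hc n N v).2 ⟨hκ n N ((hc (n + 1) N v).1 hv).1, ((hc (n + 1) N v).1 hv).2⟩)
        (fun N _ _ v hv => ((hc 0 N v).1 hv).2)
      refine ⟨m, fun n hn N _ _ v hv => ?_⟩
      have hvθ : v ∈ θ.sol N := h0 N (by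
        have := mono 0 m
        rw [Nat.zero_add] at this
        exact this N hv)
      obtain ⟨w, hw, hu⟩ := hS n N v hvθ
      have hwm : w ∈ (κ m).sol N := by
        have := mono m (n - m)
        rw [show m + (n - m) = n by omega] at this
        exact this N hw
      have hum : v - w ∈ (c m).sol N := (hc m N _).2 ⟨FL.sum_aux_sub (κ m) N hv hwm, hu⟩
      have hun : v - w ∈ (κ n).sol N := ((hc n N _).1 (hm n hn N hum)).1
      have e : v = w + (v - w) := by abel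
      rw [e]
      exact FL.sum_aux_add (κ n) N hw hun

end

end ZIso
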