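import Pool.Agent.Helper462.Iso.Defs2

namespace ZIso

universe u

open Zg


section
variable {R : Type u} [Ring R]

theorem sol_map_k3 (φ : PPFormula R) {M N : Type u} [AddCommGroup M] [Module R M] [AddCommGroup N]
    [Module R N] (f : M →ₗ[R] N) {v : M} (hv : v ∈ φ.sol M) : f v ∈ φ.sol N := by
  obtain ⟨z, hz⟩ := hv
  refine ⟨fun i => f (z i), fun j => ?_⟩
  have h1 := congrArg f (hz j)
  rw [map_sum] at h1
  simp only [map_smul] at h1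
  exact h1

theorem sol_sub_k3 (φ : PPFormula R) {M : Type u} [AddCommGroup M] [Module R M] {v w : M}
    (hv : v ∈ φ.sol M) (hw : w ∈ φ.sol M) : v - w ∈ φ.sol M := by
  obtain ⟨z, hz⟩ := hv
  obtain ⟨y, hy⟩ := hw
  refine ⟨fun i => z i - y i, fun j => ?_⟩
  have h1 : ∑ i, φ.B j i • (z i - y i) = ∑ i, φ.B j i • z i - ∑ i, φ.B j i • y i := by
    rw [← Finset.sum_sub_distrib]
    exact Finset.sum_congr rfl fun i _ => smul_sub _ _ _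
  change ∑ i, φ.B j i • (z i - y i) = φ.a j • (v - w)
  have h2 : ∑ i, φ.B j i • z i = φ.a j • v := hz j
  have h3 : ∑ i, φ.B j i • y i = φ.a j • w := hy j
  rw [h1, h2, h3, smul_sub]

theorem sol_zero_k3 (φ : PPFormula R) (M : Type u) [AddCommGroup M] [Module R M] :
    (0 : M) ∈ φ.sol M := by
  refine ⟨fun _ => 0, fun j => ?_⟩
  simp

theorem sol_add_k3 (φ : PPFormula R) {M : Type u} [AddCommGroup M] [Module R M] {v w : M}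
    (hv : v ∈ φ.sol M) (hw : w ∈ φ.sol M) : v + w ∈ φ.sol M := by
  have h1 : (0 : M) - w ∈ φ.sol M := sol_sub_k3 φ (sol_zero_k3 φ M) hw
  have h2 := sol_sub_k3 φ hv h1
  rwa [zero_sub, sub_neg_eq_add] at h2

/-- the formula `v = 0` -/
def zeroPP (R : Type u) [Ring R] : PPFormula R where
  m := 0
  l := 1
  B := fun _ _ => 0
  a := fun _ => 1

theorem zeroPP_sol (M : Type u) [AddCommGroup M] [Module R M] (v : M) :
    v ∈ (zeroPP R).sol M ↔ v = 0 := by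
  constructor
  · rintro ⟨z, hz⟩
    have h1 := hz (0 : Fin 1)
    change ∑ i : Fin 0, (0 : R) • z i = (1 : R) • v at h1
    rw [Finset.sum_of_isEmpty, one_smul] at h1
    exact h1.symm
  · rintro rfl
    exact sol_zero_k3 _ M

theorem FL_mono
    (hconj : ∀ θ θ' : PPFormula R, ∃ κ : PPFormula R,
      ∀ (N : Type u) [AddCommGroup N] [Module R N] (v : N),
        v ∈ κ.sol N ↔ v ∈ θ.sol N ∧ v ∈ θ'.sol N)
    (τ : PPFormula R) (h : FL τ) : ∀ θ : PPFormula R, θ.Le τ → FL θ := by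
  induction h with
  | zero τ h =>
    intro θ hθ
    exact FL.zero θ fun N _ _ v hv => h N v (hθ N hv)
  | step τ ψ h h' ih =>
    intro θ hθ
    obtain ⟨κ₀, hκ₀⟩ := hconj θ ψ
    have h1 : FL κ₀ := ih κ₀ fun N _ _ v hv => ((hκ₀ N v).1 hv).2
    refine FL.step θ κ₀ h1 fun κ hκ => ?_
    rcases h' κ (fun N _ _ v hv => hθ N (hκ N hv)) with h2 | h2
    · left
      intro N _ _ v hv
      exact (hκ₀ N v).2 ⟨hκ N hv, h2 N hv⟩
    · right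
      intro N _ _ v hv
      obtain ⟨w, hw, hvw⟩ := h2 N v (hθ N hv)
      exact ⟨w, hw, (hκ₀ N (v - w)).2 ⟨sol_sub_k3 θ hv (hκ N hw), hvw⟩⟩

theorem FL.top
    (hsum : ∀ θ θ' : PPFormula R, ∃ κ : PPFormula R,
      ∀ (N : Type u) [AddCommGroup N] [Module R N] (v : N),
        v ∈ κ.sol N ↔ ∃ w ∈ θ.sol N, v - w ∈ θ'.sol N)
    (hconj : ∀ θ θ' : PPFormula R, ∃ κ : PPFormula R,
      ∀ (N : Type u) [AddCommGroup N] [Module R N] (v : N),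
        v ∈ κ.sol N ↔ v ∈ θ.sol N ∧ v ∈ θ'.sol N)
    (hFLsum : ∀ θ₁ θ₂ θ₃ : PPFormula R, FL θ₁ → FL θ₂ →
      (∀ (N : Type u) [AddCommGroup N] [Module R N] (v : N),
        v ∈ θ₃.sol N ↔ ∃ w ∈ θ₁.sol N, v - w ∈ θ₂.sol N) → FL θ₃)
    (hG : ∀ Φ : Set (PPFormula R), Φ.Nonempty →
      (∀ χ₁ ∈ Φ, ∀ χ₂ ∈ Φ, ∃ χ₃ ∈ Φ, ∀ (M : Type u) [AddCommGroup M] [Module R M] (v w : M),
        v ∈ χ₁.sol M → w ∈ χ₂.sol M → v + w ∈ χ₃.sol M) →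
      ∀ (Q : Type u) [AddCommGroup Q] [Module R Q] (x : Q), (∀ χ ∈ Φ, x ∉ χ.sol Q) →
      ∃ (N : Type u) (_ : AddCommGroup N) (_ : Module R N) (a : N), (∀ χ ∈ Φ, a ∉ χ.sol N) ∧
        (∀ θ : PPFormula R, a ∉ θ.sol N → ∃ χ : PPFormula R, a ∈ χ.sol N ∧
          ∃ α ∈ Φ, MeetLe θ χ α) ∧
        ∀ a' : N, a' ≠ 0 → ∃ φ ψ : PPFormula R, MinP φ ψ ∧ a' ∈ φ.sol N ∧ a' ∉ ψ.sol N)
    (θ : PPFormula R) : FL θ := by
  suffices hτ : ∃ τ : PPFormula R, FL τ ∧ (1 : R) ∈ τ.sol R by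
    obtain ⟨τ, hFL, h1⟩ := hτ
    refine FL_mono hconj τ hFL θ fun N _ _ v _ => ?_
    have h2 := sol_map_k3 τ (LinearMap.toSpanSingleton R N v) h1
    rwa [LinearMap.toSpanSingleton_apply, one_smul] at h2
  by_contra hcon
  push Not at hcon
  obtain ⟨N, _, _, a, ha, hL, hmin⟩ := hG {χ | FL χ}
    ⟨zeroPP R, FL.zero _ fun N _ _ v hv => (zeroPP_sol N v).1 hv⟩
    (by
      intro χ₁ hχ₁ χ₂ hχ₂
      obtain ⟨χ₃, hχ₃⟩ := hsum χ₁ χ₂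
      refine ⟨χ₃, hFLsum χ₁ χ₂ χ₃ hχ₁ hχ₂ hχ₃, fun M _ _ v w hv hw => ?_⟩
      exact (hχ₃ M (v + w)).2 ⟨v, hv, by rwa [add_sub_cancel_left]⟩)
    R 1 (fun χ hχ => hcon χ hχ)
  have ha0 : a ≠ 0 := by
    rintro rfl
    exact ha (zeroPP R) (FL.zero _ fun N _ _ v hv => (zeroPP_sol N v).1 hv) (sol_zero_k3 _ N)
  obtain ⟨φ', θ₀, hMP, haφ, haθ⟩ := hmin a ha0
  obtain ⟨χ₀, haχ, α₀, hα₀, hmeet⟩ := hL θ₀ haθ
  obtain ⟨φ'', hφ''⟩ := hconj φ' χ₀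
  have hα₀' : FL α₀ := hα₀
  refine ha φ'' (FL.step φ'' α₀ hα₀' fun κ hκ => ?_) ((hφ'' N a).2 ⟨haφ, haχ⟩)
  obtain ⟨σ, hσ⟩ := hsum κ θ₀
  have hκφ : ∀ (M : Type u) [AddCommGroup M] [Module R M] (v : M), v ∈ κ.sol M → v ∈ φ'.sol M :=
    fun M _ _ v hv => ((hφ'' M v).1 (hκ M hv)).1
  rcases hMP.2 σ
      (fun M _ _ v hv => (hσ M v).2 ⟨0, sol_zero_k3 κ M, by rwa [sub_zero]⟩)
      (fun M _ _ v hv => by
        obtain ⟨w, hw, hvw⟩ := (hσ M v).1 hv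
        have h3 := sol_add_k3 φ' (hκφ M w hw) (hMP.1 M hvw)
        rwa [add_sub_cancel] at h3) with h4 | h4
  · left
    intro M _ _ v hv
    have h5 : v ∈ σ.sol M := (hσ M v).2 ⟨v, hv, by rw [sub_self]; exact sol_zero_k3 θ₀ M⟩
    exact hmeet M v (h4 M h5) ((hφ'' M v).1 (hκ M hv)).2
  · right
    intro M _ _ v hv
    obtain ⟨w, hw, hvw⟩ := (hσ M v).1 (h4 M ((hφ'' M v).1 hv).1)
    exact ⟨w, hw, hmeet M (v - w) hvw ((hφ'' M _).1 (sol_sub_k3 φ'' hv (hκ M hw))).2⟩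
end

end ZIso
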