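import Pool.Agent.Helper462.Iso.Defs2

namespace ZIso

universe u

open Zg


section
variable {R : Type u} [Ring R]

theorem minP_at_zero (φ : PPFormula R) (N : Type u) [AddCommGroup N] [Module R N] :
    (0 : N) ∈ φ.sol N := ⟨0, fun j => by simp⟩

theorem minP_at_sub (φ : PPFormula R) (N : Type u) [AddCommGroup N] [Module R N] {v w : N}
    (hv : v ∈ φ.sol N) (hw : w ∈ φ.sol N) : v - w ∈ φ.sol N := by
  obtain ⟨z, hz⟩ := hv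
  obtain ⟨z', hz'⟩ := hw
  refine ⟨fun i => z i - z' i, fun j => ?_⟩
  simp only [smul_sub, Finset.sum_sub_distrib, hz, hz']

theorem minP_at_add (φ : PPFormula R) (N : Type u) [AddCommGroup N] [Module R N] {v w : N}
    (hv : v ∈ φ.sol N) (hw : w ∈ φ.sol N) : v + w ∈ φ.sol N := by
  have h1 := minP_at_sub φ N (minP_at_zero φ N) hw
  have h2 := minP_at_sub φ N hv h1
  have h3 : v - (0 - w) = v + w := by abel
  rwa [h3] at h2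

theorem minP_at_zf : ∃ ζ : PPFormula R, ∀ (N : Type u) [AddCommGroup N] [Module R N] (v : N),
    v ∈ ζ.sol N ↔ v = 0 := by
  refine ⟨⟨0, 1, fun _ i => i.elim0, fun _ => 1⟩, ?_⟩
  intro N _ _ v
  constructor
  · rintro ⟨z, hz⟩
    have h := hz 0
    simp only [Finset.univ_eq_empty, Finset.sum_empty, one_smul] at h
    exact h.symm
  · rintro rfl
    exact minP_at_zero _ N

theorem minP_at (hsnd : ∀ (ρ : Rel R) (θ : PPFormula R), ∃ κ : PPFormula R,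
      ∀ (N : Type u) [AddCommGroup N] [Module R N] (v : N),
        v ∈ κ.sol N ↔ ∃ y ∈ θ.sol N, ρ.At v y)
    (hswap : ∀ ρ : Rel R, ∃ σ : Rel R,
      ∀ (N : Type u) [AddCommGroup N] [Module R N] (x y : N), σ.At x y ↔ ρ.At y x)
    (hres : ∀ (ρ : Rel R) (χ : PPFormula R), ∃ σ : Rel R,
      ∀ (N : Type u) [AddCommGroup N] [Module R N] (x y : N),
        σ.At x y ↔ ρ.At x y ∧ y ∈ χ.sol N)
    (hsub : ∀ (ρ : Rel R) (N : Type u) [AddCommGroup N] [Module R N] (x y x' y' : N),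
      ρ.At x y → ρ.At x' y' → ρ.At (x - x') (y - y'))
    (hsum : ∀ θ θ' : PPFormula R, ∃ κ : PPFormula R,
      ∀ (N : Type u) [AddCommGroup N] [Module R N] (v : N),
        v ∈ κ.sol N ↔ ∃ w ∈ θ.sol N, v - w ∈ θ'.sol N)
    (hconj : ∀ θ θ' : PPFormula R, ∃ κ : PPFormula R,
      ∀ (N : Type u) [AddCommGroup N] [Module R N] (v : N),
        v ∈ κ.sol N ↔ v ∈ θ.sol N ∧ v ∈ θ'.sol N)
    {N : Type u} [AddCommGroup N] [Module R N] (φ ψ : PPFormula R)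
    (hL : PropL R N) (hG : PropG N φ ψ) (hne : ¬ φ.Le ψ) (hmin : MinP φ ψ)
    (a : N) (ha : a ≠ 0) :
    ∃ φ' ψ' : PPFormula R, MinP φ' ψ' ∧ a ∈ φ'.sol N ∧ a ∉ ψ'.sol N := by
  obtain ⟨ζ, hζ⟩ := minP_at_zf (R := R)
  have hne' : ∃ (Q : Type u) (_ : AddCommGroup Q) (_ : Module R Q) (x : Q),
      x ∈ φ.sol Q ∧ x ∉ ψ.sol Q := by
    by_contra hcon
    push Not at hcon
    exact hne fun Q _ _ x hx => hcon Q _ _ x hx
  obtain ⟨Q, _, _, x, hx1, hx2⟩ := hne'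
  obtain ⟨b₀, hb1, hb2, hb3⟩ := hG {χ | χ.Le ψ} (fun Q _ _ _ h => h)
    (fun χ₁ h1 χ₂ h2 => ⟨ψ, fun Q _ _ _ h => h, fun M _ _ v w hv hw =>
      minP_at_add ψ M (h1 M hv) (h2 M hw)⟩) Q x hx1 (fun χ hχ h => hx2 (hχ Q h))
  have hbψ : b₀ ∉ ψ.sol N := hb1 ψ (fun Q _ _ _ h => h)
  have hbφ : b₀ ∈ φ.sol N := hb2 φ hx1
  have hb0 : b₀ ≠ 0 := by
    rintro rfl
    exact hbψ (minP_at_zero ψ N)
  have hstar : ∀ θ : PPFormula R, b₀ ∉ θ.sol N →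
      ∃ χ : PPFormula R, b₀ ∈ χ.sol N ∧ MeetLe θ χ ψ := by
    intro θ hθ
    obtain ⟨χ, h1, α, h2, h3⟩ := hb3 θ hθ
    exact ⟨χ, h1, fun M _ _ v hv1 hv2 => h2 M (h3 M v hv1 hv2)⟩
  obtain ⟨ρ, hρ1, hρ2⟩ := hL ζ a b₀ (fun h => ha ((hζ N a).1 h)) hb0
  have hρ0 : ¬ ρ.At 0 b₀ := hρ2 0 ((hζ N 0).2 rfl)
  obtain ⟨σ, hσ⟩ := hswap ρ
  obtain ⟨κ, hκ⟩ := hsnd σ ζ
  have hκ' : ∀ (M : Type u) [AddCommGroup M] [Module R M] (v : M),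
      v ∈ κ.sol M ↔ ρ.At 0 v := by
    intro M _ _ v
    rw [hκ]
    constructor
    · rintro ⟨y, hy, hy'⟩
      rw [(hζ M y).1 hy, hσ] at hy'
      exact hy'
    · intro h
      exact ⟨0, (hζ M 0).2 rfl, (hσ M v 0).2 h⟩
  obtain ⟨χ₁, hχ1, hχ2⟩ := hstar κ (fun h => hρ0 ((hκ' N b₀).1 h))
  obtain ⟨ρ', hρ'⟩ := hres ρ χ₁
  obtain ⟨φ', hφ'⟩ := hsnd ρ' φ
  obtain ⟨ψ', hψ'⟩ := hsnd ρ' ψ
  have hle' : ψ'.Le φ' := by
    intro M _ _ v hv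
    obtain ⟨y, hy, hy'⟩ := (hψ' M v).1 hv
    exact (hφ' M v).2 ⟨y, hmin.1 M hy, hy'⟩
  refine ⟨φ', ψ', ⟨hle', ?_⟩, ?_, ?_⟩
  · intro θ hθ1 hθ2
    obtain ⟨σ', hσ'⟩ := hswap ρ'
    obtain ⟨τ₀, hτ₀⟩ := hsnd σ' θ
    obtain ⟨τ, hτ⟩ := hconj φ τ₀
    obtain ⟨μ, hμ⟩ := hsum τ ψ
    have hτ' : ∀ (M : Type u) [AddCommGroup M] [Module R M] (v : M),
        v ∈ τ.sol M ↔ v ∈ φ.sol M ∧ ∃ x ∈ θ.sol M, ρ'.At x v := by
      intro M _ _ v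
      rw [hτ, hτ₀]
      constructor
      · rintro ⟨h1, x, h2, h3⟩
        exact ⟨h1, x, h2, (hσ' M v x).1 h3⟩
      · rintro ⟨h1, x, h2, h3⟩
        exact ⟨h1, x, h2, (hσ' M v x).2 h3⟩
    have h1 : ψ.Le μ := by
      intro M _ _ v hv
      refine (hμ M v).2 ⟨0, minP_at_zero τ M, ?_⟩
      rw [sub_zero]; exact hv
    have h2 : μ.Le φ := by
      intro M _ _ v hv
      obtain ⟨w, hw, hw'⟩ := (hμ M v).1 hv
      have h3 := minP_at_add φ M ((hτ' M w).1 hw).1 (hmin.1 M hw')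
      have h4 : w + (v - w) = v := by abel
      rwa [h4] at h3
    rcases hmin.2 μ h1 h2 with h | h
    · left
      intro M _ _ v hv
      obtain ⟨y, hy, hy'⟩ := (hφ' M v).1 (hθ2 M hv)
      refine (hψ' M v).2 ⟨y, h M ((hμ M y).2 ⟨y, (hτ' M y).2 ⟨hy, v, hv, hy'⟩, ?_⟩), hy'⟩
      rw [sub_self]; exact minP_at_zero ψ M
    · right
      intro M _ _ v hv
      obtain ⟨y, hy, hy'⟩ := (hφ' M v).1 hv
      obtain ⟨t, ht, ht'⟩ := (hμ M y).1 (h M hy)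
      obtain ⟨_, x', hx', hx''⟩ := (hτ' M t).1 ht
      have h3 := hsub ρ' M v y x' t hy' hx''
      have h4 : v - x' ∈ θ.sol M := hθ1 M ((hψ' M _).2 ⟨y - t, ht', h3⟩)
      have h5 := minP_at_add θ M h4 hx'
      have h6 : v - x' + x' = v := by abel
      rwa [h6] at h5
  · exact (hφ' N a).2 ⟨b₀, hbφ, (hρ' N a b₀).2 ⟨hρ1, hχ1⟩⟩
  · intro h
    obtain ⟨y, hy, hy'⟩ := (hψ' N a).1 h
    have h3 := hsub ρ' N a b₀ a y ((hρ' N a b₀).2 ⟨hρ1, hχ1⟩) hy'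
    rw [sub_self] at h3
    obtain ⟨h4, h5⟩ := (hρ' N _ _).1 h3
    have h6 : b₀ - y ∈ ψ.sol N := hχ2 N _ ((hκ' N _).2 h4) h5
    have h7 := minP_at_add ψ N h6 hy
    have h8 : b₀ - y + y = b₀ := by abel
    rw [h8] at h7
    exact hbψ h7
end

end ZIso
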