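import Pool.Agent.Helper462.Iso.Defs2

namespace ZIso

universe u

open Zg


section
variable {R : Type u} [Ring R]

theorem zx_ppOf {ι κ : Type u} [Fintype ι] [Fintype κ] (B : κ → ι → R) (a : κ → R) :
    ∃ θ : PPFormula R, ∀ (Q : Type u) [AddCommGroup Q] [Module R Q] (v : Q),
      v ∈ θ.sol Q ↔ ∃ z : ι → Q, ∀ j, ∑ i, B j i • z i = a j • v := by
  classical
  refine ⟨⟨Fintype.card ι, Fintype.card κ,
    fun j i => B ((Fintype.equivFin κ).symm j) ((Fintype.equivFin ι).symm i),
    fun j => a ((Fintype.equivFin κ).symm j)⟩, fun Q _ _ v => ?_⟩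
  constructor
  · rintro ⟨z, hz⟩
    refine ⟨fun i => z (Fintype.equivFin ι i), fun j => ?_⟩
    have h := hz (Fintype.equivFin κ j)
    simp only [Equiv.symm_apply_apply] at h
    rw [← h]
    exact Fintype.sum_equiv (Fintype.equivFin ι) _ _ (fun i => by simp)
  · rintro ⟨z, hz⟩
    refine ⟨fun i => z ((Fintype.equivFin ι).symm i), fun j => ?_⟩
    have h := hz ((Fintype.equivFin κ).symm j)
    show ∑ i, B ((Fintype.equivFin κ).symm j) ((Fintype.equivFin ι).symm i) •
      z ((Fintype.equivFin ι).symm i) = a ((Fintype.equivFin κ).symm j) • v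
    rw [← h]
    exact Fintype.sum_equiv (Fintype.equivFin ι).symm _ _ (fun i => rfl)

theorem zx_pure {A B : Type u} [AddCommGroup A] [Module R A] [AddCommGroup B] [Module R B]
    {f : A →ₗ[R] B} (hf : IsPureEmbedding f) {ι κ : Type u} [Fintype ι] [Fintype κ]
    (r : κ → ι → R) (c : κ → A) (h : ∃ z : ι → B, ∀ j, ∑ i, r j i • z i = f (c j)) :
    ∃ z : ι → A, ∀ j, ∑ i, r j i • z i = c j := by
  classical
  obtain ⟨z, hz⟩ := h
  have h1 : Solvable (fun j i => r ((Fintype.equivFin κ).symm j) ((Fintype.equivFin ι).symm i))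
      (fun j => f ((fun j => c ((Fintype.equivFin κ).symm j)) j)) := by
    refine ⟨fun i => z ((Fintype.equivFin ι).symm i), fun j => ?_⟩
    show ∑ i, r ((Fintype.equivFin κ).symm j) ((Fintype.equivFin ι).symm i) •
      z ((Fintype.equivFin ι).symm i) = f (c ((Fintype.equivFin κ).symm j))
    rw [← hz ((Fintype.equivFin κ).symm j)]
    exact Fintype.sum_equiv (Fintype.equivFin ι).symm _ _ (fun i => rfl)
  obtain ⟨w, hw⟩ := hf.2 _ _ _ _ h1
  refine ⟨fun i => w (Fintype.equivFin ι i), fun j => ?_⟩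
  have h := hw (Fintype.equivFin κ j)
  simp only [Equiv.symm_apply_apply] at h
  rw [← h]
  exact Fintype.sum_equiv (Fintype.equivFin ι) _ _ (fun i => by simp)

/-- solutions of the homogeneous system at one unknown -/
def zxH {P I J : Type u} [AddCommGroup P] [Module R P] (a : J → (I →₀ R)) (D : Set I) (i₀ : I)
    (s : Finset J) : Set P :=
  {p | ∃ z : I → P, (∀ i ∈ D, z i = 0) ∧ (∀ j ∈ s, (a j).sum (fun i r => r • z i) = 0) ∧
    z i₀ = p}

theorem zxH_mono {P I J : Type u} [AddCommGroup P] [Module R P] (a : J → (I →₀ R)) (D : Set I)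
    (i₀ : I) {s t : Finset J} (hst : s ⊆ t) : (zxH (P := P) a D i₀ t) ⊆ zxH a D i₀ s := by
  rintro p ⟨z, h1, h2, h3⟩
  exact ⟨z, h1, fun j hj => h2 j (hst hj), h3⟩

theorem zx_sum_eq {P I : Type u} [AddCommGroup P] [Module R P] (b : I →₀ R) (U : Finset I)
    (hU : b.support ⊆ U) (z : I → P) :
    b.sum (fun i r => r • z i) = ∑ i : U, b i • z i := by
  rw [Finsupp.sum_of_support_subset b hU (fun i r => r • z i) (fun i _ => zero_smul R _)]
  exact (Finset.sum_coe_sort U (fun i => b i • z i)).symm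

theorem zxH_pp {P I J : Type u} [AddCommGroup P] [Module R P] (a : J → (I →₀ R)) (D : Set I)
    (i₀ : I) (hi₀ : i₀ ∉ D) (s : Finset J) :
    ∃ θ : PPFormula R, θ.sol P = zxH a D i₀ s := by
  classical
  let U : Finset I := insert i₀ (s.biUnion (fun j => (a j).support))
  have hU : ∀ j ∈ s, (a j).support ⊆ U := by
    intro j hj i hi
    exact Finset.mem_insert_of_mem (Finset.mem_biUnion.mpr ⟨j, hj, hi⟩)
  have hi₀U : i₀ ∈ U := Finset.mem_insert_self _ _
  obtain ⟨θ, hθ⟩ := zx_ppOf (R := R) (ι := U) (κ := s)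
    (fun j i => if (i : I) ∈ D ∨ (i : I) = i₀ then 0 else a j i) (fun j => - a j i₀)
  refine ⟨θ, ?_⟩
  ext p
  rw [hθ P p]
  constructor
  · rintro ⟨z, hz⟩
    let z' : I → P := fun i => if i ∈ D then 0 else if i = i₀ then p else
      if h : i ∈ U then z ⟨i, h⟩ else 0
    refine ⟨z', fun i hi => by simp [z', hi], fun j hj => ?_, by simp [z', hi₀]⟩
    rw [zx_sum_eq (a j) U (hU j hj)]
    have h1 := hz ⟨j, hj⟩
    have h2 : ∀ i : U, a j i • z' i = (if (i : I) ∈ D ∨ (i : I) = i₀ then 0 else a j i) • z i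
        + (if i = ⟨i₀, hi₀U⟩ then a j i₀ • p else 0) := by
      intro i
      by_cases hD : (i : I) ∈ D
      · have : i ≠ ⟨i₀, hi₀U⟩ := by rintro rfl; exact hi₀ hD
        simp [z', hD, this]
      · by_cases hi : (i : I) = i₀
        · have : i = ⟨i₀, hi₀U⟩ := Subtype.ext hi
          subst this
          simp [z', hi₀]
        · have : i ≠ ⟨i₀, hi₀U⟩ := fun h => hi (by rw [h])
          simp [z', hD, hi, this]
    rw [Finset.sum_congr rfl (fun i _ => h2 i), Finset.sum_add_distrib, h1]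
    simp
  · rintro ⟨z, h1, h2, h3⟩
    refine ⟨fun i => z i, fun j => ?_⟩
    have h4 := h2 j j.2
    rw [zx_sum_eq (a j) U (hU j j.2)] at h4
    have h5 : ∀ i : U, (if (i : I) ∈ D ∨ (i : I) = i₀ then 0 else a j i) • z i = a j i • z i
        - (if i = ⟨i₀, hi₀U⟩ then a j i₀ • p else 0) := by
      intro i
      by_cases hD : (i : I) ∈ D
      · have : i ≠ ⟨i₀, hi₀U⟩ := by rintro rfl; exact hi₀ hD
        simp [hD, this, h1 _ hD]
      · by_cases hi : (i : I) = i₀
        · have : i = ⟨i₀, hi₀U⟩ := Subtype.ext hi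
          subst this
          simp [h3]
        · have : i ≠ ⟨i₀, hi₀U⟩ := fun h => hi (by rw [h])
          simp [hD, hi, this]
    rw [Finset.sum_congr rfl (fun i _ => h5 i), Finset.sum_sub_distrib, h4]
    simp

theorem zxH_dcc
    (hconj : ∀ θ θ' : PPFormula R, ∃ κ : PPFormula R,
      ∀ (N : Type u) [AddCommGroup N] [Module R N] (v : N),
        v ∈ κ.sol N ↔ v ∈ θ.sol N ∧ v ∈ θ'.sol N)
    (hdcc : ∀ κ : ℕ → PPFormula R, (∀ n, (κ (n + 1)).Le (κ n)) →
      ∃ m, ∀ n, m ≤ n → (κ m).Le (κ n))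
    {P I J : Type u} [AddCommGroup P] [Module R P] (a : J → (I →₀ R)) (D : Set I)
    (i₀ : I) (hi₀ : i₀ ∉ D) :
    ∃ s₀ : Finset J, ∀ t : Finset J, (zxH (P := P) a D i₀ s₀) ⊆ zxH a D i₀ t := by
  classical
  by_contra hcon
  push Not at hcon
  choose t ht using hcon
  choose θ hθ using fun s => zxH_pp (P := P) a D i₀ hi₀ s
  choose cj hcj using hconj
  let S : ℕ → Finset J := fun n => Nat.rec ∅ (fun _ s => s ∪ t s) n
  have hS : ∀ n, S (n+1) = S n ∪ t (S n) := fun n => rfl
  let κ : ℕ → PPFormula R := fun n => Nat.rec (θ (S 0)) (fun n k => cj k (θ (S (n+1)))) n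
  have hκ : ∀ n, κ (n+1) = cj (κ n) (θ (S (n+1))) := fun n => rfl
  have hκs : ∀ n, (κ n).sol P = zxH a D i₀ (S n) := by
    intro n
    induction n with
    | zero => exact hθ _
    | succ n ih =>
      ext v
      rw [hκ, hcj, ih, hθ]
      constructor
      · exact fun h => h.2
      · intro h
        exact ⟨zxH_mono a D i₀ (by rw [hS]; exact Finset.subset_union_left) h, h⟩
  obtain ⟨m, hm⟩ := hdcc κ (fun n Q _ _ v hv => by
    rw [hκ, hcj] at hv; exact hv.1)
  have h1 := hm (m+1) (Nat.le_succ m) P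
  rw [hκs m, hκs (m+1)] at h1
  exact ht (S m) (fun v hv => zxH_mono a D i₀ (by rw [hS]; exact Finset.subset_union_right)
    (h1 hv))

/-- good partial assignments -/
def zxGood {P I J : Type u} [AddCommGroup P] [Module R P] (a : J → (I →₀ R)) (c : J → P)
    (q : Set I × (I → P)) : Prop :=
  ∀ s : Finset J, ∃ z : I → P, (∀ i ∈ q.1, z i = q.2 i) ∧
    ∀ j ∈ s, (a j).sum (fun i r => r • z i) = c j

theorem compact_of_dcc
    (hconj : ∀ θ θ' : PPFormula R, ∃ κ : PPFormula R,
      ∀ (N : Type u) [AddCommGroup N] [Module R N] (v : N),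
        v ∈ κ.sol N ↔ v ∈ θ.sol N ∧ v ∈ θ'.sol N)
    (hdcc : ∀ κ : ℕ → PPFormula R, (∀ n, (κ (n + 1)).Le (κ n)) →
      ∃ m, ∀ n, m ≤ n → (κ m).Le (κ n))
    (P : Type u) [AddCommGroup P] [Module R P] (I J : Type u) (a : J → (I →₀ R)) (c : J → P)
    (h : ∀ s : Finset J, ∃ z : I → P, ∀ j ∈ s, (a j).sum (fun i r => r • z i) = c j) :
    ∃ z : I → P, ∀ j, (a j).sum (fun i r => r • z i) = c j := by
  classical
  let α := {q : Set I × (I → P) // zxGood a c q}
  let le : α → α → Prop := fun q q' => q.1.1 ⊆ q'.1.1 ∧ ∀ i ∈ q.1.1, q.1.2 i = q'.1.2 i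
  have hchain : ∀ C : Set α, IsChain le C → ∃ ub, ∀ q ∈ C, le q ub := by
    intro C hC
    rcases C.eq_empty_or_nonempty with rfl | ⟨q₀, hq₀⟩
    · refine ⟨⟨(∅, 0), fun s => ?_⟩, fun q hq => absurd hq (Set.notMem_empty q)⟩
      obtain ⟨z, hz⟩ := h s
      exact ⟨z, fun i hi => absurd hi (Set.notMem_empty i), hz⟩
    · have hcmp : ∀ q ∈ C, ∀ q' ∈ C, le q q' ∨ le q' q := by
        intro q hq q' hq'
        by_cases h : q = q'
        · subst h; exact Or.inl ⟨subset_rfl, fun _ _ => rfl⟩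
        · exact hC hq hq' h
      have hag : ∀ q ∈ C, ∀ q' ∈ C, ∀ i, i ∈ q.1.1 → i ∈ q'.1.1 → q.1.2 i = q'.1.2 i := by
        intro q hq q' hq' i hi hi'
        rcases hcmp q hq q' hq' with h1 | h1
        · exact h1.2 i hi
        · exact (h1.2 i hi').symm
      let DU : Set I := {i | ∃ q ∈ C, i ∈ q.1.1}
      let yU : I → P := fun i => if h : ∃ q ∈ C, i ∈ q.1.1 then h.choose.1.2 i else 0
      have hyU : ∀ q ∈ C, ∀ i ∈ q.1.1, yU i = q.1.2 i := by
        intro q hq i hi
        have h : ∃ q ∈ C, i ∈ q.1.1 := ⟨q, hq, hi⟩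
        show (if h : ∃ q ∈ C, i ∈ q.1.1 then h.choose.1.2 i else 0) = _
        rw [dif_pos h]
        exact hag _ h.choose_spec.1 q hq i h.choose_spec.2 hi
      have hfin : ∀ T : Finset I, (∀ i ∈ T, i ∈ DU) → ∃ q ∈ C, ∀ i ∈ T, i ∈ q.1.1 := by
        intro T
        induction T using Finset.induction_on with
        | empty => exact fun _ => ⟨q₀, hq₀, by simp⟩
        | insert i T hiT ih =>
          intro hT
          obtain ⟨q, hq, hqT⟩ := ih (fun i hi => hT i (Finset.mem_insert_of_mem hi))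
          obtain ⟨q', hq', hqi⟩ := hT i (Finset.mem_insert_self _ _)
          rcases hcmp q hq q' hq' with h1 | h1
          · refine ⟨q', hq', fun k hk => ?_⟩
            rcases Finset.mem_insert.mp hk with rfl | hk
            · exact hqi
            · exact h1.1 (hqT k hk)
          · refine ⟨q, hq, fun k hk => ?_⟩
            rcases Finset.mem_insert.mp hk with rfl | hk
            · exact h1.1 hqi
            · exact hqT k hk
      have hgood : zxGood a c (DU, yU) := by
        intro s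
        let U : Finset I := s.biUnion (fun j => (a j).support)
        obtain ⟨q, hq, hqU⟩ := hfin (U.filter (fun i => i ∈ DU))
          (fun i hi => (Finset.mem_filter.mp hi).2)
        obtain ⟨z, hz1, hz2⟩ := q.2 s
        refine ⟨fun i => if i ∈ DU then yU i else z i, fun i hi => if_pos hi, fun j hj => ?_⟩
        rw [← hz2 j hj]
        apply Finsupp.sum_congr
        intro i hi
        have hiU : i ∈ U := Finset.mem_biUnion.mpr ⟨j, hj, hi⟩
        by_cases hD : i ∈ DU
        · have h1 := hqU i (Finset.mem_filter.mpr ⟨hiU, hD⟩)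
          show (a j) i • (if i ∈ DU then yU i else z i) = (a j) i • z i
          rw [if_pos hD, hyU q hq i h1, hz1 i h1]
        · show (a j) i • (if i ∈ DU then yU i else z i) = (a j) i • z i
          rw [if_neg hD]
      exact ⟨⟨(DU, yU), hgood⟩, fun q hq =>
        ⟨fun i hi => ⟨q, hq, hi⟩, fun i hi => (hyU q hq i hi).symm⟩⟩
  obtain ⟨m, hm⟩ := exists_maximal_of_chains_bounded hchain
    (fun {p q r} h1 h2 => ⟨h1.1.trans h2.1, fun i hi => (h1.2 i hi).trans (h2.2 i (h1.1 hi))⟩)
  have huniv : ∀ i, i ∈ m.1.1 := by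
    intro i₀
    by_contra hi₀
    obtain ⟨s₀, hs₀⟩ := zxH_dcc hconj hdcc (P := P) a m.1.1 i₀ hi₀
    obtain ⟨z₀, hz₀1, hz₀2⟩ := m.2 s₀
    have hC : ∀ t : Finset J, ∃ z : I → P, (∀ i ∈ m.1.1, z i = m.1.2 i) ∧
        (∀ j ∈ t, (a j).sum (fun i r => r • z i) = c j) ∧ z i₀ = z₀ i₀ := by
      intro t
      obtain ⟨z, hz1, hz2⟩ := m.2 (s₀ ∪ t)
      have hH : z₀ i₀ - z i₀ ∈ zxH (P := P) a m.1.1 i₀ s₀ := by
        refine ⟨fun i => z₀ i - z i, fun i hi => by
          show z₀ i - z i = 0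
          rw [hz₀1 i hi, hz1 i hi, sub_self],
          fun j hj => ?_, rfl⟩
        have h1 : (a j).sum (fun i r => r • (z₀ i - z i)) =
            (a j).sum (fun i r => r • z₀ i) - (a j).sum (fun i r => r • z i) := by
          rw [← Finsupp.sum_sub]
          exact Finsupp.sum_congr fun i _ => smul_sub _ _ _
        rw [h1, hz₀2 j hj, hz2 j (Finset.mem_union_left _ hj), sub_self]
      obtain ⟨u, hu1, hu2, hu3⟩ := hs₀ t hH
      refine ⟨fun i => z i + u i, fun i hi => by
        show z i + u i = m.1.2 i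
        rw [hz1 i hi, hu1 i hi, add_zero],
        fun j hj => ?_, by simp [hu3]⟩
      have h1 : (a j).sum (fun i r => r • (z i + u i)) =
          (a j).sum (fun i r => r • z i) + (a j).sum (fun i r => r • u i) := by
        rw [← Finsupp.sum_add]
        exact Finsupp.sum_congr fun i _ => smul_add _ _ _
      rw [h1, hz2 j (Finset.mem_union_right _ hj), hu2 j hj, add_zero]
    have hq' : zxGood a c (insert i₀ m.1.1, Function.update m.1.2 i₀ (z₀ i₀)) := by
      intro t
      obtain ⟨z, hz1, hz2, hz3⟩ := hC t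
      refine ⟨z, fun i hi => ?_, hz2⟩
      rcases hi with rfl | hi
      · show z i = Function.update m.1.2 i (z₀ i) i
        rw [Function.update_self, hz3]
      · have hne : i ≠ i₀ := by rintro rfl; exact hi₀ hi
        show z i = Function.update m.1.2 i₀ (z₀ i₀) i
        rw [Function.update_of_ne hne, hz1 i hi]
    have h2 := hm ⟨_, hq'⟩ ⟨Set.subset_insert _ _, fun i hi => by
      have hne : i ≠ i₀ := by rintro rfl; exact hi₀ hi
      show m.1.2 i = Function.update m.1.2 i₀ (z₀ i₀) i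
      rw [Function.update_of_ne hne]⟩
    exact hi₀ (h2.1 (Set.mem_insert _ _))
  refine ⟨m.1.2, fun j => ?_⟩
  obtain ⟨z, hz1, hz2⟩ := m.2 {j}
  have hz : z = m.1.2 := funext fun i => hz1 i (huniv i)
  rw [← hz]
  exact hz2 j (Finset.mem_singleton_self j)

theorem pureInjective_of_compact (P : Type u) [AddCommGroup P] [Module R P]
    (hcomp : ∀ (I J : Type u) (a : J → (I →₀ R)) (c : J → P),
      (∀ s : Finset J, ∃ z : I → P, ∀ j ∈ s, (a j).sum (fun i r => r • z i) = c j) →
      ∃ z : I → P, ∀ j, (a j).sum (fun i r => r • z i) = c j) : IsPureInjective R P := by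
  classical
  intro A B _ _ _ _ i hi g
  let a : ((B × B) ⊕ ((R × B) ⊕ A)) → (B →₀ R) :=
    Sum.elim (fun p => Finsupp.single (p.1 + p.2) 1 - Finsupp.single p.1 1 - Finsupp.single p.2 1)
      (Sum.elim (fun p => Finsupp.single (p.1 • p.2) 1 - Finsupp.single p.2 p.1)
        (fun x => Finsupp.single (i x) 1))
  let cA : ((B × B) ⊕ ((R × B) ⊕ A)) → A := Sum.elim (fun _ => 0) (Sum.elim (fun _ => 0) id)
  have hev : ∀ (Q : Type u) [AddCommGroup Q] [Module R Q] (z : B → Q) (b : B) (r : R),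
      (Finsupp.single b r).sum (fun i r => r • z i) = r • z b := by
    intro Q _ _ z b r
    exact Finsupp.sum_single_index (zero_smul R _)
  have hsub : ∀ (Q : Type u) [AddCommGroup Q] [Module R Q] (z : B → Q) (f f' : B →₀ R),
      (f - f').sum (fun i r => r • z i) = f.sum (fun i r => r • z i) - f'.sum (fun i r => r • z i) := by
    intro Q _ _ z f f'
    exact Finsupp.sum_sub_index (fun i r r' => sub_smul r r' (z i))
  obtain ⟨z, hz⟩ := hcomp B ((B × B) ⊕ ((R × B) ⊕ A)) a (fun j => g (cA j)) (by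
    intro s
    let U : Finset B := s.biUnion (fun j => (a j).support)
    have hU : ∀ j ∈ s, (a j).support ⊆ U := fun j hj i hi => Finset.mem_biUnion.mpr ⟨j, hj, hi⟩
    obtain ⟨w, hw⟩ := zx_pure hi (ι := U) (κ := s) (fun j b => a j b) (fun j => cA j)
      ⟨fun b => (b : B), fun j => by
        rw [← zx_sum_eq (a j) U (hU j j.2) (fun b => b)]
        rcases j with ⟨p | p | x, hj⟩
        · simp only [a, cA, Sum.elim_inl]
          rw [hsub, hsub, hev, hev, hev]
          simp
        · simp only [a, cA, Sum.elim_inl, Sum.elim_inr]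
          rw [hsub, hev, hev]
          simp
        · simp only [a, cA, Sum.elim_inr]
          rw [hev]
          simp⟩
    refine ⟨fun b => if hb : b ∈ U then g (w ⟨b, hb⟩) else 0, fun j hj => ?_⟩
    rw [zx_sum_eq (a j) U (hU j hj)]
    have h1 := hw ⟨j, hj⟩
    rw [← h1, map_sum]
    refine Finset.sum_congr rfl fun b _ => ?_
    simp)
  have hadd : ∀ b b', z (b + b') = z b + z b' := by
    intro b b'
    have h1 := hz (Sum.inl (b, b'))
    simp only [a, cA, Sum.elim_inl] at h1
    rw [hsub, hsub, hev, hev, hev] at h1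
    simp only [one_smul, map_zero] at h1
    rw [sub_sub, sub_eq_zero] at h1
    exact h1
  have hsmul : ∀ (r : R) b, z (r • b) = r • z b := by
    intro r b
    have h1 := hz (Sum.inr (Sum.inl (r, b)))
    simp only [a, cA, Sum.elim_inl, Sum.elim_inr] at h1
    rw [hsub, hev, hev] at h1
    simp only [one_smul, map_zero] at h1
    rw [sub_eq_zero] at h1
    exact h1
  refine ⟨{ toFun := z, map_add' := hadd, map_smul' := hsmul }, ?_⟩
  ext x
  have h1 := hz (Sum.inr (Sum.inr x))
  simp only [a, cA, Sum.elim_inr] at h1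
  rw [hev] at h1
  simpa using h1
end

end ZIso
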