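import Pool.Agent.Helper462.Iso.Defs2

namespace ZIso

universe u

open Zg


section
variable {R : Type u} [Ring R]

theorem sol_zero_k6 {N : Type u} [AddCommGroup N] [Module R N] (θ : PPFormula R) :
    (0 : N) ∈ θ.sol N := ⟨fun _ => 0, fun j => by simp⟩

theorem sol_sub_k6 {N : Type u} [AddCommGroup N] [Module R N] (θ : PPFormula R) {v w : N}
    (hv : v ∈ θ.sol N) (hw : w ∈ θ.sol N) : v - w ∈ θ.sol N := by
  obtain ⟨z, hz⟩ := hv
  obtain ⟨y, hy⟩ := hw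
  refine ⟨fun i => z i - y i, fun j => ?_⟩
  simp only [smul_sub, Finset.sum_sub_distrib]
  rw [hz j, hy j]

theorem sol_neg_k6 {N : Type u} [AddCommGroup N] [Module R N] (θ : PPFormula R) {v : N}
    (hv : v ∈ θ.sol N) : -v ∈ θ.sol N := by
  simpa using sol_sub_k6 θ (sol_zero_k6 θ) hv

theorem sol_add_k6 {N : Type u} [AddCommGroup N] [Module R N] (θ : PPFormula R) {v w : N}
    (hv : v ∈ θ.sol N) (hw : w ∈ θ.sol N) : v + w ∈ θ.sol N := by
  simpa using sol_sub_k6 θ hv (sol_neg_k6 θ hw)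

theorem solvable_map {N N' : Type u} [AddCommGroup N] [Module R N] [AddCommGroup N']
    [Module R N'] (f : N →ₗ[R] N') {m l : ℕ} (B : Fin l → Fin m → R) {c : Fin l → N}
    (h : Solvable B c) : Solvable B (fun j => f (c j)) := by
  obtain ⟨z, hz⟩ := h
  refine ⟨fun i => f (z i), fun j => ?_⟩
  change ∑ i, B j i • f (z i) = f (c j)
  rw [← hz j, map_sum]
  simp

theorem sol_map_k6 {N N' : Type u} [AddCommGroup N] [Module R N] [AddCommGroup N'] [Module R N']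
    (f : N →ₗ[R] N') (θ : PPFormula R) {v : N} (hv : v ∈ θ.sol N) : f v ∈ θ.sol N' := by
  have := solvable_map f θ.B hv
  simpa [PPFormula.sol] using this

theorem exists_pure_of_pair
    (hcomp : ∀ (P : Type u) [AddCommGroup P] [Module R P], IsPureInjective R P →
      ∀ (I J : Type u) (a : J → (I →₀ R)) (c : J → P),
      (∀ s : Finset J, ∃ z : I → P, ∀ j ∈ s, (a j).sum (fun i r => r • z i) = c j) →
      ∃ z : I → P, ∀ j, (a j).sum (fun i r => r • z i) = c j)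
    (hstar : ∀ (N Q : Type u) [AddCommGroup N] [Module R N] [AddCommGroup Q] [Module R Q],
      IsPureInjective R N → IsIndecomposable R N → ∀ x : N, x ≠ 0 → ∀ h : N →ₗ[R] Q,
      (∀ θ : PPFormula R, h x ∈ θ.sol Q → x ∈ θ.sol N) → IsPureEmbedding h)
    (hhom : ∀ (N N' : Type u) [AddCommGroup N] [Module R N] [AddCommGroup N'] [Module R N'],
      IsPureInjective R N' → ∀ (ψ : PPFormula R) (x : N) (x' : N'),
      (∀ θ : PPFormula R, x ∈ θ.sol N → ∃ y ∈ ψ.sol N', x' - y ∈ θ.sol N') →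
      ∃ f : N →ₗ[R] N', ∃ y ∈ ψ.sol N', f x = x' - y)
    (hmaxt : ∀ (N : Type u) [AddCommGroup N] [Module R N], IsPureInjective R N →
      ∀ (ψ : PPFormula R) (x : N),
      ∃ x₀ : N, x - x₀ ∈ ψ.sol N ∧ ∀ x₁ : N, x₀ - x₁ ∈ ψ.sol N →
        (∀ θ : PPFormula R, x₀ ∈ θ.sol N → x₁ ∈ θ.sol N) →
        ∀ θ : PPFormula R, x₁ ∈ θ.sol N → x₀ ∈ θ.sol N)
    (hconj : ∀ θ θ' : PPFormula R, ∃ κ : PPFormula R,
      ∀ (N : Type u) [AddCommGroup N] [Module R N] (v : N),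
        v ∈ κ.sol N ↔ v ∈ θ.sol N ∧ v ∈ θ'.sol N)
    {N N' : Type u} [AddCommGroup N] [Module R N] [AddCommGroup N'] [Module R N']
    (hN : IsPureInjective R N) (hNi : IsIndecomposable R N)
    (hN' : IsPureInjective R N')
    (φ ψ : PPFormula R) (hs : Simp φ ψ)
    (ho : ¬ φ.sol N ⊆ ψ.sol N) (ho' : ¬ φ.sol N' ⊆ ψ.sol N') :
    ∃ f : N →ₗ[R] N', IsPureEmbedding f := by
  obtain ⟨ψ', hψ'⟩ := hconj φ ψ
  have hle : ψ'.sol N ⊆ φ.sol N := fun v hv => ((hψ' N v).mp hv).1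
  have hle' : ψ'.sol N' ⊆ φ.sol N' := fun v hv => ((hψ' N' v).mp hv).1
  have hd : ∀ θ : PPFormula R,
      (∀ (M : Type u) [AddCommGroup M] [Module R M] (v : M), v ∈ φ.sol M → v ∈ θ.sol M →
        v ∈ ψ'.sol M) ∨
      (∀ (M : Type u) [AddCommGroup M] [Module R M] (v : M), v ∈ φ.sol M →
        ∃ w ∈ θ.sol M, v - w ∈ ψ'.sol M) := by
    intro θ
    obtain ⟨κ, hκ⟩ := hconj θ φ
    rcases hs κ (fun M _ _ v hv => ((hκ M v).mp hv).2) with h | h
    · left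
      intro M _ _ v hv hv'
      exact (hψ' M v).mpr ⟨hv, h M ((hκ M v).mpr ⟨hv', hv⟩)⟩
    · right
      intro M _ _ v hv
      obtain ⟨w, hw, hvw⟩ := h M v hv
      have hw' := (hκ M w).mp hw
      exact ⟨w, hw'.1, (hψ' M _).mpr ⟨sol_sub_k6 φ hv hw'.2, hvw⟩⟩
  obtain ⟨x, hxφ, hxψ⟩ := Set.not_subset.1 ho
  obtain ⟨x', hxφ', hxψ'⟩ := Set.not_subset.1 ho'
  have hxψ1 : x ∉ ψ'.sol N := fun h => hxψ ((hψ' N x).mp h).2
  have hxψ2 : x' ∉ ψ'.sol N' := fun h => hxψ' ((hψ' N' x').mp h).2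
  obtain ⟨x₀, hx₀, hmax⟩ := hmaxt N hN ψ' x
  have hx₀φ : x₀ ∈ φ.sol N := by
    have := sol_sub_k6 φ hxφ (hle hx₀)
    simpa using this
  have hx₀ψ : x₀ ∉ ψ'.sol N := by
    intro h
    have := sol_add_k6 ψ' hx₀ h
    exact hxψ1 (by simpa using this)
  have hx₀0 : x₀ ≠ 0 := by
    rintro rfl
    exact hx₀ψ (sol_zero_k6 ψ')
  obtain ⟨f, y', hy', hf⟩ := hhom N N' hN' ψ' x₀ x' (by
    intro θ hθ
    rcases hd θ with h | h
    · exact absurd (h N x₀ hx₀φ hθ) hx₀ψ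
    · obtain ⟨w, hw, hw2⟩ := h N' x' hxφ'
      exact ⟨x' - w, hw2, by simpa using hw⟩)
  have hfφ : f x₀ ∈ φ.sol N' := by
    rw [hf]
    exact sol_sub_k6 φ hxφ' (hle' hy')
  have hfψ : f x₀ ∉ ψ'.sol N' := by
    intro h
    rw [hf] at h
    have := sol_add_k6 ψ' h hy'
    exact hxψ2 (by simpa using this)
  obtain ⟨g, y, hy, hg⟩ := hhom N' N hN ψ' (f x₀) x₀ (by
    intro θ hθ
    rcases hd θ with h | h
    · exact absurd (h N' _ hfφ hθ) hfψ
    · obtain ⟨w, hw, hw2⟩ := h N x₀ hx₀φ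
      exact ⟨x₀ - w, hw2, by simpa using hw⟩)
  have hpure : IsPureEmbedding (g ∘ₗ f) := by
    apply hstar N N hN hNi x₀ hx₀0
    apply hmax
    · rw [LinearMap.comp_apply, hg]
      simpa using hy
    · intro θ hθ
      exact sol_map_k6 _ θ hθ
  refine ⟨f, fun p q hpq => hpure.1 (by simp [hpq]), ?_⟩
  intro m l r c hc
  exact hpure.2 m l r c (solvable_map g r hc)

/-- finitely many pairs detect all nonzero modules, if the formula `x = x` has finite length -/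
theorem FL.pairs {θ : PPFormula R} (h : FL θ) :
    ∃ (n : ℕ) (p : Fin n → PPFormula R × PPFormula R), (∀ i, Simp (p i).1 (p i).2) ∧
      ∀ (M : Type u) [AddCommGroup M] [Module R M] (v : M), v ∈ θ.sol M → v ≠ 0 →
        ∃ i, ¬ (p i).1.sol M ⊆ (p i).2.sol M := by
  induction h with
  | zero θ h =>
    refine ⟨0, Fin.elim0, fun i => Fin.elim0 i, ?_⟩
    intro M _ _ v hv hv0
    exact absurd (h M v hv) hv0
  | step θ ψ h h' ih =>
    obtain ⟨n, p, hp1, hp2⟩ := ih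
    refine ⟨n + 1, Fin.cons (θ, ψ) p, ?_, ?_⟩
    · intro i
      refine Fin.cases ?_ (fun j => ?_) i
      · simpa using h'
      · simpa using hp1 j
    · intro M _ _ v hv hv0
      by_cases hsub : θ.sol M ⊆ ψ.sol M
      · obtain ⟨i, hi⟩ := hp2 M v (hsub hv) hv0
        exact ⟨i.succ, by simpa using hi⟩
      · exact ⟨0, by simpa using hsub⟩
end

end ZIso
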