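import Pool.Agent.Helper462.Iso.Defs2

namespace ZIso

universe u

open Zg

section
variable {R : Type u} [Ring R]

theorem isPureEmbedding_of_retraction {M : Type u} [AddCommGroup M] [Module R M]
    (W : Submodule R M) (r : M →ₗ[R] W) (hr : ∀ w : W, r w = w) : IsPureEmbedding W.subtype := by
  refine ⟨W.subtype_injective, ?_⟩
  rintro m l B c ⟨z, hz⟩
  refine ⟨fun i => r (z i), fun j => ?_⟩
  have h := congrArg r (hz j)
  rw [map_sum] at h
  simp only [map_smul] at h
  rw [h]
  exact hr (c j)

theorem isIndecomposable_of_equiv {N C : Type u} [AddCommGroup N] [Module R N] [AddCommGroup C]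
    [Module R C] (e : N ≃ₗ[R] C) (h : IsIndecomposable R N) : IsIndecomposable R C := by
  obtain ⟨h1, h2⟩ := h
  refine ⟨e.symm.toEquiv.nontrivial, ?_⟩
  intro N₁ N₂ h12
  have h3 : IsCompl (N₁.comap (e : N →ₗ[R] C)) (N₂.comap (e : N →ₗ[R] C)) := by
    have := (Submodule.orderIsoMapComap e).symm.isCompl h12
    simpa using this
  rcases h2 _ _ h3 with h | h
  · left
    rw [eq_bot_iff]
    intro x hx
    have : e.symm x ∈ N₁.comap (e : N →ₗ[R] C) := by simpa using hx
    rw [h] at this
    simpa using this
  · right
    rw [eq_bot_iff]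
    intro x hx
    have : e.symm x ∈ N₂.comap (e : N →ₗ[R] C) := by simpa using hx
    rw [h] at this
    simpa using this

theorem sSupIndep_insert' {M : Type u} [AddCommGroup M] [Module R M] {S : Set (Submodule R M)}
    (hS : sSupIndep S) (C : Submodule R M) (hC : Disjoint C (sSup S)) : sSupIndep (insert C S) := by
  intro D hD
  by_cases hDC : D = C
  · subst hDC
    refine hC.mono_right (sSup_le_sSup ?_)
    intro x hx
    rcases hx.1 with h | h
    · exact absurd h hx.2
    · exact h
  · have hDS : D ∈ S := by
      rcases hD with h | h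
      · exact absurd h hDC
      · exact h
    have h1 : sSup (insert C S \ {D}) ≤ sSup (S \ {D}) ⊔ C := by
      apply sSup_le
      rintro x ⟨hx1, hx2⟩
      rcases hx1 with h | h
      · rw [h]; exact le_sup_right
      · exact (le_sSup (show x ∈ S \ {D} from ⟨h, hx2⟩)).trans le_sup_left
    refine Disjoint.mono_right h1 ?_
    apply Disjoint.disjoint_sup_right_of_disjoint_sup_left (hS hDS)
    refine (hC.symm).mono_left ?_
    exact sup_le (le_sSup hDS) (sSup_le_sSup Set.sdiff_subset)

theorem exists_decomposition
    (hPI : ∀ (M : Type u) [AddCommGroup M] [Module R M], IsPureInjective R M)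
    (hsub : ∀ (M : Type u) [AddCommGroup M] [Module R M], Nontrivial M →
      ∃ (N : Type u) (_ : AddCommGroup N) (_ : Module R N) (f : N →ₗ[R] M),
        IsIndecomposable R N ∧ IsPureEmbedding f)
    (M : Type u) [AddCommGroup M] [Module R M] :
    ∃ (S : Set (Submodule R M)), iSupIndep (fun C : S => (C : Submodule R M)) ∧
      (⨆ C : S, (C : Submodule R M)) = ⊤ ∧ ∀ C ∈ S, IsIndecomposable R C := by
  classical
  let Good : Set (Set (Submodule R M)) := {S | sSupIndep S ∧ (∀ C ∈ S, IsIndecomposable R C) ∧
    IsPureEmbedding (sSup S).subtype}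
  have hempty : (∅ : Set (Submodule R M)) ∈ Good := by
    refine ⟨sSupIndep_empty, by simp, ?_⟩
    refine ⟨Submodule.subtype_injective _, ?_⟩
    intro m l B c _
    refine ⟨fun _ => 0, fun j => ?_⟩
    have hc : c j = 0 := by
      have h : ((c j : M)) ∈ (⊥ : Submodule R M) := by
        have h0 : sSup (∅ : Set (Submodule R M)) ≤ ⊥ := by rw [sSup_empty]
        exact h0 (c j).2
      rw [Submodule.mem_bot] at h
      exact Subtype.ext h
    simp [hc]
  obtain ⟨S, -, hmax⟩ := zorn_subset_nonempty Good (by
    intro c hc hchain hne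
    refine ⟨⋃₀ c, ⟨?_, ?_, ?_⟩, fun s hs => Set.subset_sUnion_of_mem hs⟩
    · exact iSupIndep_sUnion_of_directed hchain.directedOn (fun a ha => (hc ha).1)
    · rintro C ⟨s, hs, hCs⟩
      exact (hc hs).2.1 C hCs
    · refine ⟨Submodule.subtype_injective _, ?_⟩
      intro m l B k hsol
      have : Nonempty c := hne.to_subtype
      have hdir : Directed (· ≤ ·) (fun s : c => sSup (s : Set (Submodule R M))) := by
        intro s t
        rcases hchain.total s.2 t.2 with h | h
        · exact ⟨t, sSup_le_sSup h, le_refl _⟩
        · exact ⟨s, le_refl _, sSup_le_sSup h⟩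
      have hEq : sSup (⋃₀ c) = ⨆ s : c, sSup (s : Set (Submodule R M)) := by
        rw [sSup_sUnion, iSup_subtype']
      have hmem : ∀ j, ∃ s : c, ((k j : M)) ∈ sSup (s : Set (Submodule R M)) := by
        intro j
        have h : ((k j : M)) ∈ (⨆ s : c, sSup (s : Set (Submodule R M))) := hEq.le (k j).2
        exact (Submodule.mem_iSup_of_directed _ hdir).1 h
      choose s hs using hmem
      obtain ⟨t, ht⟩ := hdir.finset_le (Finset.univ.image s)
      have ht' : ∀ j, ((k j : M)) ∈ sSup (t : Set (Submodule R M)) := fun j =>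
        ht (s j) (Finset.mem_image_of_mem _ (Finset.mem_univ j)) (hs j)
      obtain ⟨z, hz⟩ := (hc t.2).2.2.2 m l B (fun j => ⟨k j, ht' j⟩) hsol
      have hle : sSup (t : Set (Submodule R M)) ≤ sSup (⋃₀ c) :=
        sSup_le_sSup (Set.subset_sUnion_of_mem t.2)
      refine ⟨fun i => ⟨z i, hle (z i).2⟩, fun j => ?_⟩
      have h := congrArg (fun x : (sSup (t : Set (Submodule R M)) : Submodule R M) => (x : M)) (hz j)
      apply Subtype.ext
      simpa using h) ∅ hempty
  obtain ⟨hind, hindec, hpure⟩ := hmax.prop
  -- the retraction onto `sSup S`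
  obtain ⟨h, hh⟩ := hPI (sSup S : Submodule R M) (sSup S : Submodule R M) M (sSup S).subtype hpure
    LinearMap.id
  have hh' : ∀ w : (sSup S : Submodule R M), h w = w := fun w => by
    have := congrArg (fun φ => φ w) hh
    simpa using this
  have htop : sSup S = ⊤ := by
    by_contra hne
    have hK : Nontrivial (LinearMap.ker h) := by
      rw [Submodule.nontrivial_iff_ne_bot]
      intro hbot
      apply hne
      rw [eq_top_iff]
      intro x _
      have hx : x - (h x : M) ∈ LinearMap.ker h := by
        rw [LinearMap.mem_ker, map_sub, hh', sub_self]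
      rw [hbot, Submodule.mem_bot, sub_eq_zero] at hx
      rw [hx]
      exact (h x).2
    obtain ⟨N, iN, mN, f, hN, hf⟩ := hsub (LinearMap.ker h) hK
    obtain ⟨g, hg⟩ := hPI N N (LinearMap.ker h) f hf LinearMap.id
    have hg' : ∀ v : N, g (f v) = v := fun v => by
      have := congrArg (fun φ => φ v) hg
      simpa using this
    let F : N →ₗ[R] M := (LinearMap.ker h).subtype ∘ₗ f
    have hFinj : Function.Injective F := (LinearMap.ker h).subtype_injective.comp hf.1
    let C : Submodule R M := LinearMap.range F
    let e : N ≃ₗ[R] C := LinearEquiv.ofInjective F hFinj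
    have hCind : IsIndecomposable R C := isIndecomposable_of_equiv e hN
    have hCK : C ≤ LinearMap.ker h := by
      rintro x ⟨v, rfl⟩
      exact (f v).2
    have hdisj : Disjoint C (sSup S) := by
      rw [Submodule.disjoint_def]
      intro x hxC hxS
      have h1 : h x = 0 := hCK hxC
      have h2 := hh' ⟨x, hxS⟩
      simp only at h2
      rw [h1] at h2
      exact (congrArg Subtype.val h2).symm
    have hCbot : C ≠ ⊥ := by
      intro hb
      have := hCind.1
      rw [Submodule.nontrivial_iff_ne_bot] at this
      exact this hb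
    have hCS : C ∉ S := by
      intro hmem
      apply hCbot
      have := hdisj.mono_right (le_sSup hmem)
      exact disjoint_self.1 this
    let π : M →ₗ[R] LinearMap.ker h :=
      LinearMap.codRestrict (LinearMap.ker h) (LinearMap.id - (sSup S).subtype ∘ₗ h) (by
        intro x
        rw [LinearMap.mem_ker, LinearMap.sub_apply, map_sub]
        simp only [LinearMap.id_apply, LinearMap.comp_apply, Submodule.subtype_apply]
        rw [hh', sub_self])
    have hπ : ∀ x, (π x : M) = x - h x := fun x => rfl
    let p : M →ₗ[R] M := (sSup S).subtype ∘ₗ h + F ∘ₗ g ∘ₗ π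
    have hp : ∀ x, p x = h x + F (g (π x)) := fun x => rfl
    have hpmem : ∀ x, p x ∈ sSup (insert C S) := by
      intro x
      rw [hp, sSup_insert]
      exact Submodule.add_mem _ (Submodule.mem_sup_right (h x).2)
        (Submodule.mem_sup_left ⟨_, rfl⟩)
    have hpC : ∀ x ∈ C, p x = x := by
      rintro x ⟨v, rfl⟩
      have h1 : h (F v) = 0 := (f v).2
      have h2 : π (F v) = f v := by
        apply Subtype.ext
        rw [hπ, h1]
        simp [F]
      rw [hp, h1, h2, hg']
      simp
    have hpS : ∀ x ∈ sSup S, p x = x := by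
      intro x hx
      have h1 : (h x : M) = x := congrArg Subtype.val (hh' ⟨x, hx⟩)
      have h2 : π x = 0 := by
        apply Subtype.ext
        rw [hπ, h1, sub_self]
        rfl
      rw [hp, h1, h2]
      simp
    have hpfix : ∀ x ∈ sSup (insert C S), p x = x := by
      intro x hx
      rw [sSup_insert, Submodule.mem_sup] at hx
      obtain ⟨y, hy, z, hz, rfl⟩ := hx
      rw [map_add, hpC y hy, hpS z hz]
    have hgood : insert C S ∈ Good := by
      refine ⟨sSupIndep_insert' hind C hdisj, ?_, ?_⟩
      · rintro D (hD | hD)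
        · rw [hD]; exact hCind
        · exact hindec D hD
      · refine isPureEmbedding_of_retraction _ (LinearMap.codRestrict _ p hpmem) ?_
        intro w
        apply Subtype.ext
        exact hpfix w w.2
    have := hmax.le_of_ge hgood (Set.subset_insert _ _)
    exact hCS (this (Set.mem_insert _ _))
  refine ⟨S, (sSupIndep_iff S).1 hind, ?_, hindec⟩
  rw [← sSup_eq_iSup', htop]

end

end ZIso
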