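import Pool.Agent.Helper462.Iso.Defs2

namespace ZIso

universe u

open Zg

section
variable {R : Type u} [Ring R]

theorem exists_free_realization_fp (θ : PPFormula R) :
    ∃ (F : Type u) (_ : AddCommGroup F) (_ : Module R F) (_ : Module.FinitePresentation R F)
      (e : F), ∀ (N : Type u) [AddCommGroup N] [Module R N] (v : N),
        v ∈ θ.sol N ↔ ∃ f : F →ₗ[R] N, f e = v := by
  classical
  let K : Submodule R ((Fin θ.m → R) × R) :=
    Submodule.span R (Set.range fun j : Fin θ.l => (θ.B j, -θ.a j))
  have hKfg : K.FG := Submodule.fg_span (Set.finite_range _)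
  have hfp0 : Module.FinitePresentation R ((Fin θ.m → R) × R) :=
    Module.finitePresentation_of_projective R _
  have hfp : Module.FinitePresentation R (((Fin θ.m → R) × R) ⧸ K) :=
    Module.finitePresentation_of_surjective K.mkQ (Submodule.mkQ_surjective K)
      (by rw [Submodule.ker_mkQ]; exact hKfg)
  refine ⟨((Fin θ.m → R) × R) ⧸ K, inferInstance, inferInstance, hfp, K.mkQ (0, 1), ?_⟩
  intro N _ _ v
  constructor
  · rintro ⟨z, hz⟩
    let g : ((Fin θ.m → R) × R) →ₗ[R] N :=
      (Fintype.linearCombination R z).coprod (LinearMap.toSpanSingleton R N v)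
    have hg : K ≤ LinearMap.ker g := by
      rw [Submodule.span_le]
      rintro _ ⟨j, rfl⟩
      rw [SetLike.mem_coe, LinearMap.mem_ker]
      simp only [g, LinearMap.coprod_apply, Fintype.linearCombination_apply,
        LinearMap.toSpanSingleton_apply, neg_smul]
      rw [hz j]
      exact add_neg_cancel _
    refine ⟨K.liftQ g hg, ?_⟩
    rw [Submodule.mkQ_apply, Submodule.liftQ_apply]
    simp [g]
  · rintro ⟨f, hf⟩
    refine ⟨fun i => f (K.mkQ (Pi.single i 1, 0)), fun j => ?_⟩
    have h1 : ∑ i, θ.B j i • f (K.mkQ (Pi.single i 1, 0)) = f (K.mkQ (θ.B j, 0)) := by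
      simp only [← map_smul, ← map_sum]
      congr 2
      apply Prod.ext
      · rw [Prod.fst_sum]
        simp only [Prod.smul_fst]
        funext k
        rw [Finset.sum_apply]
        simp [Pi.single_apply]
      · rw [Prod.snd_sum]
        simp
    have h2 : θ.a j • v = f (K.mkQ (0, θ.a j)) := by
      rw [← hf, ← map_smul, ← map_smul]
      congr 2
      simp
    have h3 : f (K.mkQ (θ.B j, 0)) - f (K.mkQ (0, θ.a j)) = 0 := by
      rw [← map_sub, ← map_sub]
      have h4 : ((θ.B j, 0) : (Fin θ.m → R) × R) - (0, θ.a j) = (θ.B j, -θ.a j) := by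
        simp
      rw [h4]
      have h5 : K.mkQ (θ.B j, -θ.a j) = 0 := by
        rw [Submodule.mkQ_apply, Submodule.Quotient.mk_eq_zero]
        exact Submodule.subset_span ⟨j, rfl⟩
      rw [h5, map_zero]
    rw [h1]
    change _ = θ.a j • v
    rw [h2]
    exact sub_eq_zero.1 h3

theorem finitePresentation_of_pure {N C : Type u} [AddCommGroup N] [Module R N]
    [AddCommGroup C] [Module R C] [Module.FinitePresentation R C]
    (hN : IsPureInjective R N) (f : N →ₗ[R] C) (hf : IsPureEmbedding f) :
    Module.FinitePresentation R N := by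
  obtain ⟨r, hr⟩ := hN N C f hf LinearMap.id
  have hr' : ∀ x, r (f x) = x := fun x => LinearMap.congr_fun hr x
  refine Module.finitePresentation_of_surjective r (fun x => ⟨f x, hr' x⟩) ?_
  have h1 : LinearMap.ker r = LinearMap.range (LinearMap.id - f ∘ₗ r) := by
    apply le_antisymm
    · intro x hx
      rw [LinearMap.mem_ker] at hx
      refine ⟨x, ?_⟩
      simp [hx]
    · rintro _ ⟨x, rfl⟩
      rw [LinearMap.mem_ker]
      simp [hr']
  rw [h1, LinearMap.range_eq_map]
  exact Module.Finite.fg_top.map _
end


end ZIso
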