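import Pool.Agent.Helper462.Iso.Main
import Pool.Agent.Helper462.Iso.K1
import Pool.Agent.Helper462.Iso.K3
import Pool.Agent.Helper462.Iso.K4
import Pool.Agent.Helper462.Iso.K5
import Pool.Agent.Helper462.Iso.K6
import Pool.Agent.Helper462.Iso.K7
import Pool.Agent.Helper462.Iso.K8

/-!
# A discrete Ziegler spectrum implies finite representation type
-/

namespace ZIso

universe u

open Zg

/-- `R` (left modules) is of finite representation type: every module is a direct sum of
indecomposable finitely presented modules, and there are only finitely many indecomposable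
finitely presented modules up to isomorphism. -/
def IsFinRepType (R : Type u) [Ring R] : Prop :=
  (∀ (M : Type u) [AddCommGroup M] [Module R M], ∃ S : Set (Submodule R M),
    iSupIndep (fun C : S => (C : Submodule R M)) ∧ (⨆ C : S, (C : Submodule R M)) = ⊤ ∧
      ∀ C ∈ S, IsIndecomposable R C ∧ Module.FinitePresentation R C) ∧
  ∃ (n : ℕ) (F : Fin n → ModuleCat.{u} R), ∀ (M : Type u) [AddCommGroup M] [Module R M],
    Module.FinitePresentation R M → IsIndecomposable R M → ∃ i, Nonempty (F i ≃ₗ[R] M)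

section
variable {R : Type u} [Ring R]

/-- the formula `x = x` -/
def topF (R : Type u) [Ring R] : PPFormula R := ⟨0, 0, fun j => j.elim0, fun j => j.elim0⟩

theorem mem_topF {N : Type u} [AddCommGroup N] [Module R N] (v : N) : v ∈ (topF R).sol N :=
  ⟨fun i => i.elim0, fun j => j.elim0⟩

theorem MinP.simp {φ ψ : PPFormula R} (h : MinP φ ψ) : Simp φ ψ := by
  intro κ hκ
  obtain ⟨δ, hδ⟩ := exists_sum κ ψ
  rcases h.2 δ (fun M _ _ v hv => (hδ M v).2 ⟨0, Cb.sol_zero κ, by simpa using hv⟩)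
    (fun M _ _ v hv => by
      obtain ⟨w, hw, hw2⟩ := (hδ M v).1 hv
      have := Cb.sol_add φ (hκ M hw) (h.1 M hw2)
      simpa using this) with h1 | h1
  · left
    intro M _ _ v hv
    exact h1 M ((hδ M v).2 ⟨v, hv, by simpa using Cb.sol_zero ψ⟩)
  · right
    intro M _ _ v hv
    exact (hδ M v).1 (h1 M hv)

/-- if every point of the Ziegler spectrum is isolated by a minimal pair, then the ring is of
finite representation type -/
theorem finRepType_of_minimal (k : Type u) [Field k] [Algebra k R]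
    (hmin : ∀ N : IndecPureInjective R, ∃ φ ψ : PPFormula R, basicSet φ ψ = {zgPoint N} ∧
      ψ.Le φ ∧ ¬ φ.Le ψ ∧ ∀ θ : PPFormula R, ψ.Le θ → θ.Le φ → θ.Le ψ ∨ φ.Le θ) :
    IsFinRepType R := by
  classical
  have hcomp := Cb.compact_of_pureInjective (R := R) k
  have hFLsum : ∀ θ₁ θ₂ θ₃ : PPFormula R, FL θ₁ → FL θ₂ →
      (∀ (N : Type u) [AddCommGroup N] [Module R N] (v : N),
        v ∈ θ₃.sol N ↔ ∃ w ∈ θ₁.sol N, v - w ∈ θ₂.sol N) → FL θ₃ :=
    fun θ₁ θ₂ θ₃ h1 h2 h3 => FL.sum exists_sum Cb.exists_conj h1 h2 h3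
  have hFL : ∀ θ : PPFormula R, FL θ := by
    refine FL.top exists_sum Cb.exists_conj hFLsum ?_
    intro Φ hne hadd Q _ _ x hx
    obtain ⟨N, a, h1, -, h3⟩ := exists_indecomposable_avoiding k Φ hne hadd x hx
    refine ⟨N.carrier, inferInstance, inferInstance, a, h1, h3, ?_⟩
    obtain ⟨φ, ψ, hset, hle, hnle, hm⟩ := hmin N
    intro a' ha'
    exact minP_at exists_fst exists_swap exists_relsnd
      (fun ρ N _ _ x y x' y' h h' => Rel.At.sub h h') exists_sum Cb.exists_conj φ ψ
      (propL_of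
        (fun N _ _ hN θ β a b h => exists_hom_two hcomp hN θ β a b h)
        (fun N Q _ _ _ _ hN hNi x hx h hh => Cb.star hN hNi x hx h hh)
        N.pureInjective N.indecomposable)
      (propG_of k N φ ψ hset) hnle ⟨hle, hm⟩ a' ha'
  have hdcc : ∀ κ : ℕ → PPFormula R, (∀ n, (κ (n + 1)).Le (κ n)) →
      ∃ m, ∀ n, m ≤ n → (κ m).Le (κ n) := by
    intro κ hκ
    exact FL.dcc Cb.exists_conj (hFL (topF R)) κ hκ (fun M _ _ v _ => mem_topF v)
  have hPI : ∀ (M : Type u) [AddCommGroup M] [Module R M], IsPureInjective R M :=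
    fun M _ _ => pureInjective_of_compact M
      (fun I J a c h => compact_of_dcc Cb.exists_conj hdcc M I J a c h)
  have hpure : ∀ (N N' : Type u) [AddCommGroup N] [Module R N] [AddCommGroup N'] [Module R N'],
      IsIndecomposable R N → ∀ φ ψ : PPFormula R, Simp φ ψ → ¬ φ.sol N ⊆ ψ.sol N →
      ¬ φ.sol N' ⊆ ψ.sol N' → ∃ f : N →ₗ[R] N', IsPureEmbedding f := by
    intro N N' _ _ _ _ hNi φ ψ hs h1 h2
    exact exists_pure_of_pair hcomp
      (fun N Q _ _ _ _ hN hNi x hx h hh => Cb.star hN hNi x hx h hh)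
      (fun N N' _ _ _ _ hN' ψ x x' h => Cb.exists_hom_of_types hcomp hN' ψ x x' h)
      (fun N _ _ hN ψ x => Cb.exists_maximal_type hcomp hN ψ x) Cb.exists_conj
      (hPI N) hNi (hPI N') φ ψ hs h1 h2
  obtain ⟨n, p, hp1, hp2⟩ := (hFL (topF R)).pairs
  constructor
  · intro M _ _
    obtain ⟨S, hS1, hS2, hS3⟩ := exists_decomposition hPI (by
      intro M _ _ hM
      obtain ⟨v, hv⟩ := exists_ne (0 : M)
      obtain ⟨i, hi⟩ := hp2 M v (mem_topF v) hv
      obtain ⟨N, hN⟩ := exists_point k (p i).1 (p i).2 (fun h => hi (h M))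
      obtain ⟨f, hf⟩ := hpure N.carrier M N.indecomposable _ _ (hp1 i) hN hi
      exact ⟨N.carrier, inferInstance, inferInstance, f, N.indecomposable, hf⟩) M
    refine ⟨S, hS1, hS2, fun C hC => ⟨hS3 C hC, ?_⟩⟩
    obtain ⟨φ, ψ, hset, hle, hnle, hm⟩ := hmin ⟨C, hPI C, hS3 C hC⟩
    obtain ⟨F, _, _, _, e, he⟩ := exists_free_realization_fp φ
    have h1 : ¬ φ.sol F ⊆ ψ.sol F := by
      intro hcon
      apply hnle
      intro Q _ _ v hv
      obtain ⟨f, hf⟩ := (he Q v).1 hv
      rw [← hf]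
      exact Cb.sol_map f ψ (hcon ((he F e).2 ⟨LinearMap.id, rfl⟩))
    have h2 : ¬ φ.sol C ⊆ ψ.sol C := by
      intro hcon
      have h3 : zgPoint (⟨C, hPI C, hS3 C hC⟩ : IndecPureInjective R) ∈ basicSet φ ψ := by
        rw [hset]; rfl
      rw [Cb.mem_basicSet_aux] at h3
      exact h3 (Set.Subset.antisymm hcon (hle C))
    obtain ⟨f, hf⟩ := hpure C F (hS3 C hC) φ ψ (MinP.simp ⟨hle, hm⟩) h2 h1
    exact finitePresentation_of_pure (hPI C) f hf
  · have hF : ∀ i : Fin n, ∃ F : ModuleCat.{u} R, ∀ (M : Type u) [AddCommGroup M] [Module R M],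
        IsIndecomposable R M → ¬ (p i).1.sol M ⊆ (p i).2.sol M → Nonempty (F ≃ₗ[R] M) := by
      intro i
      by_cases h : (p i).1.Le (p i).2
      · exact ⟨ModuleCat.of R PUnit, fun M _ _ _ hn => absurd (h M) hn⟩
      · obtain ⟨N, hN⟩ := exists_point k (p i).1 (p i).2 h
        refine ⟨ModuleCat.of R N.carrier, fun M _ _ hM hn => ?_⟩
        obtain ⟨f, hf⟩ := hpure N.carrier M N.indecomposable _ _ (hp1 i) hN hn
        exact Cb.equiv_of_pure N.pureInjective N.indecomposable hM f hf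
    choose F hF using hF
    refine ⟨n, F, fun M _ _ _ hM => ?_⟩
    have := hM.1
    obtain ⟨v, hv⟩ := exists_ne (0 : M)
    obtain ⟨i, hi⟩ := hp2 M v (mem_topF v) hv
    exact ⟨i, hF i M hM hi⟩

/-- **Theorem.** An algebra of dimension less than the continuum whose Ziegler spectrum is discrete
is of finite representation type. -/
theorem finRepType_of_discrete (k : Type u) [Field k] [Algebra k R]
    (hdim : Module.rank k R < Cardinal.continuum)
    (h : ∀ x : ZieglerSpectrum R, IsOpen ({x} : Set (ZieglerSpectrum R))) : IsFinRepType R :=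
  finRepType_of_minimal k fun N => exists_minimal k hdim N (h _)

end

end ZIso
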