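import Pool.Agent.Helper462.Iso.Defs

namespace ZIso

universe u

open Zg


section
variable {R : Type u} [Ring R] {ι : Type u} (F : Filter ι) (N : ι → Type u)
  [∀ i, AddCommGroup (N i)] [∀ i, Module R (N i)]

/-- the submodule of families vanishing eventually -/
def redK833 : Submodule R (∀ i, N i) where
  carrier := {x | ∀ᶠ i in F, x i = 0}
  add_mem' := by
    intro x y hx hy
    filter_upwards [hx, hy] with i h1 h2
    simp [h1, h2]
  zero_mem' := Filter.Eventually.of_forall fun _ => rfl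
  smul_mem' := by
    intro r x hx
    filter_upwards [hx] with i h1
    simp [h1]

theorem solvable_redK833 {m l : ℕ} (B : Fin l → Fin m → R) (c : Fin l → ∀ i, N i) :
    Solvable B (fun j => (redK833 (R := R) F N).mkQ (c j)) ↔
      ∀ᶠ i in F, Solvable B (fun j => c j i) := by
  classical
  constructor
  · rintro ⟨z, hz⟩
    choose w hw using fun i => (redK833 (R := R) F N).mkQ_surjective (z i)
    have h1 : ∀ j, ∀ᶠ i in F, ∑ k, B j k • w k i = c j i := by
      intro j
      have h2 : ∑ i, B j i • z i = (redK833 (R := R) F N).mkQ (c j) := hz j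
      have h3 : (redK833 (R := R) F N).mkQ (∑ k, B j k • w k - c j) = 0 := by
        rw [map_sub, map_sum, sub_eq_zero, ← h2]
        apply Finset.sum_congr rfl
        intro k _
        rw [map_smul, hw]
      rw [Submodule.mkQ_apply, Submodule.Quotient.mk_eq_zero] at h3
      have h4 : ∀ᶠ i in F, (∑ k, B j k • w k - c j) i = 0 := h3
      filter_upwards [h4] with i hi
      have h5 : (∑ k, B j k • w k) i - c j i = 0 := hi
      rw [Finset.sum_apply] at h5
      exact sub_eq_zero.mp h5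
    have h6 := Filter.eventually_all.mpr h1
    filter_upwards [h6] with i hi
    exact ⟨fun k => w k i, hi⟩
  · intro h
    let w : Fin m → ∀ i, N i := fun k i =>
      if h : Solvable B (fun j => c j i) then Classical.choose h k else 0
    refine ⟨fun k => (redK833 (R := R) F N).mkQ (w k), fun j => ?_⟩
    have h3 : (redK833 (R := R) F N).mkQ (∑ k, B j k • w k - c j) = 0 := by
      rw [Submodule.mkQ_apply, Submodule.Quotient.mk_eq_zero]
      change ∀ᶠ i in F, (∑ k, B j k • w k - c j) i = 0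
      filter_upwards [h] with i hi
      change (∑ k, B j k • w k) i - c j i = 0
      rw [Finset.sum_apply, sub_eq_zero]
      have h4 : ∑ k, B j k • Classical.choose hi k = c j i := Classical.choose_spec hi j
      rw [← h4]
      apply Finset.sum_congr rfl
      intro k _
      change B j k • w k i = _
      simp only [w, dif_pos hi]
    rw [map_sub, map_sum, sub_eq_zero] at h3
    change ∑ k, B j k • (redK833 (R := R) F N).mkQ (w k) = (redK833 (R := R) F N).mkQ (c j)
    rw [← h3]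
    apply Finset.sum_congr rfl
    intro k _
    rw [map_smul]

theorem mem_sol_redK833 (θ : PPFormula R) (x : ∀ i, N i) :
    (redK833 (R := R) F N).mkQ x ∈ θ.sol ((∀ i, N i) ⧸ redK833 (R := R) F N) ↔
      ∀ᶠ i in F, x i ∈ θ.sol (N i) := by
  have h := solvable_redK833 F N θ.B (fun j => θ.a j • x)
  have h1 : (fun j => (redK833 (R := R) F N).mkQ (θ.a j • x))
      = (fun j => θ.a j • (redK833 (R := R) F N).mkQ x) := by
    funext j
    rw [map_smul]
  rw [h1] at h
  exact h

end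

section
variable {R : Type u} [Ring R]

theorem exists_element (θ : PPFormula R) (p Φ : Set (PPFormula R)) (hp : p.Nonempty)
    (hdir : ∀ χ₁ ∈ p, ∀ χ₂ ∈ p, ∃ χ₃ ∈ p, χ₃.Le χ₁ ∧ χ₃.Le χ₂)
    (h : ∀ χ ∈ p, ∀ α ∈ Φ, ¬ MeetLe θ χ α) :
    ∃ (Q : Type u) (_ : AddCommGroup Q) (_ : Module R Q) (v : Q), v ∈ θ.sol Q ∧
      (∀ χ ∈ p, v ∈ χ.sol Q) ∧ ∀ α ∈ Φ, v ∉ α.sol Q := by
  classical
  have h' : ∀ x : p × Φ, ∃ (N : Type u) (_ : AddCommGroup N) (_ : Module R N) (v : N),
      v ∈ θ.sol N ∧ v ∈ x.1.1.sol N ∧ v ∉ x.2.1.sol N := by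
    intro x
    by_contra hcon
    refine h x.1.1 x.1.2 x.2.1 x.2.2 ?_
    intro N _ _ v h1 h2
    by_contra h3
    exact hcon ⟨N, _, _, v, h1, h2, h3⟩
  choose N i1 i2 v hv1 hv2 hv3 using h'
  let F : Filter (p × Φ) :=
    { sets := {S | ∃ χ ∈ p, ∀ x : p × Φ, x.1.1.Le χ → x ∈ S}
      univ_sets := by
        obtain ⟨χ, hχ⟩ := hp
        exact ⟨χ, hχ, fun _ _ => trivial⟩
      sets_of_superset := by
        rintro S T ⟨χ, hχ, hS⟩ hST
        exact ⟨χ, hχ, fun x hx => hST (hS x hx)⟩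
      inter_sets := by
        rintro S T ⟨χ, hχ, hS⟩ ⟨χ', hχ', hT⟩
        obtain ⟨χ₃, h3, h31, h32⟩ := hdir χ hχ χ' hχ'
        refine ⟨χ₃, h3, fun x hx => ⟨hS x ?_, hT x ?_⟩⟩
        · intro Q _ _
          exact (hx Q).trans (h31 Q)
        · intro Q _ _
          exact (hx Q).trans (h32 Q) }
  have hF : ∀ P : p × Φ → Prop, (∀ᶠ x in F, P x) ↔ ∃ χ ∈ p, ∀ x : p × Φ, x.1.1.Le χ → P x :=
    fun P => Iff.rfl
  refine ⟨(∀ x, N x) ⧸ redK833 (R := R) F N, inferInstance, inferInstance,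
    (redK833 (R := R) F N).mkQ v, ?_, ?_, ?_⟩
  · rw [mem_sol_redK833]
    exact Filter.Eventually.of_forall hv1
  · intro χ hχ
    rw [mem_sol_redK833, hF]
    exact ⟨χ, hχ, fun x hx => hx _ (hv2 x)⟩
  · intro α hα
    rw [mem_sol_redK833, hF]
    rintro ⟨χ, hχ, hx⟩
    exact hv3 (⟨χ, hχ⟩, ⟨α, hα⟩) (hx (⟨χ, hχ⟩, ⟨α, hα⟩) (fun Q _ _ => subset_rfl))
end

end ZIso
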