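import Pool.Agent.Helper462.Cb.ExistClosed
import Pool.Agent.Helper462.Cb.ZK
import Pool.Agent.Helper462.Iso.Defs
import Pool.Agent.Helper462.Iso.J3

/-!
# Indecomposable pure-injectives with an element avoiding a set of formulas closed under sums
-/

namespace ZIso

universe u

open Zg

section
variable {R : Type u} [Ring R]

/-- the system attached to a formula -/
def sysOf (χ : PPFormula R) : Sys R R := ⟨χ.m, χ.l, χ.B, χ.a⟩

theorem sysOf_mem {Q : Type u} [AddCommGroup Q] [Module R Q] (g : R →ₗ[R] Q) (χ : PPFormula R) :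
    sysOf χ ∈ Delta g ↔ g 1 ∈ χ.sol Q := by
  have h : (fun j => g (χ.a j)) = fun j => χ.a j • g 1 := by
    funext j
    rw [← map_smul, smul_eq_mul, mul_one]
  change Solvable χ.B (fun j => g (χ.a j)) ↔ Solvable χ.B (fun j => χ.a j • g 1)
  rw [h]

theorem exists_indecomposable_avoiding (k : Type u) [Field k] [Algebra k R]
    (Φ : Set (PPFormula R)) (hne : Φ.Nonempty)
    (hadd : ∀ χ₁ ∈ Φ, ∀ χ₂ ∈ Φ, ∃ χ₃ ∈ Φ, ∀ (M : Type u) [AddCommGroup M] [Module R M] (v w : M),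
      v ∈ χ₁.sol M → w ∈ χ₂.sol M → v + w ∈ χ₃.sol M)
    {Q : Type u} [AddCommGroup Q] [Module R Q] (x : Q) (hx : ∀ χ ∈ Φ, x ∉ χ.sol Q) :
    ∃ (N : IndecPureInjective R) (a : N.carrier), (∀ χ ∈ Φ, a ∉ χ.sol N.carrier) ∧
      (∀ θ : PPFormula R, x ∈ θ.sol Q → a ∈ θ.sol N.carrier) ∧
      ∀ θ : PPFormula R, a ∉ θ.sol N.carrier → ∃ χ : PPFormula R, a ∈ χ.sol N.carrier ∧
        ∃ α ∈ Φ, MeetLe θ χ α := by
  classical
  let g₀ : R →ₗ[R] Q := LinearMap.toSpanSingleton R Q x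
  have hg₀ : g₀ 1 = x := by simp [g₀]
  obtain ⟨F, hF, hF0, hFmax⟩ := exists_maximal_hom (sysOf '' Φ) g₀
    (by
      rintro _ ⟨χ, hχ, rfl⟩ h
      rw [sysOf_mem, hg₀] at h
      exact hx χ hχ h)
  have hF' : ∀ χ ∈ Φ, F.g 1 ∉ χ.sol F.Q := fun χ hχ h =>
    hF (sysOf χ) ⟨χ, hχ, rfl⟩ ((sysOf_mem F.g χ).2 h)
  have hF0' : ∀ θ : PPFormula R, x ∈ θ.sol Q → F.g 1 ∈ θ.sol F.Q := by
    intro θ hθ
    rw [← sysOf_mem]
    apply hF0
    rw [sysOf_mem, hg₀]
    exact hθ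
  -- maximality in terms of formulas
  have hmaxF : ∀ θ : PPFormula R, F.g 1 ∉ θ.sol F.Q → ∃ χ : PPFormula R, F.g 1 ∈ χ.sol F.Q ∧
      ∃ α ∈ Φ, MeetLe θ χ α := by
    intro θ hθ
    by_contra hcon
    push Not at hcon
    obtain ⟨Q', _, _, v, hvθ, hvp, hvΦ⟩ := exists_element θ {χ | F.g 1 ∈ χ.sol F.Q} Φ
      ⟨(⟨0, 0, fun j => j.elim0, fun j => j.elim0⟩ : PPFormula R),
        ⟨fun i => i.elim0, fun j => j.elim0⟩⟩
      (by
        intro χ₁ h₁ χ₂ h₂
        refine ⟨Cb.conjF χ₁ χ₂, (Cb.mem_conjF _ _ _).2 ⟨h₁, h₂⟩, ?_, ?_⟩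
        · intro M _ _ w hw
          exact ((Cb.mem_conjF _ _ _).1 hw).1
        · intro M _ _ w hw
          exact ((Cb.mem_conjF _ _ _).1 hw).2)
      (fun χ hχ α hα => hcon χ hχ α hα)
    let g' : R →ₗ[R] Q' := LinearMap.toSpanSingleton R Q' v
    have hg' : g' 1 = v := by simp [g']
    have h1 : Avoids (sysOf '' Φ) g' := by
      rintro _ ⟨χ, hχ, rfl⟩ h
      rw [sysOf_mem, hg'] at h
      exact hvΦ χ hχ h
    have h2 : Delta F.g ⊆ Delta g' := by
      rintro ⟨m, l, B, a⟩ h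
      have h3 := (sysOf_mem F.g ⟨m, l, B, a⟩).1 h
      have h4 := hvp _ h3
      rw [← hg'] at h4
      exact (sysOf_mem g' ⟨m, l, B, a⟩).2 h4
    have h3 := hFmax Q' g' h1 h2
    apply hθ
    rw [← sysOf_mem]
    apply h3
    rw [sysOf_mem, hg']
    exact hvθ
  obtain ⟨⟨P, κ⟩, hκ, hP, -⟩ := exists_pureInjective (R := R) k F.Q
  simp only at κ hκ hP
  let f : R →ₗ[R] P := κ ∘ₗ F.g
  -- the type of `f 1` is the type of `F.g 1`
  have hft : ∀ θ : PPFormula R, f 1 ∈ θ.sol P → F.g 1 ∈ θ.sol F.Q := by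
    intro θ hθ
    have h1 : Solvable θ.B (fun j => κ (θ.a j • F.g 1)) := by
      have h2 : (fun j => κ (θ.a j • F.g 1)) = fun j => θ.a j • f 1 := by
        funext j
        rw [map_smul]
        rfl
      rw [h2]
      exact hθ
    exact hκ.2 _ _ _ _ h1
  let Ψ : Set (Sys R P) := (fun χ : PPFormula R => (⟨χ.m, χ.l, χ.B, fun j => f (χ.a j)⟩ : Sys R P)) '' Φ
  have hΨ : ∀ {Q' : Type u} [AddCommGroup Q'] [Module R Q'] (h : P →ₗ[R] Q'),
      Avoids Ψ h ↔ ∀ χ ∈ Φ, h (f 1) ∉ χ.sol Q' := by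
    intro Q' _ _ h
    constructor
    · intro hh χ hχ hm
      refine hh _ ⟨χ, hχ, rfl⟩ ?_
      exact (sysOf_mem (h ∘ₗ f) χ).2 hm
    · rintro hh _ ⟨χ, hχ, rfl⟩ hm
      exact hh χ hχ ((sysOf_mem (h ∘ₗ f) χ).1 hm)
  have hΦ : Avoids Ψ (LinearMap.id : P →ₗ[R] P) := by
    rw [hΨ]
    intro χ hχ h
    exact hF' χ hχ (hft χ h)
  have hsmall : Small Ψ (LinearMap.range f) := by
    intro Q' _ _ h hh χ hχ hD
    choose y hy using hχ
    let χ' : Sys R R := ⟨χ.m, χ.l, χ.B, y⟩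
    have h1 : χ' ∈ Delta (h ∘ₗ f) := by
      obtain ⟨z, hz⟩ := hD
      refine ⟨z, fun j => ?_⟩
      change _ = h (f (y j))
      rw [hy j]
      exact hz j
    have h2 : Avoids (sysOf '' Φ) (h ∘ₗ f) := by
      rintro _ ⟨χ, hχ, rfl⟩ hm
      exact (hΨ h).1 hh χ hχ ((sysOf_mem (h ∘ₗ f) χ).1 hm)
    have h3 : χ' ∈ Delta F.g := hFmax Q' (h ∘ₗ f) h2 (Delta_mono F.g (h ∘ₗ κ)) h1
    obtain ⟨z, hz⟩ := Delta_mono F.g κ h3
    refine ⟨z, fun j => ?_⟩
    change _ = χ.c j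
    rw [← hy j]
    exact hz j
  obtain ⟨W, hW0, hW, hmax⟩ := exists_maximal_small Ψ (LinearMap.range f) hsmall
  have hcW : ∀ r, f r ∈ W := fun r => hW0 ⟨_, rfl⟩
  obtain ⟨g, hg, hgr⟩ := exists_retraction hP Ψ hΦ W hW hmax (by
    rintro _ ⟨χ, hχ, rfl⟩ j
    exact hcW _)
  let r : P →ₗ[R] W := LinearMap.codRestrict W g (fun x => by rw [← hgr]; exact ⟨x, rfl⟩)
  have hr : r ∘ₗ W.subtype = LinearMap.id := by
    ext w
    exact hg w w.2
  have hrW : ∀ w : W, r w = w := fun w => LinearMap.congr_fun hr w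
  have hzero : ∀ (h : P →ₗ[R] P), Avoids Ψ h → ∀ w ∈ W, h w = 0 → w = 0 := by
    intro h hh w hw h0
    obtain ⟨z, hz⟩ := hW P h hh ⟨0, 1, fun _ i => i.elim0, fun _ => w⟩ (fun _ => hw)
      ⟨fun i => i.elim0, fun j => by simp [h0]⟩
    simpa using (hz 0).symm
  obtain ⟨a, ha⟩ : ∃ a : W, (a : P) = f 1 := ⟨⟨f 1, hcW 1⟩, rfl⟩
  have hat : ∀ θ : PPFormula R, a ∈ θ.sol W ↔ f 1 ∈ θ.sol P := by
    intro θ
    constructor
    · intro h
      have := mem_sol_map θ W.subtype h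
      rwa [Submodule.subtype_apply, ha] at this
    · intro h
      have := mem_sol_map θ r h
      rwa [← ha, hrW a] at this
  have hat' : ∀ θ : PPFormula R, a ∈ θ.sol W ↔ F.g 1 ∈ θ.sol F.Q := by
    intro θ
    rw [hat]
    exact ⟨hft θ, fun h => mem_sol_map θ κ h⟩
  have hind : IsIndecomposable R W := by
    refine ⟨?_, ?_⟩
    · by_contra hnt
      rw [not_nontrivial_iff_subsingleton] at hnt
      obtain ⟨χ, hχ⟩ := hne
      have h0 : a = 0 := Subsingleton.elim _ _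
      have h1 : a ∈ χ.sol W := by
        rw [h0]
        exact ⟨fun _ => 0, fun j => by simp⟩
      exact hF' χ hχ ((hat' χ).1 h1)
    · intro N₁ N₂ hN
      let p₁ : W →ₗ[R] W := N₁.subtype ∘ₗ N₁.projectionOnto N₂ hN
      let p₂ : W →ₗ[R] W := N₂.subtype ∘ₗ N₂.projectionOnto N₁ hN.symm
      have hsum : ∀ w : W, p₁ w + p₂ w = w := by
        intro w
        have := LinearMap.congr_fun (Submodule.projection_add_projection_eq_id hN) w
        simpa [p₁, p₂] using this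
      let h₁ : P →ₗ[R] P := W.subtype ∘ₗ p₁ ∘ₗ r
      let h₂ : P →ₗ[R] P := W.subtype ∘ₗ p₂ ∘ₗ r
      have hh : ∀ w ∈ W, h₁ w + h₂ w = w := by
        intro w hw
        have h1 : r w = ⟨w, hw⟩ := hrW ⟨w, hw⟩
        have h2 := hsum ⟨w, hw⟩
        have h3 := congrArg Subtype.val h2
        simpa [h₁, h₂, h1] using h3
      by_cases h1 : Avoids Ψ h₁
      · right
        rw [Submodule.eq_bot_iff]
        intro x hx
        have h3 : p₁ x = 0 := by
          change ((N₁.projectionOnto N₂ hN x : N₁) : W) = 0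
          rw [(Submodule.projectionOnto_apply_eq_zero_iff hN).2 hx]
          rfl
        have h4 : h₁ (x : P) = 0 := by
          change ((p₁ (r (x : P)) : W) : P) = 0
          rw [hrW x, h3]
          rfl
        have := hzero h₁ h1 x x.2 h4
        exact Subtype.ext this
      · by_cases h2 : Avoids Ψ h₂
        · left
          rw [Submodule.eq_bot_iff]
          intro x hx
          have h3 : p₂ x = 0 := by
            change ((N₂.projectionOnto N₁ hN.symm x : N₂) : W) = 0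
            rw [(Submodule.projectionOnto_apply_eq_zero_iff hN.symm).2 hx]
            rfl
          have h4 : h₂ (x : P) = 0 := by
            change ((p₂ (r (x : P)) : W) : P) = 0
            rw [hrW x, h3]
            rfl
          have := hzero h₂ h2 x x.2 h4
          exact Subtype.ext this
        · exfalso
          rw [hΨ] at h1 h2
          push Not at h1 h2
          obtain ⟨χ₁, hχ₁, h1⟩ := h1
          obtain ⟨χ₂, hχ₂, h2⟩ := h2
          obtain ⟨χ₃, hχ₃, h3⟩ := hadd χ₁ hχ₁ χ₂ hχ₂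
          have h4 := h3 P _ _ h1 h2
          rw [hh _ (hcW 1)] at h4
          exact hF' χ₃ hχ₃ (hft χ₃ h4)
  refine ⟨⟨W, hP.retract W.subtype r hr, hind⟩, a, ?_, ?_, ?_⟩
  · intro χ hχ h
    exact hF' χ hχ ((hat' χ).1 h)
  · intro θ hθ
    exact (hat' θ).2 (hF0' θ hθ)
  · intro θ hθ
    obtain ⟨χ, hχ, α, hα, hm⟩ := hmaxF θ (fun h => hθ ((hat' θ).2 h))
    exact ⟨χ, (hat' χ).2 hχ, α, hα, hm⟩

end

end ZIso
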