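import Pool.Agent.Helper462.Iso.Defs

namespace ZIso

universe u

open Zg


section
variable {R : Type u} [Ring R]

theorem split_of_zero (θ : PPFormula R) (M : Type u) [AddCommGroup M] [Module R M] :
    (0 : M) ∈ θ.sol M :=
  ⟨fun _ => 0, fun j => by simp⟩

theorem split_of_add (θ : PPFormula R) {M : Type u} [AddCommGroup M] [Module R M] {v w : M}
    (hv : v ∈ θ.sol M) (hw : w ∈ θ.sol M) : v + w ∈ θ.sol M := by
  obtain ⟨z, hz⟩ := hv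
  obtain ⟨y, hy⟩ := hw
  refine ⟨fun i => z i + y i, fun j => ?_⟩
  have h1 : ∑ i, θ.B j i • z i = θ.a j • v := hz j
  have h2 : ∑ i, θ.B j i • y i = θ.a j • w := hy j
  simp only [smul_add, Finset.sum_add_distrib]
  rw [h1, h2]

theorem split_of_sub (θ : PPFormula R) {M : Type u} [AddCommGroup M] [Module R M] {v w : M}
    (hv : v ∈ θ.sol M) (hw : w ∈ θ.sol M) : v - w ∈ θ.sol M := by
  obtain ⟨z, hz⟩ := hv
  obtain ⟨y, hy⟩ := hw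
  refine ⟨fun i => z i - y i, fun j => ?_⟩
  have h1 : ∑ i, θ.B j i • z i = θ.a j • v := hz j
  have h2 : ∑ i, θ.B j i • y i = θ.a j • w := hy j
  simp only [smul_sub, Finset.sum_sub_distrib]
  rw [h1, h2]

theorem split_of_map (θ : PPFormula R) {M M' : Type u} [AddCommGroup M] [Module R M]
    [AddCommGroup M'] [Module R M'] (f : M →ₗ[R] M') {v : M} (hv : v ∈ θ.sol M) :
    f v ∈ θ.sol M' := by
  obtain ⟨z, hz⟩ := hv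
  refine ⟨fun i => f (z i), fun j => ?_⟩
  have h1 : ∑ i, θ.B j i • z i = θ.a j • v := hz j
  have h2 := congrArg f h1
  rw [map_sum, map_smul] at h2
  simp only [map_smul] at h2
  exact h2

theorem split_of (hsum : ∀ θ θ' : PPFormula R, ∃ κ : PPFormula R,
      ∀ (N : Type u) [AddCommGroup N] [Module R N] (v : N),
        v ∈ κ.sol N ↔ ∃ w ∈ θ.sol N, v - w ∈ θ'.sol N)
    (hconj : ∀ θ θ' : PPFormula R, ∃ κ : PPFormula R,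
      ∀ (N : Type u) [AddCommGroup N] [Module R N] (v : N),
        v ∈ κ.sol N ↔ v ∈ θ.sol N ∧ v ∈ θ'.sol N)
    (hfree : ∀ θ : PPFormula R, ∃ (C : Type u) (_ : AddCommGroup C) (_ : Module R C) (c : C),
      ∀ (N : Type u) [AddCommGroup N] [Module R N] (v : N),
        v ∈ θ.sol N ↔ ∃ f : C →ₗ[R] N, f c = v)
    {N : Type u} [AddCommGroup N] [Module R N] (φ ψ : PPFormula R)
    (hS : PropS R N) (hG : PropG N φ ψ)
    (hmin : ∀ α β : PPFormula R, ψ.Le β → β.Le α → α.Le φ → ¬ α.Le β →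
      ∃ θ : PPFormula R, β.Le θ ∧ θ.Le α ∧ ¬ θ.Le β ∧ ¬ α.Le θ)
    (γ : PPFormula R) (h1 : ψ.Le γ) (h2 : γ.Le φ) (h3 : ¬ φ.Le γ) :
    ∃ γ₀ γ₁ : PPFormula R,
      γ.Le γ₀ ∧ γ.Le γ₁ ∧ γ₀.Le φ ∧ γ₁.Le φ ∧ ¬ φ.Le γ₀ ∧ ¬ φ.Le γ₁ ∧ SumGe φ γ₀ γ₁ := by
  by_contra hcon
  obtain ⟨Φ, hΦ⟩ : ∃ Φ : Set (PPFormula R), Φ = {θ | θ.Le φ ∧ ¬ SumGe φ θ γ} := ⟨_, rfl⟩
  have hmem : ∀ θ : PPFormula R, θ ∈ Φ ↔ θ.Le φ ∧ ¬ SumGe φ θ γ := by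
    intro θ; rw [hΦ]; rfl
  have hψ : ψ ∈ Φ := by
    rw [hmem]
    refine ⟨fun Q _ _ v hv => h2 Q (h1 Q hv), fun hs => h3 ?_⟩
    intro Q _ _ v hv
    obtain ⟨w, hw, hvw⟩ := hs Q v hv
    have := split_of_add γ (h1 Q hw) hvw
    rwa [add_sub_cancel] at this
  have hclosed : ∀ χ₁ ∈ Φ, ∀ χ₂ ∈ Φ, ∃ χ₃ ∈ Φ,
      ∀ (M : Type u) [AddCommGroup M] [Module R M] (v w : M),
        v ∈ χ₁.sol M → w ∈ χ₂.sol M → v + w ∈ χ₃.sol M := by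
    intro χ₁ hχ₁ χ₂ hχ₂
    rw [hmem] at hχ₁ hχ₂
    obtain ⟨χ₃, hχ₃⟩ := hsum χ₁ χ₂
    refine ⟨χ₃, ?_, ?_⟩
    · rw [hmem]
      constructor
      · intro Q _ _ v hv
        obtain ⟨w, hw, hvw⟩ := (hχ₃ Q v).1 hv
        have := split_of_add φ (hχ₁.1 Q hw) (hχ₂.1 Q hvw)
        rwa [add_sub_cancel] at this
      · intro hs
        apply hcon
        obtain ⟨γ₀, hγ₀⟩ := hsum χ₁ γ
        obtain ⟨γ₁, hγ₁⟩ := hsum χ₂ γ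
        refine ⟨γ₀, γ₁, ?_, ?_, ?_, ?_, ?_, ?_, ?_⟩
        · intro Q _ _ v hv
          rw [hγ₀]
          exact ⟨0, split_of_zero _ _, by rwa [sub_zero]⟩
        · intro Q _ _ v hv
          rw [hγ₁]
          exact ⟨0, split_of_zero _ _, by rwa [sub_zero]⟩
        · intro Q _ _ v hv
          obtain ⟨w, hw, hvw⟩ := (hγ₀ Q v).1 hv
          have := split_of_add φ (hχ₁.1 Q hw) (h2 Q hvw)
          rwa [add_sub_cancel] at this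
        · intro Q _ _ v hv
          obtain ⟨w, hw, hvw⟩ := (hγ₁ Q v).1 hv
          have := split_of_add φ (hχ₂.1 Q hw) (h2 Q hvw)
          rwa [add_sub_cancel] at this
        · intro hle
          exact hχ₁.2 (fun Q _ _ v hv => (hγ₀ Q v).1 (hle Q hv))
        · intro hle
          exact hχ₂.2 (fun Q _ _ v hv => (hγ₁ Q v).1 (hle Q hv))
        · intro Q _ _ v hv
          obtain ⟨w, hw, hvw⟩ := hs Q v hv
          obtain ⟨w1, hw1, hw2⟩ := (hχ₃ Q w).1 hw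
          refine ⟨w1, ?_, ?_⟩
          · rw [hγ₀]
            exact ⟨w1, hw1, by rw [sub_self]; exact split_of_zero _ _⟩
          · rw [hγ₁]
            exact ⟨w - w1, hw2, by rwa [sub_sub_sub_cancel_right]⟩
    · intro M _ _ v w hv hw
      rw [hχ₃]
      exact ⟨v, hv, by rwa [add_sub_cancel_left]⟩
  obtain ⟨C, iC1, iC2, c, hC⟩ := hfree φ
  have hcφ : c ∈ φ.sol C := (hC C c).2 ⟨LinearMap.id, rfl⟩
  have hcΦ : ∀ χ ∈ Φ, c ∉ χ.sol C := by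
    intro χ hχ hcχ
    rw [hmem] at hχ
    apply hχ.2
    intro Q _ _ v hv
    obtain ⟨f, rfl⟩ := (hC Q v).1 hv
    exact ⟨f c, split_of_map χ f hcχ, by rw [sub_self]; exact split_of_zero _ _⟩
  obtain ⟨a, ha1, ha2, ha3⟩ := hG Φ hψ hclosed C c hcφ hcΦ
  have haφ : a ∈ φ.sol N := ha2 φ hcφ
  have ha0 : a ≠ 0 := by
    rintro rfl
    exact ha1 ψ hψ (split_of_zero _ _)
  obtain ⟨θ₀, hθ₀, hθ₀'⟩ := hS a ha0
  obtain ⟨χ₀, hχ₀, α₀, hα₀, hm0⟩ := ha3 θ₀ hθ₀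
  obtain ⟨θ₀₁, hθ₀₁⟩ := hconj θ₀ χ₀
  obtain ⟨θ₁, hθ₁⟩ := hconj θ₀₁ φ
  obtain ⟨β, hβ⟩ := hsum θ₁ γ
  have hα₀' := (hmem α₀).1 hα₀
  have hγβ : γ.Le β := by
    intro Q _ _ v hv
    rw [hβ]
    exact ⟨0, split_of_zero _ _, by rwa [sub_zero]⟩
  have hβφ : β.Le φ := by
    intro Q _ _ v hv
    obtain ⟨w, hw, hvw⟩ := (hβ Q v).1 hv
    have := split_of_add φ ((hθ₁ Q w).1 hw).2 (h2 Q hvw)
    rwa [add_sub_cancel] at this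
  have hφβ : ¬ φ.Le β := by
    intro hle
    apply hα₀'.2
    intro Q _ _ v hv
    obtain ⟨w, hw, hvw⟩ := (hβ Q v).1 (hle Q hv)
    have hw' := (hθ₀₁ Q w).1 ((hθ₁ Q w).1 hw).1
    exact ⟨w, hm0 Q w hw'.1 hw'.2, hvw⟩
  obtain ⟨δ, hβδ, hδφ, hδβ, hφδ⟩ := hmin φ β (fun Q _ _ v hv => hγβ Q (h1 Q hv)) hβφ
    (fun Q _ _ v hv => hv) hφβ
  by_cases haδ : a ∈ δ.sol N
  · have hδΦ : δ ∉ Φ := fun h => ha1 δ h haδ
    have hs : SumGe φ δ γ := by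
      by_contra hs
      exact hδΦ ((hmem δ).2 ⟨hδφ, hs⟩)
    apply hφδ
    intro Q _ _ v hv
    obtain ⟨w, hw, hvw⟩ := hs Q v hv
    have := split_of_add δ hw (hβδ Q (hγβ Q hvw))
    rwa [add_sub_cancel] at this
  · obtain ⟨χ', hχ', hm'⟩ := hθ₀' δ haδ
    obtain ⟨χ₂, hχ₂⟩ := hconj χ' χ₀
    obtain ⟨χ₁, hχ₁⟩ := hconj χ₂ φ
    have haχ₁ : a ∈ χ₁.sol N := (hχ₁ N a).2 ⟨(hχ₂ N a).2 ⟨hχ', hχ₀⟩, haφ⟩
    have hs : SumGe φ χ₁ γ := by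
      by_contra hs
      exact ha1 χ₁ ((hmem χ₁).2 ⟨fun Q _ _ v hv => ((hχ₁ Q v).1 hv).2, hs⟩) haχ₁
    apply hδβ
    intro Q _ _ v hv
    obtain ⟨w, hw, hvw⟩ := hs Q v (hδφ Q hv)
    have hwδ : w ∈ δ.sol Q := by
      have := split_of_sub δ hv (hβδ Q (hγβ Q hvw))
      rwa [sub_sub_cancel] at this
    obtain ⟨hw1, hw2⟩ := (hχ₁ Q w).1 hw
    obtain ⟨hw3, hw4⟩ := (hχ₂ Q w).1 hw1
    rw [hβ]
    exact ⟨w, (hθ₁ Q w).2 ⟨(hθ₀₁ Q w).2 ⟨hm' Q w hwδ hw3, hw4⟩, hw2⟩, hvw⟩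
end

end ZIso
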