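import Pool.Agent.Helper462.Iso.Defs

namespace ZIso

universe u

open Zg


section
variable {R : Type u} [Ring R]

theorem final_count_solv_add {m l : ℕ} (B : Fin l → Fin m → R) {Q : Type u} [AddCommGroup Q]
    [Module R Q] {c c' : Fin l → Q} (h : Solvable B c) (h' : Solvable B c') :
    Solvable B (c + c') := by
  obtain ⟨z, hz⟩ := h
  obtain ⟨z', hz'⟩ := h'
  refine ⟨z + z', fun j => ?_⟩
  rw [Pi.add_apply, ← hz j, ← hz' j, ← Finset.sum_add_distrib]
  exact Finset.sum_congr rfl fun i _ => by rw [Pi.add_apply, smul_add]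

theorem final_count_solv_zero {m l : ℕ} (B : Fin l → Fin m → R) {Q : Type u} [AddCommGroup Q]
    [Module R Q] : Solvable B (0 : Fin l → Q) :=
  ⟨0, fun j => by simp⟩

theorem final_count_solv_smul (k : Type u) [Field k] [Algebra k R] {m l : ℕ}
    (B : Fin l → Fin m → R) {Q : Type u} [AddCommGroup Q] [Module R Q] (κ : k) {c : Fin l → Q}
    (h : Solvable B c) : Solvable B (fun j => algebraMap k R κ • c j) := by
  obtain ⟨z, hz⟩ := h
  refine ⟨fun i => algebraMap k R κ • z i, fun j => ?_⟩
  show ∑ i, B j i • (algebraMap k R κ • z i) = algebraMap k R κ • c j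
  rw [← hz j, Finset.smul_sum]
  refine Finset.sum_congr rfl fun i _ => ?_
  rw [smul_smul, smul_smul, Algebra.commutes]

/-- the solvable right hand sides -/
def final_count_K (k : Type u) [Field k] [Algebra k R] {N : Type u} [AddCommGroup N]
    [Module R N] [Module k N] (hk : ∀ (κ : k) (v : N), κ • v = algebraMap k R κ • v)
    {m l : ℕ} (B : Fin l → Fin m → R) : Submodule k (Fin l → N) where
  carrier := {c | Solvable B c}
  add_mem' := fun h h' => final_count_solv_add B h h'
  zero_mem' := final_count_solv_zero B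
  smul_mem' := fun κ c h => by
    have h1 := final_count_solv_smul k B κ h
    have h2 : κ • c = fun j => algebraMap k R κ • c j := by
      funext j
      exact hk κ (c j)
    show Solvable B (κ • c)
    rw [h2]
    exact h1

/-- multiplication by a column -/
def final_count_A (k : Type u) [Field k] [Algebra k R] {N : Type u} [AddCommGroup N]
    [Module R N] [Module k N] (hk : ∀ (κ : k) (v : N), κ • v = algebraMap k R κ • v)
    {l : ℕ} (a : Fin l → R) : N →ₗ[k] (Fin l → N) where
  toFun v := fun j => a j • v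
  map_add' v w := by
    funext j
    exact smul_add _ _ _
  map_smul' κ v := by
    funext j
    show a j • (κ • v) = κ • (a j • v)
    rw [hk, hk, smul_smul, smul_smul, Algebra.commutes]

/-- multiples of `y` -/
def final_count_T (k : Type u) [Field k] [Algebra k R] {N : Type u} [AddCommGroup N]
    [Module R N] [Module k N] (hk : ∀ (κ : k) (v : N), κ • v = algebraMap k R κ • v)
    (l : ℕ) (y : N) : (Fin l → R) →ₗ[k] (Fin l → N) where
  toFun t := fun j => t j • y
  map_add' v w := by
    funext j
    exact add_smul _ _ _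
  map_smul' κ t := by
    funext j
    show (κ • t j) • y = κ • (t j • y)
    rw [hk, Algebra.smul_def, mul_smul]

theorem final_count_pigeon (μ : Cardinal.{u}) (h0 : Cardinal.aleph0 ≤ μ)
    (h1 : μ < Cardinal.continuum) (f : ULift.{u} (ℕ → Bool) → ULift.{u} (List Bool)) :
    ∃ s, Order.succ μ ≤ Cardinal.mk (f ⁻¹' {s}) := by
  refine Cardinal.infinite_pigeonhole_card f (Order.succ μ) ?_ ?_ ?_
  · have h2 : Cardinal.mk (ULift.{u} (ℕ → Bool)) = Cardinal.continuum := by simp
    rw [h2]
    exact Order.succ_le_of_lt h1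
  · exact h0.trans (Order.le_succ μ)
  · rw [(Cardinal.isRegular_succ h0).cof_eq]
    exact (Cardinal.mk_le_aleph0).trans_lt (h0.trans_lt (Order.lt_succ μ))

theorem final_count_pre_length (b : ℕ → Bool) (n : ℕ) : (pre b n).length = n := by
  induction n with
  | zero => rfl
  | succ n ih =>
    show (b n :: pre b n).length = n + 1
    rw [List.length_cons, ih]

theorem final_count_pre_congr (b b' : ℕ → Bool) (n : ℕ) (h : ∀ i < n, b i = b' i) :
    pre b n = pre b' n := by
  induction n with
  | zero => rfl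
  | succ n ih =>
    show b n :: pre b n = b' n :: pre b' n
    rw [ih fun i hi => h i (hi.trans (Nat.lt_succ_self n)), h n (Nat.lt_succ_self n)]

theorem final_count_mono (γ : List Bool → PPFormula R) (hmono : ∀ s i, (γ s).Le (γ (i :: s)))
    (b : ℕ → Bool) (i j : ℕ) (h : i ≤ j) : (γ (pre b i)).Le (γ (pre b j)) := by
  induction h with
  | refl => exact fun Q _ _ => subset_rfl
  | step _ ih => exact fun Q _ _ => (ih Q).trans (hmono _ _ Q)

theorem final_count_diff {N : Type u} [AddCommGroup N] [Module R N]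
    (γ : List Bool → PPFormula R) (hmono : ∀ s i, (γ s).Le (γ (i :: s)))
    (a : (ℕ → Bool) → N) (hoff : ∀ b j, a b ∈ (γ ((!b j) :: pre b j)).sol N)
    (b b0 : ℕ → Bool) (h : b ≠ b0) : ∃ D : ℕ, ∀ M ≥ D, a b ∈ (γ (pre b0 M)).sol N := by
  classical
  have hex : ∃ d, b d ≠ b0 d := by
    by_contra hcon
    push Not at hcon
    exact h (funext hcon)
  have h1 := Nat.find_spec hex
  have h2 : ∀ i < Nat.find hex, b i = b0 i := fun i hi => not_not.1 (Nat.find_min hex hi)
  set d := Nat.find hex with hd
  refine ⟨d + 1, fun M hM => ?_⟩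
  apply final_count_mono γ hmono b0 (d + 1) M hM N
  have h3 := hoff b d
  have h4 : (!b d) = b0 d := by
    revert h1
    cases b d <;> cases b0 d <;> simp
  rw [h4, final_count_pre_congr b b0 d h2] at h3
  exact h3

theorem final_count_rank (k : Type u) [Field k] [Algebra k R] (l : ℕ) :
    Module.rank k (Fin l → R) ≤ max (Module.rank k R) Cardinal.aleph0 := by
  rw [rank_pi, Cardinal.sum_const]
  have h : Cardinal.lift.{u, 0} (Cardinal.mk (Fin l)) ≤ Cardinal.aleph0 := by
    rw [Cardinal.mk_fin]
    simpa using (Cardinal.natCast_le_aleph0 (n := l))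
  refine (Cardinal.mul_le_max _ _).trans ?_
  refine max_le (max_le (h.trans (le_max_right _ _)) ?_) (le_max_right _ _)
  simpa using (le_max_left (Module.rank k R) Cardinal.aleph0)

theorem final_count (k : Type u) [Field k] [Algebra k R]
    (hdim : Module.rank k R < Cardinal.continuum)
    {N : Type u} [AddCommGroup N] [Module R N]
    (γ : List Bool → PPFormula R) (hmono : ∀ s i, (γ s).Le (γ (i :: s)))
    (a : (ℕ → Bool) → N) (n : (ℕ → Bool) → ℕ) (y : N)
    (hoff : ∀ b j, a b ∈ (γ ((!b j) :: pre b j)).sol N)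
    (hon : ∀ b j, a b ∉ (γ (pre b j)).sol N)
    (hpar : ∀ b, ∃ t : Fin (γ (pre b (n b))).l → R,
      Solvable (γ (pre b (n b))).B (fun j => (γ (pre b (n b))).a j • a b - t j • y)) :
    False := by
  classical
  letI : Module k N := Module.compHom N (algebraMap k R)
  have hk : ∀ (κ : k) (v : N), κ • v = algebraMap k R κ • v := fun _ _ => rfl
  set μ : Cardinal.{u} := max (Module.rank k R) Cardinal.aleph0 with hμ
  have hμ0 : Cardinal.aleph0 ≤ μ := le_max_right _ _
  have hμ1 : μ < Cardinal.continuum := max_lt hdim Cardinal.aleph0_lt_continuum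
  obtain ⟨⟨s⟩, hs⟩ := final_count_pigeon μ hμ0 hμ1
    (fun b => ULift.up (pre b.down (n b.down)))
  set S : Set (ULift.{u} (ℕ → Bool)) :=
    (fun b : ULift.{u} (ℕ → Bool) => ULift.up.{u} (pre b.down (n b.down))) ⁻¹' {⟨s⟩} with hS
  have hSm : ∀ b : S, pre b.1.down (n b.1.down) = s := fun b => by
    have h := b.2
    exact ULift.up_injective h
  let K := final_count_K k hk (γ s).B
  let A := final_count_A k hk (γ s).a
  let T := final_count_T k hk (γ s).l y
  let W := LinearMap.range (K.mkQ.comp T)
  have hW : ∀ b : S, K.mkQ (A (a b.1.down)) ∈ W := by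
    intro b
    have h := hpar b.1.down
    rw [hSm b] at h
    obtain ⟨t, ht⟩ := h
    refine ⟨t, ?_⟩
    show K.mkQ (T t) = K.mkQ (A (a b.1.down))
    rw [← sub_eq_zero, ← map_sub, Submodule.mkQ_apply, Submodule.Quotient.mk_eq_zero,
      ← Submodule.neg_mem_iff, neg_sub]
    exact ht
  let u : S → W := fun b => ⟨K.mkQ (A (a b.1.down)), hW b⟩
  have hnl : ¬ LinearIndependent k u := by
    intro hli
    have h1 := hli.cardinal_le_rank
    have h2 : Module.rank k W ≤ Module.rank k (Fin (γ s).l → R) := rank_range_le _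
    have h3 := final_count_rank (R := R) k (γ s).l
    have h4 : Order.succ μ ≤ μ := hs.trans (h1.trans (h2.trans h3))
    exact absurd h4 (not_le.2 (Order.lt_succ μ))
  rw [not_linearIndependent_iff] at hnl
  obtain ⟨F, g, hg, b0, hb0, hgb0⟩ := hnl
  have hg2 : (∑ b ∈ F, g b • a b.1.down) ∈ (γ s).sol N := by
    have h1 := congrArg (fun w : W => (w : (Fin (γ s).l → N) ⧸ K)) hg
    have h2 : K.mkQ (A (∑ b ∈ F, g b • a b.1.down)) = 0 := by
      rw [map_sum, map_sum]
      refine Eq.trans ?_ h1
      show _ = ((∑ i ∈ F, g i • u i : W) : (Fin (γ s).l → N) ⧸ K)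
      rw [Submodule.coe_sum]
      refine Finset.sum_congr rfl fun b _ => ?_
      rw [map_smul, map_smul]
      rfl
    rw [Submodule.mkQ_apply, Submodule.Quotient.mk_eq_zero] at h2
    exact h2
  have hD : ∀ b : S, ∃ D : ℕ, b ≠ b0 → ∀ M ≥ D, a b.1.down ∈ (γ (pre b0.1.down M)).sol N := by
    intro b
    by_cases hb : b = b0
    · exact ⟨0, fun h => absurd hb h⟩
    · have h1 : b.1.down ≠ b0.1.down := by
        intro h
        exact hb (Subtype.ext (ULift.down_injective h))
      obtain ⟨D, hD⟩ := final_count_diff γ hmono a hoff b.1.down b0.1.down h1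
      exact ⟨D, fun _ => hD⟩
  choose D hD using hD
  set M := max s.length (F.sup D) with hM
  let Y : Submodule k N := (final_count_K k hk (γ (pre b0.1.down M)).B).comap
    (final_count_A k hk (γ (pre b0.1.down M)).a)
  have hY : ∀ v : N, v ∈ Y ↔ v ∈ (γ (pre b0.1.down M)).sol N := fun v => Iff.rfl
  have hs0 : s = pre b0.1.down s.length := by
    have h1 := hSm b0
    have h2 : n b0.1.down = s.length := by
      rw [← h1, final_count_pre_length]
    rw [← h2]
    exact h1.symm
  have hw : (∑ b ∈ F, g b • a b.1.down) ∈ Y := by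
    rw [hY]
    have h1 := final_count_mono γ hmono b0.1.down s.length M (le_max_left _ _) N
    rw [← hs0] at h1
    exact h1 hg2
  have hrest : (∑ b ∈ F.erase b0, g b • a b.1.down) ∈ Y := by
    refine Submodule.sum_mem _ fun b hb => Submodule.smul_mem _ _ ?_
    rw [hY]
    refine hD b (Finset.ne_of_mem_erase hb) M ?_
    exact (Finset.le_sup (Finset.mem_of_mem_erase hb)).trans (le_max_right _ _)
  have hb0Y : g b0 • a b0.1.down ∈ Y := by
    have h1 := Finset.add_sum_erase F (fun b => g b • a b.1.down) hb0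
    have h2 : g b0 • a b0.1.down =
      (∑ b ∈ F, g b • a b.1.down) - ∑ b ∈ F.erase b0, g b • a b.1.down := by
      rw [← h1]
      exact (add_sub_cancel_right _ _).symm
    rw [h2]
    exact Submodule.sub_mem _ hw hrest
  have hfin : a b0.1.down ∈ Y := by
    have h1 := Submodule.smul_mem Y (g b0)⁻¹ hb0Y
    rwa [smul_smul, inv_mul_cancel₀ hgb0, one_smul] at h1
  exact hon b0.1.down M ((hY _).1 hfin)

end

end ZIso
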