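import Pool.Agent.Helper462.Iso.Defs

namespace ZIso

universe u

open Zg


section
variable {R : Type u} [Ring R]

theorem exists_tree_aux_zero (φ : PPFormula R) (N : Type u) [AddCommGroup N] [Module R N] :
    (0 : N) ∈ φ.sol N :=
  ⟨fun _ => 0, fun j => by simp⟩

theorem exists_tree_aux_sub (φ : PPFormula R) (N : Type u) [AddCommGroup N] [Module R N] {v w : N}
    (hv : v ∈ φ.sol N) (hw : w ∈ φ.sol N) : v - w ∈ φ.sol N := by
  obtain ⟨z, hz⟩ := hv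
  obtain ⟨z', hz'⟩ := hw
  refine ⟨fun i => z i - z' i, fun j => ?_⟩
  simp only [smul_sub, Finset.sum_sub_distrib, hz, hz']

theorem exists_tree_aux_add (φ : PPFormula R) (N : Type u) [AddCommGroup N] [Module R N] {v w : N}
    (hv : v ∈ φ.sol N) (hw : w ∈ φ.sol N) : v + w ∈ φ.sol N := by
  have h := exists_tree_aux_sub φ N hv (exists_tree_aux_sub φ N (exists_tree_aux_zero φ N) hw)
  simpa using h

theorem exists_tree (φ ψ : PPFormula R) (hle : ψ.Le φ) (hne : ¬ φ.Le ψ)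
    (hsplit : ∀ γ : PPFormula R, ψ.Le γ → γ.Le φ → ¬ φ.Le γ → ∃ γ₀ γ₁ : PPFormula R,
      γ.Le γ₀ ∧ γ.Le γ₁ ∧ γ₀.Le φ ∧ γ₁.Le φ ∧ ¬ φ.Le γ₀ ∧ ¬ φ.Le γ₁ ∧ SumGe φ γ₀ γ₁) :
    ∃ γ : List Bool → PPFormula R, (∀ s, ψ.Le (γ s) ∧ (γ s).Le φ ∧ ¬ φ.Le (γ s)) ∧
      (∀ s i, (γ s).Le (γ (i :: s))) ∧ (∀ s i, SumGe φ (γ (i :: s)) (γ ((!i) :: s))) := by
  let T := {γ : PPFormula R // ψ.Le γ ∧ γ.Le φ ∧ ¬ φ.Le γ}
  have hex : ∀ γ : T, ∃ p : T × T, γ.1.Le p.1.1 ∧ γ.1.Le p.2.1 ∧ SumGe φ p.1.1 p.2.1 := by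
    rintro ⟨γ, h1, h2, h3⟩
    obtain ⟨γ₀, γ₁, a1, a2, a3, a4, a5, a6, a7⟩ := hsplit γ h1 h2 h3
    exact ⟨(⟨γ₀, fun Q _ _ v hv => a1 Q (h1 Q hv), a3, a5⟩,
      ⟨γ₁, fun Q _ _ v hv => a2 Q (h1 Q hv), a4, a6⟩), a1, a2, a7⟩
  choose f hf using hex
  let G : List Bool → T := fun s => List.rec (⟨ψ, fun _ _ _ _ h => h, hle, hne⟩ : T)
    (fun i _ γ => if i then (f γ).2 else (f γ).1) s
  have hG : ∀ i s, G (i :: s) = if i then (f (G s)).2 else (f (G s)).1 := fun i s => rfl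
  refine ⟨fun s => (G s).1, fun s => (G s).2, ?_, ?_⟩
  · intro s i
    show (G s).1.Le (G (i :: s)).1
    rw [hG]
    cases i
    · exact (hf (G s)).1
    · exact (hf (G s)).2.1
  · intro s i
    show SumGe φ (G (i :: s)).1 (G ((!i) :: s)).1
    rw [hG, hG]
    cases i
    · exact (hf (G s)).2.2
    · intro N _ _ v hv
      obtain ⟨w, hw1, hw2⟩ := (hf (G s)).2.2 N v hv
      refine ⟨v - w, hw2, ?_⟩
      rw [_root_.sub_sub_cancel]
      exact hw1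

theorem exists_branch_element
    (hconj : ∀ θ θ' : PPFormula R, ∃ κ : PPFormula R,
      ∀ (N : Type u) [AddCommGroup N] [Module R N] (v : N),
        v ∈ κ.sol N ↔ v ∈ θ.sol N ∧ v ∈ θ'.sol N)
    (hel : ∀ (θ : PPFormula R) (p Φ : Set (PPFormula R)), p.Nonempty →
      (∀ χ₁ ∈ p, ∀ χ₂ ∈ p, ∃ χ₃ ∈ p, χ₃.Le χ₁ ∧ χ₃.Le χ₂) →
      (∀ χ ∈ p, ∀ α ∈ Φ, ¬ MeetLe θ χ α) →
      ∃ (Q : Type u) (_ : AddCommGroup Q) (_ : Module R Q) (v : Q), v ∈ θ.sol Q ∧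
        (∀ χ ∈ p, v ∈ χ.sol Q) ∧ ∀ α ∈ Φ, v ∉ α.sol Q)
    (φ : PPFormula R) (g o : ℕ → PPFormula R)
    (hg : ∀ n, (g n).Le φ) (ho : ∀ n, (o n).Le φ) (hgn : ∀ n, ¬ φ.Le (g n))
    (hmono : ∀ n, (g n).Le (g (n + 1))) (hgo : ∀ n, (g n).Le (o n))
    (hsum : ∀ n, SumGe φ (o n) (g (n + 1))) :
    ∃ (Q : Type u) (_ : AddCommGroup Q) (_ : Module R Q) (v : Q), v ∈ φ.sol Q ∧
      (∀ n, v ∈ (o n).sol Q) ∧ ∀ n, v ∉ (g n).sol Q := by
  choose cj hcj using hconj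
  let D : ℕ → PPFormula R := fun k => Nat.rec φ (fun k Dk => cj Dk (o k)) k
  have hD : ∀ (k : ℕ) (N : Type u) [AddCommGroup N] [Module R N] (v : N),
      v ∈ (D (k + 1)).sol N ↔ v ∈ (D k).sol N ∧ v ∈ (o k).sol N := by
    intro k N _ _ v
    exact hcj (D k) (o k) N v
  have hSum : ∀ k, SumGe φ (D k) (g k) := by
    intro k
    induction k with
    | zero =>
      intro N _ _ v hv
      refine ⟨v, hv, ?_⟩
      rw [sub_self]
      exact exists_tree_aux_zero _ _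
    | succ k ih =>
      intro N _ _ v hv
      obtain ⟨w, hw1, hw2⟩ := hsum k N v hv
      obtain ⟨d, hd1, hd2⟩ := ih N w (ho k N hw1)
      have he : w - d ∈ (o k).sol N := hgo k N hd2
      have hd3 : d ∈ (o k).sol N := by
        have := exists_tree_aux_sub (o k) N hw1 he
        rwa [_root_.sub_sub_cancel] at this
      refine ⟨d, (hD k N d).2 ⟨hd1, hd3⟩, ?_⟩
      have := exists_tree_aux_add (g (k + 1)) N hw2 (hmono k N hd2)
      rwa [sub_add_sub_cancel] at this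
  have hDle : ∀ k K, k ≤ K → ∀ (N : Type u) [AddCommGroup N] [Module R N] (v : N),
      v ∈ (D K).sol N → v ∈ (D k).sol N := by
    intro k K hkK
    induction K, hkK using Nat.le_induction with
    | base => intro N _ _ v hv; exact hv
    | succ K _ ih => intro N _ _ v hv; exact ih N v ((hD K N v).1 hv).1
  have hgle : ∀ k K, k ≤ K → ∀ (N : Type u) [AddCommGroup N] [Module R N] (v : N),
      v ∈ (g k).sol N → v ∈ (g K).sol N := by
    intro k K hkK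
    induction K, hkK using Nat.le_induction with
    | base => intro N _ _ v hv; exact hv
    | succ K _ ih => intro N _ _ v hv; exact hmono K N (ih N v hv)
  obtain ⟨Q, i1, i2, v, h1, h2, h3⟩ := hel φ (Set.range D) (Set.range g) ⟨D 0, 0, rfl⟩
    (by
      rintro _ ⟨k1, rfl⟩ _ ⟨k2, rfl⟩
      exact ⟨D (max k1 k2), ⟨_, rfl⟩, fun N _ _ v hv => hDle k1 _ (le_max_left _ _) N v hv,
        fun N _ _ v hv => hDle k2 _ (le_max_right _ _) N v hv⟩)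
    (by
      rintro _ ⟨k, rfl⟩ _ ⟨n, rfl⟩ hM
      apply hgn (max k n)
      intro N _ _ v hv
      obtain ⟨d, hd1, hd2⟩ := hSum (max k n) N v hv
      have hd3 : d ∈ φ.sol N := hDle 0 _ (Nat.zero_le _) N d hd1
      have hd4 : d ∈ (g n).sol N := hM N d hd3 (hDle k _ (le_max_left _ _) N d hd1)
      have hd5 := hgle n _ (le_max_right k n) N d hd4
      have := exists_tree_aux_add (g (max k n)) N hd5 hd2
      rwa [add_sub_cancel] at this)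
  refine ⟨Q, i1, i2, v, h1, fun n => ?_, fun n => h3 _ ⟨n, rfl⟩⟩
  exact ((hD n Q v).1 (h2 _ ⟨n + 1, rfl⟩)).2
end

end ZIso
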