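import Pool.Agent.Helper462.Iso.Defs

namespace ZIso

universe u

open Zg


section
variable {R : Type u} [Ring R]

theorem pso_zero (ψ : PPFormula R) (N : Type u) [AddCommGroup N] [Module R N] :
    (0 : N) ∈ ψ.sol N := by
  refine ⟨fun _ => 0, fun j => ?_⟩
  simp

theorem pso_add (ψ : PPFormula R) (N : Type u) [AddCommGroup N] [Module R N] (v w : N)
    (hv : v ∈ ψ.sol N) (hw : w ∈ ψ.sol N) : v + w ∈ ψ.sol N := by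
  obtain ⟨z, hz⟩ := hv
  obtain ⟨z', hz'⟩ := hw
  refine ⟨fun i => z i + z' i, fun j => ?_⟩
  have h1 := hz j
  have h2 := hz' j
  simp only [smul_add, Finset.sum_add_distrib]
  rw [h1, h2]

theorem pso_zeroF : ∃ ζ : PPFormula R, ∀ (N : Type u) [AddCommGroup N] [Module R N] (v : N),
    v ∈ ζ.sol N ↔ v = 0 := by
  refine ⟨⟨0, 1, fun _ i => i.elim0, fun _ => 1⟩, ?_⟩
  intro N _ _ v
  constructor
  · rintro ⟨z, hz⟩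
    have h := hz 0
    simpa using h.symm
  · rintro rfl
    exact pso_zero _ N

theorem propS_of (hsnd : ∀ (ρ : Rel R) (θ : PPFormula R), ∃ κ : PPFormula R,
      ∀ (N : Type u) [AddCommGroup N] [Module R N] (v : N),
        v ∈ κ.sol N ↔ ∃ y ∈ θ.sol N, ρ.At v y)
    (hswap : ∀ ρ : Rel R, ∃ σ : Rel R,
      ∀ (N : Type u) [AddCommGroup N] [Module R N] (x y : N), σ.At x y ↔ ρ.At y x)
    (hconj : ∀ ρ ρ' : Rel R, ∃ σ : Rel R,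
      ∀ (N : Type u) [AddCommGroup N] [Module R N] (x y : N),
        σ.At x y ↔ ρ.At x y ∧ ρ'.At x y)
    (hres : ∀ (ρ : Rel R) (χ : PPFormula R), ∃ σ : Rel R,
      ∀ (N : Type u) [AddCommGroup N] [Module R N] (x y : N),
        σ.At x y ↔ ρ.At x y ∧ y ∈ χ.sol N)
    (hsub : ∀ (ρ : Rel R) (N : Type u) [AddCommGroup N] [Module R N] (x y x' y' : N),
      ρ.At x y → ρ.At x' y' → ρ.At (x - x') (y - y'))
    {N : Type u} [AddCommGroup N] [Module R N] (φ ψ : PPFormula R)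
    (hL : PropL R N) (hG : PropG N φ ψ) (hne : ¬ φ.Le ψ) : PropS R N := by
  have hex : ∃ (Q : Type u) (_ : AddCommGroup Q) (_ : Module R Q) (x : Q),
      x ∈ φ.sol Q ∧ x ∉ ψ.sol Q := by
    by_contra hcon
    apply hne
    intro Q _ _ x hx
    by_contra hx2
    exact hcon ⟨Q, inferInstance, inferInstance, x, hx, hx2⟩
  obtain ⟨Q, i1, i2, x, hx, hx2⟩ := hex
  obtain ⟨b0, hb1, -, hb3⟩ := hG {χ | χ.Le ψ} (fun M _ _ v hv => hv)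
    (fun χ₁ h₁ χ₂ h₂ => ⟨ψ, fun M _ _ v hv => hv, fun M _ _ v w hv hw =>
      pso_add ψ M v w (h₁ M hv) (h₂ M hw)⟩) Q x hx (fun χ hχ hc => hx2 (hχ Q hc))
  have hb0ψ : b0 ∉ ψ.sol N := hb1 ψ (fun M _ _ v hv => hv)
  have hstar : ∀ θ : PPFormula R, b0 ∉ θ.sol N → ∃ χ : PPFormula R, b0 ∈ χ.sol N ∧
      MeetLe θ χ ψ := by
    intro θ hθ
    obtain ⟨χ, h1, α, hα, h2⟩ := hb3 θ hθ
    exact ⟨χ, h1, fun M _ _ v hv hv' => hα M (h2 M v hv hv')⟩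
  have hb0 : b0 ≠ 0 := by
    intro h
    apply hb0ψ
    rw [h]
    exact pso_zero ψ N
  obtain ⟨ζ, hζ⟩ := pso_zeroF (R := R)
  intro a ha
  obtain ⟨ρ, hρ1, hρ2⟩ := hL ζ a b0 (fun h => ha ((hζ N a).1 h)) hb0
  obtain ⟨σ, hσ⟩ := hswap ρ
  obtain ⟨κ, hκ⟩ := hsnd σ ζ
  have hκb : b0 ∉ κ.sol N := by
    intro h
    obtain ⟨y, hy, hy2⟩ := (hκ N b0).1 h
    exact hρ2 y hy ((hσ N b0 y).1 hy2)
  obtain ⟨χ1, hχ1, hm1⟩ := hstar κ hκb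
  obtain ⟨ρ', hρ'⟩ := hres ρ χ1
  have hρ'a : ρ'.At a b0 := (hρ' N a b0).2 ⟨hρ1, hχ1⟩
  have hρ'0 : ∀ y : N, ρ'.At 0 y → y ∈ ψ.sol N := by
    intro y hy
    obtain ⟨h1, h2⟩ := (hρ' N 0 y).1 hy
    refine hm1 N y ((hκ N y).2 ⟨0, (hζ N 0).2 rfl, (hσ N y 0).2 h1⟩) h2
  obtain ⟨θ0, hθ0⟩ := hsnd ρ' ψ
  refine ⟨θ0, ?_, ?_⟩
  · intro h
    obtain ⟨y1, hy1, hy2⟩ := (hθ0 N a).1 h
    have h1 := hsub ρ' N a b0 a y1 hρ'a hy2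
    rw [sub_self] at h1
    have h2 := hρ'0 _ h1
    apply hb0ψ
    have h3 := pso_add ψ N _ _ h2 hy1
    rwa [sub_add_cancel] at h3
  · intro θ hθ
    obtain ⟨ρ1, h1, h2⟩ := hL θ a b0 hθ hb0
    obtain ⟨σ1, hσ1⟩ := hswap ρ1
    obtain ⟨τ, hτ⟩ := hsnd σ1 θ
    have hτb : b0 ∉ τ.sol N := by
      intro h
      obtain ⟨y, hy, hy2⟩ := (hτ N b0).1 h
      exact h2 y hy ((hσ1 N b0 y).1 hy2)
    obtain ⟨χ2, hχ2, hm2⟩ := hstar τ hτb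
    obtain ⟨σ2, hσ2⟩ := hconj ρ1 ρ'
    obtain ⟨χ, hχ⟩ := hsnd σ2 χ2
    refine ⟨χ, (hχ N a).2 ⟨b0, hχ2, (hσ2 N a b0).2 ⟨h1, hρ'a⟩⟩, ?_⟩
    intro M _ _ v hv hv'
    obtain ⟨y, hy, hy2⟩ := (hχ M v).1 hv'
    obtain ⟨h3, h4⟩ := (hσ2 M v y).1 hy2
    have h5 : y ∈ ψ.sol M := hm2 M y ((hτ M y).2 ⟨v, hv, (hσ1 M y v).2 h3⟩) hy
    exact (hθ0 M v).2 ⟨y, h5, h4⟩
end

end ZIso
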