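import Pool.Agent.Helper462.Iso.Basis
import Pool.Agent.Helper462.Iso.G
import Pool.Agent.Helper462.Iso.J3
import Pool.Agent.Helper462.Iso.J4
import Pool.Agent.Helper462.Iso.J5
import Pool.Agent.Helper462.Iso.J9
import Pool.Agent.Helper462.Iso.J10

/-!
# Isolated points are isolated by minimal pairs over algebras of dimension below the continuum
-/

namespace ZIso

universe u

open Zg

section
variable {R : Type u} [Ring R]

theorem pre_length (b : ℕ → Bool) (n : ℕ) : (pre b n).length = n := by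
  induction n with
  | zero => rfl
  | succ n ih => simp [pre, ih]

/-- existence of a point in a basic set -/
theorem exists_point (k : Type u) [Field k] [Algebra k R] (φ ψ : PPFormula R) (h : ¬ φ.Le ψ) :
    ∃ N : IndecPureInjective R, ¬ φ.sol N.carrier ⊆ ψ.sol N.carrier := by
  simp only [PPFormula.Le] at h
  push Not at h
  obtain ⟨Q, _, _, hQ⟩ := h
  obtain ⟨N, -, hN⟩ := Cb.exists_point_cl k ∅ Q φ ψ (by simp) hQ
  exact ⟨N, hN⟩

theorem propG_of (k : Type u) [Field k] [Algebra k R] (N : IndecPureInjective R)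
    (φ ψ : PPFormula R) (hset : basicSet φ ψ = {zgPoint N}) : PropG N.carrier φ ψ := by
  intro Φ hψ hadd Q _ _ x hxφ hx
  obtain ⟨N', a, h1, h2, h3⟩ := exists_indecomposable_avoiding k Φ ⟨ψ, hψ⟩ hadd x hx
  have hmem : zgPoint N' ∈ basicSet φ ψ := by
    rw [Cb.mem_basicSet_aux]
    intro heq
    exact h1 ψ hψ (heq ▸ h2 φ hxφ)
  rw [hset] at hmem
  obtain ⟨e⟩ := Cb.zg_exact_aux (show zgPoint N' = zgPoint N from hmem)
  refine ⟨e a, ?_, ?_, ?_⟩
  · intro χ hχ h
    exact h1 χ hχ ((Cb.sol_iff_aux e χ a).1 h)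
  · intro θ hθ
    exact (Cb.sol_iff_aux e θ a).2 (h2 θ hθ)
  · intro θ hθ
    obtain ⟨χ, hχ, α, hα, hm⟩ := h3 θ (fun h => hθ ((Cb.sol_iff_aux e θ a).2 h))
    exact ⟨χ, (Cb.sol_iff_aux e χ a).2 hχ, α, hα, hm⟩

/-- **Main theorem**: over an algebra of dimension less than the continuum, an isolated point of
the Ziegler spectrum is isolated by a minimal pair. -/
theorem exists_minimal (k : Type u) [Field k] [Algebra k R]
    (hdim : Module.rank k R < Cardinal.continuum) (N : IndecPureInjective R)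
    (hN : IsOpen ({zgPoint N} : Set (ZieglerSpectrum R))) :
    ∃ φ ψ : PPFormula R, basicSet φ ψ = {zgPoint N} ∧ ψ.Le φ ∧ ¬ φ.Le ψ ∧
      ∀ θ : PPFormula R, ψ.Le θ → θ.Le φ → θ.Le ψ ∨ φ.Le θ := by
  classical
  obtain ⟨φ, ψ, hle, hset⟩ := exists_pair_of_isOpen k N hN
  have hcomp := Cb.compact_of_pureInjective (R := R) k
  have hL : PropL R N.carrier := propL_of
    (fun N _ _ hN θ β a b h => exists_hom_two hcomp hN θ β a b h)
    (fun N Q _ _ _ _ hN hNi x hx h hh => Cb.star hN hNi x hx h hh)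
    N.pureInjective N.indecomposable
  have hG : PropG N.carrier φ ψ := propG_of k N φ ψ hset
  have hne : ¬ φ.Le ψ := by
    intro h
    have h1 : zgPoint N ∈ basicSet φ ψ := by rw [hset]; rfl
    rw [Cb.mem_basicSet_aux] at h1
    exact h1 (Set.Subset.antisymm (h _) (hle _))
  have hS : PropS R N.carrier := propS_of exists_fst exists_swap exists_relconj exists_relsnd
    (fun ρ N _ _ x y x' y' h h' => Rel.At.sub h h') φ ψ hL hG hne
  by_contra hcon
  push Not at hcon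
  have hmin : ∀ α β : PPFormula R, ψ.Le β → β.Le α → α.Le φ → ¬ α.Le β →
      ∃ θ : PPFormula R, β.Le θ ∧ θ.Le α ∧ ¬ θ.Le β ∧ ¬ α.Le θ := by
    intro α β h1 h2 h3 h4
    refine hcon α β ?_ h2 h4
    obtain ⟨N', hN'⟩ := exists_point k α β h4
    have hsub : basicSet α β ⊆ basicSet φ ψ := by
      rintro _ ⟨N'', rfl, hN''⟩
      rw [Cb.mem_basicSet_aux]
      intro heq
      apply hN''
      refine Set.Subset.antisymm ?_ (h2 _)
      intro v hv
      apply h1
      rw [← heq]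
      exact h3 _ hv
    have hmem : zgPoint N' ∈ basicSet α β := by
      rw [Cb.mem_basicSet_aux]
      intro heq
      exact hN' heq.le
    have h5 : zgPoint N' = zgPoint N := by
      have := hsub hmem
      rw [hset] at this
      exact this
    refine Set.Subset.antisymm (hsub.trans hset.le) ?_
    rintro _ rfl
    rw [← h5]
    exact hmem
  have hsplit := split_of exists_sum Cb.exists_conj (fun θ => by
    obtain ⟨F, i1, i2, -, e, he⟩ := Cb.exists_free_realization θ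
    exact ⟨F, i1, i2, e, he⟩) φ ψ hS hG hmin
  obtain ⟨γ, hγ, hγmono, hγsum⟩ := exists_tree φ ψ hle hne hsplit
  have hgmono : ∀ (b : ℕ → Bool) (i j : ℕ), i ≤ j → (γ (pre b i)).Le (γ (pre b j)) := by
    intro b i j hij
    induction j, hij using Nat.le_induction with
    | base => exact fun _ _ _ => subset_rfl
    | succ j _ ih => exact fun M _ _ => (ih M).trans (hγmono (pre b j) (b j) M)
  -- the elements
  have hel : ∀ b : ℕ → Bool, ∃ a : N.carrier, (∀ n, a ∈ (γ ((!b n) :: pre b n)).sol N.carrier) ∧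
      (∀ n, a ∉ (γ (pre b n)).sol N.carrier) ∧
      ∀ θ : PPFormula R, a ∉ θ.sol N.carrier → ∃ χ : PPFormula R, a ∈ χ.sol N.carrier ∧
        ∃ n, MeetLe θ χ (γ (pre b n)) := by
    intro b
    obtain ⟨Q, _, _, v, hvφ, hvo, hvg⟩ := exists_branch_element Cb.exists_conj exists_element φ
      (fun n => γ (pre b n)) (fun n => γ ((!b n) :: pre b n))
      (fun n => (hγ _).2.1) (fun n => (hγ _).2.1) (fun n => (hγ _).2.2)
      (fun n => hγmono _ _) (fun n => hγmono _ _) (fun n => by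
        have := hγsum (pre b n) (!b n)
        rw [Bool.not_not] at this
        exact this)
    obtain ⟨a, ha1, ha2, ha3⟩ := hG {χ | ∃ n, χ.Le (γ (pre b n))} ⟨0, (hγ _).1⟩ (by
      rintro χ₁ ⟨n₁, h₁⟩ χ₂ ⟨n₂, h₂⟩
      refine ⟨γ (pre b (max n₁ n₂)), ⟨max n₁ n₂, fun _ _ _ => subset_rfl⟩, ?_⟩
      intro M _ _ v w hv hw
      exact Cb.sol_add _ (hgmono b _ _ (le_max_left _ _) M (h₁ M hv))
        (hgmono b _ _ (le_max_right _ _) M (h₂ M hw))) Q v hvφ (by
      rintro χ ⟨n, hn⟩ h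
      exact hvg n (hn Q h))
    refine ⟨a, fun n => ha2 _ (hvo n), fun n => ha1 _ ⟨n, fun _ _ _ => subset_rfl⟩, ?_⟩
    intro θ hθ
    obtain ⟨χ, hχ, α, ⟨n, hn⟩, hm⟩ := ha3 θ hθ
    exact ⟨χ, hχ, n, fun M _ _ v hv hv' => hn M (hm M v hv hv')⟩
  choose a hoff hon hmaxa using hel
  have ha0 : ∀ b, a b ≠ 0 := by
    intro b h
    apply hon b 0
    rw [h]
    exact Cb.sol_zero _
  have hbn : ∀ b : ℕ → Bool, ∃ n : ℕ, ∀ θ : PPFormula R, a b ∉ θ.sol N.carrier →
      ∃ χ : PPFormula R, a b ∈ χ.sol N.carrier ∧ MeetLe θ χ (γ (pre b n)) := by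
    intro b
    obtain ⟨θ₀, h1, h2⟩ := hS (a b) (ha0 b)
    obtain ⟨χ₀, h3, n, h4⟩ := hmaxa b θ₀ h1
    refine ⟨n, fun θ hθ => ?_⟩
    obtain ⟨χ, h5, h6⟩ := h2 θ hθ
    refine ⟨Cb.conjF χ χ₀, (Cb.mem_conjF _ _ _).2 ⟨h5, h3⟩, ?_⟩
    intro M _ _ v hv hv'
    have h7 := (Cb.mem_conjF _ _ _).1 hv'
    exact h4 M v (h6 M v hv h7.1) h7.2
  choose n hn using hbn
  have := N.indecomposable.1
  obtain ⟨y, hy⟩ := exists_ne (0 : N.carrier)
  refine final_count k hdim γ hγmono a n y hoff hon ?_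
  intro b
  obtain ⟨ρ, hρ1, hρ2⟩ := hL (Cb.zetaF R) y (a b) (by rw [Cb.mem_zetaF]; exact hy) (ha0 b)
  obtain ⟨κ, hκ⟩ := exists_zero_snd ρ
  have h1 : a b ∉ κ.sol N.carrier := by
    rw [hκ]
    exact hρ2 0 ((Cb.mem_zetaF _).2 rfl)
  obtain ⟨χ, h2, h3⟩ := hn b κ h1
  obtain ⟨σ, hσ⟩ := exists_relsnd ρ χ
  refine exists_param (γ (pre b (n b))) σ ?_ y (a b) ((hσ _ _ _).2 ⟨hρ1, h2⟩)
  intro Q _ _ x hx
  rw [hσ] at hx
  exact h3 Q x ((hκ Q x).2 hx.1) hx.2

end

end ZIso
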