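import Pool.Agent.Helper462.Zg.Defs

namespace ZIso

universe u

open Zg

section
variable {A : Type u} [Ring A]

/-- single row -/
theorem row_reg (hreg : ∀ a : A, ∃ x, a * x * a = a) :
    ∀ (m : ℕ) (b : Fin m → A), ∃ x : Fin m → A, ∀ i, (∑ k, b k * x k) * b i = b i := by
  intro m
  induction m with
  | zero => intro b; exact ⟨fun _ => 0, fun i => i.elim0⟩
  | succ m ih =>
    intro b
    obtain ⟨x', hx'⟩ := ih (fun i => b i.succ)
    set g' : A := ∑ k : Fin m, b k.succ * x' k with hg'
    set r : A := b 0 with hr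
    obtain ⟨y, hy⟩ := hreg ((1 - g') * r)
    have hgg : g' * g' = g' := by
      have : g' * (∑ k : Fin m, b k.succ * x' k) = ∑ k : Fin m, b k.succ * x' k := by
        rw [Finset.mul_sum]
        refine Finset.sum_congr rfl fun k _ => ?_
        rw [← mul_assoc, hx' k]
      exact this
    refine ⟨Fin.cons (y * (1 - g')) (fun k => x' k * (1 - r * y * (1 - g'))), ?_⟩
    have hsum : (∑ k : Fin (m + 1), b k * (Fin.cons (y * (1 - g'))
        (fun k => x' k * (1 - r * y * (1 - g'))) : Fin (m + 1) → A) k)
        = g' + ((1 - g') * r) * y * (1 - g') := by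
      rw [Fin.sum_univ_succ]
      simp only [Fin.cons_zero, Fin.cons_succ]
      have : ∑ k : Fin m, b k.succ * (x' k * (1 - r * y * (1 - g'))) = g' * (1 - r * y * (1 - g')) := by
        rw [hg', Finset.sum_mul]
        exact Finset.sum_congr rfl fun k _ => (mul_assoc _ _ _).symm
      rw [this, ← hr]
      noncomm_ring
    intro i
    rw [hsum]
    refine Fin.cases ?_ ?_ i
    · rw [← hr]
      have h1 : (g' + (1 - g') * r * y * (1 - g')) * r = g' * r + ((1 - g') * r) * y * ((1 - g') * r) := by
        noncomm_ring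
      rw [h1, hy]
      noncomm_ring
    · intro k
      have h2 : (1 - g') * b k.succ = 0 := by
        rw [sub_mul, one_mul, hx' k, sub_self]
      rw [add_mul, mul_assoc _ (1 - g'), h2, mul_zero, add_zero]
      exact hx' k

/-- rectangular matrices over a regular ring are regular -/
theorem mat_reg (hreg : ∀ a : A, ∃ x, a * x * a = a) :
    ∀ (l m : ℕ) (B : Matrix (Fin l) (Fin m) A), ∃ X : Matrix (Fin m) (Fin l) A, B * X * B = B := by
  intro l
  induction l with
  | zero => intro m B; exact ⟨0, by ext i; exact i.elim0⟩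
  | succ l ih =>
    intro m B
    obtain ⟨x0, hx0⟩ := row_reg hreg m (B 0)
    let b : Matrix (Fin 1) (Fin m) A := fun _ i => B 0 i
    let x : Matrix (Fin m) (Fin 1) A := fun i _ => x0 i
    let B' : Matrix (Fin l) (Fin m) A := fun j i => B j.succ i
    have hb : b * x * b = b := by
      ext i j
      simp only [Matrix.mul_apply, Fin.sum_univ_one, Fin.isValue]
      exact hx0 j
    let P : Matrix (Fin m) (Fin m) A := 1 - x * b
    obtain ⟨X'', hX''⟩ := ih m (B' * P)
    let X : Matrix (Fin m) (Fin (l + 1)) A := fun i => Fin.cons ((x - P * X'' * B' * x) i 0) (fun j => (P * X'') i j)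
    have hXB : X * B = (x - P * X'' * B' * x) * b + P * X'' * B' := by
      ext i j
      rw [Matrix.mul_apply, Fin.sum_univ_succ, Matrix.add_apply, Matrix.mul_apply, Matrix.mul_apply (M := P * X''),
        Fin.sum_univ_one]
      rfl
    have hbP : b * P = 0 := by
      show b * (1 - x * b) = 0
      rw [Matrix.mul_sub, Matrix.mul_one, ← Matrix.mul_assoc, hb, sub_self]
    have hXB2 : X * B = x * b + P * X'' * (B' * P) := by
      rw [hXB]
      show _ = x * b + P * X'' * (B' * (1 - x * b))
      rw [Matrix.sub_mul, Matrix.mul_sub B', Matrix.mul_one, Matrix.mul_sub (P * X'')]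
      simp only [Matrix.mul_assoc]
      abel
    refine ⟨X, ?_⟩
    have hrow0 : b * (X * B) = b := by
      rw [hXB2, Matrix.mul_add, ← Matrix.mul_assoc, hb, Matrix.mul_assoc P, ← Matrix.mul_assoc b P, hbP,
        Matrix.zero_mul, add_zero]
    have hrows : B' * (X * B) = B' := by
      rw [hXB2, Matrix.mul_add]
      have h3 : B' * (P * X'' * (B' * P)) = B' * P := by
        rw [← Matrix.mul_assoc, ← Matrix.mul_assoc B' P X'']
        exact hX''
      rw [h3]
      show B' * (x * b) + B' * (1 - x * b) = B'
      rw [Matrix.mul_sub, Matrix.mul_one]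
      abel
    rw [Matrix.mul_assoc]
    ext j i
    refine Fin.cases ?_ (fun j => ?_) j
    · have := congrFun (congrFun hrow0 0) i
      rw [Matrix.mul_apply] at this
      rw [Matrix.mul_apply]
      exact this
    · have := congrFun (congrFun hrows j) i
      rw [Matrix.mul_apply] at this
      rw [Matrix.mul_apply]
      exact this

theorem solve_reg {m l : ℕ} {B : Matrix (Fin l) (Fin m) A} {X : Matrix (Fin m) (Fin l) A}
    (h : B * X * B = B) {M : Type u} [AddCommGroup M] [Module A M] (c : Fin l → M)
    (hs : Solvable (fun j i => B j i) c) (j : Fin l) :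
    ∑ i, B j i • (∑ k, X i k • c k) = c j := by
  obtain ⟨z, hz⟩ := hs
  have h1 : ∀ k, c k = ∑ p, B k p • z p := fun k => (hz k).symm
  have h2 : ∑ i, B j i • (∑ k, X i k • c k) = ∑ p, (B * X * B) j p • z p := by
    calc ∑ i, B j i • (∑ k, X i k • c k)
        = ∑ i, ∑ k, (B j i * X i k) • c k := by
          refine Finset.sum_congr rfl fun i _ => ?_
          rw [Finset.smul_sum]
          refine Finset.sum_congr rfl fun k _ => by rw [mul_smul]
      _ = ∑ k, (B * X) j k • c k := by
          rw [Finset.sum_comm]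
          refine Finset.sum_congr rfl fun k _ => ?_
          rw [Matrix.mul_apply, Finset.sum_smul]
      _ = ∑ k, ∑ p, ((B * X) j k * B k p) • z p := by
          refine Finset.sum_congr rfl fun k _ => ?_
          rw [h1 k, Finset.smul_sum]
          refine Finset.sum_congr rfl fun p _ => by rw [mul_smul]
      _ = ∑ p, (B * X * B) j p • z p := by
          rw [Finset.sum_comm]
          refine Finset.sum_congr rfl fun p _ => ?_
          rw [Matrix.mul_apply (M := B * X), Finset.sum_smul]
  rw [h2, h, ← h1 j]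

/-- over a regular ring every embedding is pure -/
theorem pure_of_reg (hreg : ∀ a : A, ∃ x, a * x * a = a)
    {M N : Type u} [AddCommGroup M] [Module A M] [AddCommGroup N] [Module A N]
    (f : M →ₗ[A] N) (hf : Function.Injective f) : IsPureEmbedding f := by
  refine ⟨hf, ?_⟩
  intro m l r c hs
  obtain ⟨X, hX⟩ := mat_reg hreg l m (fun j i => r j i)
  refine ⟨fun i => ∑ k, X i k • c k, fun j => hf ?_⟩
  have h := solve_reg hX (fun j => f (c j)) hs j
  rw [map_sum]
  simp only [map_smul, map_sum]
  exact h

/-- over a regular ring every pp formula is equivalent to `e v = 0` for an idempotent `e` -/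
theorem pp_of_reg (hreg : ∀ a : A, ∃ x, a * x * a = a) (φ : PPFormula A) :
    ∃ e : A, e * e = e ∧ ∀ (M : Type u) [AddCommGroup M] [Module A M] (v : M),
      v ∈ φ.sol M ↔ e • v = 0 := by
  obtain ⟨X, hX⟩ := mat_reg hreg φ.l φ.m (fun j i => φ.B j i)
  let acol : Fin φ.l → A := φ.a
  let r : Fin φ.l → A := fun j => (∑ i, φ.B j i * (∑ k, X i k * φ.a k)) - φ.a j
  let Rm : Matrix (Fin φ.l) (Fin 1) A := fun j _ => r j
  obtain ⟨Y, hY⟩ := mat_reg hreg φ.l 1 Rm
  let e : A := ∑ k, Y 0 k * r k
  have hre : ∀ j, r j * e = r j := by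
    intro j
    have h := congrFun (congrFun hY j) 0
    rw [Matrix.mul_assoc, Matrix.mul_apply, Fin.sum_univ_one, Matrix.mul_apply] at h
    exact h
  have hee : e * e = e := by
    show (∑ k, Y 0 k * r k) * e = _
    rw [Finset.sum_mul]
    refine Finset.sum_congr rfl fun k _ => ?_
    rw [mul_assoc, hre k]
  refine ⟨e, hee, ?_⟩
  intro M _ _ v
  have key : v ∈ φ.sol M ↔ ∀ j, r j • v = 0 := by
    have hr : ∀ j, r j • v = ∑ i, φ.B j i • (∑ k, X i k • (φ.a k • v)) - φ.a j • v := by
      intro j
      show ((∑ i, φ.B j i * (∑ k, X i k * φ.a k)) - φ.a j) • v = _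
      rw [sub_smul, Finset.sum_smul]
      congr 1
      refine Finset.sum_congr rfl fun i _ => ?_
      rw [mul_smul, Finset.sum_smul]
      congr 1
      refine Finset.sum_congr rfl fun k _ => by rw [mul_smul]
    constructor
    · intro hv j
      have hv' : Solvable (fun j i => φ.B j i) (fun j => φ.a j • v) := hv
      rw [hr j, solve_reg hX (fun j => φ.a j • v) hv' j, sub_self]
    · intro hv
      refine ⟨fun i => ∑ k, X i k • (φ.a k • v), fun j => ?_⟩
      have := hv j
      rw [hr j, sub_eq_zero] at this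
      exact this
  rw [key]
  constructor
  · intro h
    show (∑ k, Y 0 k * r k) • v = 0
    rw [Finset.sum_smul]
    refine Finset.sum_eq_zero fun k _ => ?_
    rw [mul_smul, h k, smul_zero]
  · intro h j
    rw [← hre j, mul_smul, h, smul_zero]

/-- a pp pair over a regular ring is given by an idempotent -/
theorem pair_of_reg (hreg : ∀ a : A, ∃ x, a * x * a = a) (φ ψ : PPFormula A) (hle : ψ.Le φ) :
    ∃ f : A, f * f = f ∧ ∀ (M : Type u) [AddCommGroup M] [Module A M],
      φ.sol M ≠ ψ.sol M ↔ ∃ v : M, f • v ≠ 0 := by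
  obtain ⟨e, he, hφ⟩ := pp_of_reg hreg φ
  obtain ⟨e', he', hψ⟩ := pp_of_reg hreg ψ
  have hee' : e * e' = e := by
    have h1 : (Submodule.Quotient.mk (1 : A) : A ⧸ Submodule.span A {e'}) ∈ ψ.sol _ := by
      rw [hψ, ← Submodule.Quotient.mk_smul, Submodule.Quotient.mk_eq_zero, smul_eq_mul, mul_one]
      exact Submodule.mem_span_singleton_self e'
    have h2 := hle _ h1
    rw [hφ, ← Submodule.Quotient.mk_smul, Submodule.Quotient.mk_eq_zero, smul_eq_mul, mul_one,
      Submodule.mem_span_singleton] at h2
    obtain ⟨a, ha⟩ := h2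
    rw [← ha, smul_eq_mul, mul_assoc, he']
  have hh1 : e' * e * e' = e' * e := by rw [mul_assoc, hee']
  refine ⟨e' - e' * e, ?_, ?_⟩
  · have : (e' - e' * e) * (e' - e' * e) = e' * e' - e' * e' * e - e' * e * e' + (e' * e * e') * e := by
      noncomm_ring
    rw [this, hh1, he', mul_assoc e' e e, he]
    abel
  · intro M _ _
    constructor
    · intro hne
      by_contra hall
      push Not at hall
      apply hne
      apply Set.Subset.antisymm
      · intro v hv
        rw [hφ] at hv
        rw [hψ]
        have h := hall v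
        rw [sub_smul, mul_smul, hv, smul_zero, sub_zero] at h
        exact h
      · exact hle M
    · rintro ⟨v, hv⟩ heq
      have h1 : (e' - e' * e) • v ∈ φ.sol M := by
        rw [hφ, ← mul_smul]
        have : e * (e' - e' * e) = 0 := by
          rw [mul_sub, ← mul_assoc, hee', he, sub_self]
        rw [this, zero_smul]
      rw [heq, hψ, ← mul_smul] at h1
      have : e' * (e' - e' * e) = e' - e' * e := by
        rw [mul_sub, ← mul_assoc, he']
      rw [this] at h1
      exact hv h1

theorem pureInjective_iff_injective (hreg : ∀ a : A, ∃ x, a * x * a = a)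
    (N : Type u) [AddCommGroup N] [Module A N] :
    IsPureInjective A N ↔ Module.Injective A N := by
  constructor
  · intro h
    refine ⟨fun X Y _ _ _ _ f hf g => ?_⟩
    obtain ⟨k, hk⟩ := h X Y f (pure_of_reg hreg f hf) g
    exact ⟨k, fun x => by rw [← hk]; rfl⟩
  · intro h P Q _ _ _ _ i hi g
    obtain ⟨k, hk⟩ := h.out i hi.1 g
    exact ⟨k, LinearMap.ext hk⟩
end

end ZIso
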